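import Pool.Agent.LibM3.Defs
import Pool.Agent.LibZM.NC5

/-! Third moment near the critical line: elementary facts (copies of lemmas of LibM3.F6, to keep the imports light). -/

set_option autoImplicit false

namespace Pool.Agent.LibNL3

open MeasureTheory Set Filter Topology Complex ProbabilityTheory
open scoped NNReal
open Pool.Agent.LibZM Pool.Agent.LibM3

theorem moment_le3 {v : ℝ≥0} (hv : v ≠ 0) {h : ℝ → ℝ} (hc : Continuous h) (h0 : ∀ t, 0 ≤ h t) {a b α β c m : ℝ} 
    (hαβ : α ≤ β) (hcb : ∀ u ∈ Icc α β, ∫ t in Icc a b, h t ∂(gaussianReal u v) ≤ c) 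
    (hm : ∀ t ∈ Icc a b, m ≤ ∫ u in Icc α β, gaussianPDFReal t v u) : 
    m * ∫ t in Icc a b, h t ≤ c * (β - α) := by
  have hcont : Continuous (Function.uncurry fun (u t : ℝ) => gaussianPDFReal u v t * h t) := by
    unfold Function.uncurry
    simp only [gaussianPDFReal_def]
    fun_prop
  have hint : Integrable (Function.uncurry fun (u t : ℝ) => gaussianPDFReal u v t * h t) 
      ((volume.restrict (Icc α β)).prod (volume.restrict (Icc a b))) := by
    rw [Measure.prod_restrict]
    exact hcont.continuousOn.integrableOn_compact (μ := volume) (isCompact_Icc.prod isCompact_Icc)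
  have e1 : ∀ u, ∫ t in Icc a b, gaussianPDFReal u v t * h t = ∫ t in Icc a b, h t ∂(gaussianReal u v) := by
    intro u
    rw [setIntegral_gaussian' hv u measurableSet_Icc]
  have hleft : ∫ u in Icc α β, (∫ t in Icc a b, gaussianPDFReal u v t * h t) ≤ c * (β - α) := by
    calc ∫ u in Icc α β, (∫ t in Icc a b, gaussianPDFReal u v t * h t) ≤ ∫ u in Icc α β, c := by
          refine setIntegral_mono_on hint.integral_prod_left (by simp) measurableSet_Icc fun u hu => ?_
          rw [e1]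
          exact hcb u hu
      _ = c * (β - α) := by
          rw [setIntegral_const, smul_eq_mul, measureReal_def, Real.volume_Icc, ENNReal.toReal_ofReal (by linarith)]
          ring
  refine le_trans ?_ hleft
  rw [integral_integral_swap hint, ← integral_const_mul]
  refine setIntegral_mono_on ?_ hint.integral_prod_right measurableSet_Icc fun t ht => ?_
  · exact ((hc.continuousOn).integrableOn_compact isCompact_Icc).const_mul m
  · have e2 : ∫ u in Icc α β, gaussianPDFReal u v t * h t = (∫ u in Icc α β, gaussianPDFReal t v u) * h t := by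
      have e3 : ∀ u, gaussianPDFReal u v t * h t = gaussianPDFReal t v u * h t := fun u => by
        rw [pdf_symm v u t]
      simp_rw [e3]
      rw [integral_mul_const]
    rw [e2]
    exact mul_le_mul_of_nonneg_right (hm t ht) (h0 t)

/-- The normalisation. -/
noncomputable def L3 (T : ℝ) : ℝ := Aconst (3/2) * (Real.log T) ^ (9/4 : ℝ)

lemma L3_pos {T : ℝ} (hT : 1 < T) : 0 < L3 T := by
  have hA := Aconst_pos (κ := 3/2) (by norm_num)
  have hl := Real.log_pos hT
  unfold L3; positivity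

lemma L3_nonneg {T : ℝ} (hT : 1 ≤ T) : 0 ≤ L3 T := by
  have hA := Aconst_pos (κ := 3/2) (by norm_num)
  have hl := Real.log_nonneg hT
  unfold L3; positivity

lemma L3_mono {S T : ℝ} (hS : 1 ≤ S) (hST : S ≤ T) : L3 S ≤ L3 T := by
  unfold L3
  have hA := Aconst_pos (κ := 3/2) (by norm_num)
  have h1 := Real.log_nonneg hS
  have h2 := Real.log_le_log (by linarith) hST
  gcongr

lemma L3_tendsto : Tendsto L3 atTop atTop := by
  have hA := Aconst_pos (κ := 3/2) (by norm_num)
  exact ((tendsto_rpow_atTop (by norm_num)).comp Real.tendsto_log_atTop).const_mul_atTop hA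

lemma L3_dilate {δ : ℝ} (hδ : 0 < δ) (hδ1 : δ ≤ 1) : ∀ᶠ T : ℝ in atTop, L3 ((1 + δ) * T) ≤ (1 + δ) ^ 3 * L3 T := by
  filter_upwards [Real.tendsto_log_atTop.eventually_ge_atTop (Real.log 2 / δ), eventually_gt_atTop 1] with T h1 hT
  have hl := Real.log_pos hT
  have hA := Aconst_pos (κ := 3/2) (by norm_num)
  have h2 : Real.log ((1 + δ) * T) ≤ (1 + δ) * Real.log T := by
    rw [Real.log_mul (by linarith) (by linarith)]
    have h3 : Real.log (1 + δ) ≤ Real.log 2 := Real.log_le_log (by linarith) (by linarith)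
    rw [div_le_iff₀ hδ] at h1
    linarith
  have h4 : 0 ≤ Real.log ((1 + δ) * T) := Real.log_nonneg (by nlinarith)
  unfold L3
  calc Aconst (3/2) * Real.log ((1 + δ) * T) ^ (9/4:ℝ) ≤ Aconst (3/2) * ((1 + δ) * Real.log T) ^ (9/4:ℝ) := by gcongr
    _ = Aconst (3/2) * ((1 + δ) ^ (9/4:ℝ) * Real.log T ^ (9/4:ℝ)) := by rw [Real.mul_rpow (by linarith) hl.le]
    _ ≤ Aconst (3/2) * ((1 + δ) ^ (3:ℝ) * Real.log T ^ (9/4:ℝ)) := by
        gcongr
        · linarith
        · norm_num
    _ = _ := by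
        rw [show (3:ℝ) = ((3:ℕ):ℝ) by norm_num, Real.rpow_natCast]
        push_cast
        ring

lemma Hw_pos3 {T : ℝ} (hT : 1 < T) : 0 < Hw T := by
  have := Real.log_pos hT
  unfold Hw
  positivity

lemma sqrt_vw3 {T : ℝ} (hT : 1 < T) : √(vw T : ℝ) = Hw T := by
  unfold vw
  rw [Real.coe_toNNReal _ (sq_nonneg _), Real.sqrt_sq (Hw_pos3 hT).le]

lemma mass3 {ρ : ℝ} (hρ : 0 < ρ) {δ : ℝ} (hδ : 0 < δ) : ∀ᶠ S : ℝ in atTop, 
    16 * √(vw S : ℝ) * Real.exp (-(ρ * S) / √(vw S : ℝ)) / (ρ * S) ≤ δ := by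
  have h1 : Tendsto (fun S : ℝ => ρ * (Real.log S) ^ (3/4:ℝ)) atTop atTop :=
    ((tendsto_rpow_atTop (by norm_num)).comp Real.tendsto_log_atTop).const_mul_atTop hρ
  have h2 : Tendsto (fun S : ℝ => 16 / ρ * Real.exp (-(ρ * (Real.log S) ^ (3/4:ℝ)))) atTop (𝓝 0) := by
    have := (Real.tendsto_exp_neg_atTop_nhds_zero.comp h1).const_mul (16 / ρ)
    simpa using this
  filter_upwards [h2.eventually_lt_const hδ, eventually_gt_atTop 1, Real.tendsto_log_atTop.eventually_ge_atTop 1] with S hS hS1 hL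
  have hS0 : 0 < S := by linarith
  rw [sqrt_vw3 hS1]
  have hH := Hw_pos3 hS1
  have hHS : Hw S ≤ S := by
    unfold Hw
    apply div_le_self hS0.le
    exact Real.one_le_rpow hL (by norm_num)
  have e1 : -(ρ * S) / Hw S = -(ρ * (Real.log S) ^ (3/4:ℝ)) := by
    unfold Hw
    have : 0 < (Real.log S) ^ (3/4:ℝ) := by positivity
    field_simp
  rw [e1]
  refine le_trans ?_ hS.le
  rw [div_le_iff₀ (by positivity)]
  have e2 : 16 / ρ * Real.exp (-(ρ * (Real.log S) ^ (3/4:ℝ))) * (ρ * S) = 16 * S * Real.exp (-(ρ * (Real.log S) ^ (3/4:ℝ))) := by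
    field_simp
  rw [e2]
  gcongr

end Pool.Agent.LibNL3
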