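import Pool.Agent.LibNL3.Defs

/-! Third moment near the critical line: from windows to intervals (templates: LibM3.F6 f6_block, LibZM.NC2). -/

set_option autoImplicit false

namespace Pool.Agent.LibNL3

open MeasureTheory Set Filter Topology Complex ProbabilityTheory
open scoped NNReal
open Pool.Agent.LibZM Pool.Agent.LibM3

/-- One block of the upper transfer, for a general function. -/
theorem block_up3 {δ : ℝ} (hδ0 : 0 < δ) (hδ1 : δ < 1/4) :
    ∀ᶠ T : ℝ in atTop, ∀ f : ℝ → ℝ, Continuous f → (∀ t, 0 ≤ f t) → ∀ c : ℝ, 0 ≤ c →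
      (∀ u, δ / 4 * ((1 + δ) * T) ≤ u → u ≤ (1 + δ) * T →
        ∫ t in Icc (δ * T) T, f t ∂(gaussianReal u (vw ((1 + δ) * T))) ≤ c) →
      (1 - δ) * ∫ t in Icc (δ * T) T, f t ≤ c * ((1 + δ) * T) := by
  have hscale : Tendsto (fun T : ℝ => (1 + δ) * T) atTop atTop := tendsto_id.const_mul_atTop (by linarith)
  have k2 := hscale.eventually (mass3 (ρ := δ / (2 * (1 + δ))) (by positivity) hδ0)
  filter_upwards [k2, eventually_gt_atTop 1] with T h2 hT f hfc hf0 c hc0 hcu
  obtain ⟨S, hS⟩ : ∃ S : ℝ, S = (1 + δ) * T := ⟨_, rfl⟩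
  rw [← hS] at h2 hcu ⊢
  have hT0 : 0 < T := by linarith
  have hST : S = T + δ * T := by rw [hS]; ring
  have hδT : 0 < δ * T := by positivity
  have hS1 : 1 < S := by linarith
  have hS0 : 0 < S := by linarith
  obtain ⟨R, hR⟩ : ∃ R : ℝ, R = δ * T / 2 := ⟨_, rfl⟩
  have hR0 : 0 < R := by rw [hR]; positivity
  have hRS : δ / (2 * (1 + δ)) * S = R := by rw [hS, hR]; field_simp
  rw [hRS] at h2
  have hv0 : 0 < vw S := by
    unfold vw
    exact Real.toNNReal_pos.2 (pow_pos (Hw_pos3 hS1) 2)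
  have hεS : δ / 4 * S ≤ δ * T / 2 := by rw [hS]; nlinarith
  have hεS0 : 0 < δ / 4 * S := by positivity
  have hmain : (1 - δ) * ∫ t in Icc (δ * T) T, f t ≤ c * (S - δ / 4 * S) := by
    apply moment_le3 (v := vw S) hv0.ne' hfc hf0 (by nlinarith)
    · intro u hu
      exact hcu u hu.1 hu.2
    · intro t ht
      have hin : Icc (t - R) (t + R) ⊆ Icc (δ / 4 * S) S := by
        apply Icc_subset_Icc
        · linarith [ht.1]
        · linarith [ht.2]
      have s1 : ∫ u in Icc (t - R) (t + R), gaussianPDFReal t (vw S) u ≤ ∫ u in Icc (δ / 4 * S) S, gaussianPDFReal t (vw S) u := by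
        apply setIntegral_mono_set (integrable_gaussianPDFReal t (vw S)).integrableOn _ (LE.le.eventuallyLE hin)
        exact Eventually.of_forall fun u => gaussianPDFReal_nonneg t (vw S) u
      have s3 := mass_in t hv0 hR0
      linarith
  refine hmain.trans ?_
  apply mul_le_mul_of_nonneg_left _ hc0
  linarith

/-- Lower transfer for a general function. -/
theorem block_low3 {ε : ℝ} (hε0 : 0 < ε) (hε1 : ε < 1/4) :
    ∀ᶠ T : ℝ in atTop, ∀ f : ℝ → ℝ, Continuous f → (∀ t, 0 ≤ f t) → ∀ c : ℝ,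
      (∀ u, ε * T ≤ u → u ≤ (1 - ε) * T → c ≤ ∫ t in Icc 0 T, f t ∂(gaussianReal u (vw T))) →
      (1 - 2 * ε) * T * c ≤ ∫ t in Icc 0 T, f t := by
  filter_upwards [eventually_gt_atTop 1] with T hT f hfc hf0 c hcu
  have hT0 : 0 < T := by linarith
  have hv0 : 0 < vw T := by
    unfold vw
    exact Real.toNNReal_pos.2 (pow_pos (Hw_pos3 hT) 2)
  have h := moment_ge (v := vw T) hv0.ne' hfc hf0 (T := T) (R := ε * T) (c := c) (by nlinarith) (fun u h1 h2 => hcu u h1 (by linarith))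
  calc (1 - 2 * ε) * T * c = (T - 2 * (ε * T)) * c := by ring
    _ ≤ _ := h

end Pool.Agent.LibNL3
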