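import Pool.Agent.LibNL3.Defs

/-! Third moment near the critical line: the diagonal sums (templates: LibZM.HB7 DD_tendsto, LibZM.NC3). -/

set_option autoImplicit false

namespace Pool.Agent.LibNL3

open MeasureTheory Set Filter Topology Complex ProbabilityTheory
open scoped NNReal
open Pool.Agent.LibZM Pool.Agent.LibM3

lemma D3_nonneg (N : ℕ) (d : ℝ) : 0 ≤ D3 N d := Finset.sum_nonneg fun n _ => by positivity

lemma one_le_D3 {N : ℕ} (hN : 1 ≤ N) (d : ℝ) : 1 ≤ D3 N d := by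
  unfold D3
  have h1 : (1:ℕ) ∈ Finset.Icc 1 N := Finset.mem_Icc.mpr ⟨le_rfl, hN⟩
  have h2 := Finset.single_le_sum (f := fun n : ℕ => tau (3/2) n ^ 2 * (n:ℝ) ^ (-(1 + 2 * d)))
    (fun n _ => by positivity) h1
  refine le_trans (le_of_eq ?_) h2
  have h3 : tau (3/2) 1 = 1 := (tau_isMultiplicative _).1
  rw [h3]
  simp

lemma D3_mono {M N : ℕ} (h : M ≤ N) (d : ℝ) : D3 M d ≤ D3 N d := by
  unfold D3
  apply Finset.sum_le_sum_of_subset_of_nonneg (Finset.Icc_subset_Icc_right h)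
  intro n _ _
  positivity

lemma one_le_S3 {T : ℝ} (hT : 1 ≤ T) (d : ℝ) : 1 ≤ S3 T d :=
  one_le_D3 (Nat.le_floor (by simpa using hT)) _

lemma S3_mono {S T : ℝ} (h : S ≤ T) (d : ℝ) : S3 S d ≤ S3 T d :=
  D3_mono (Nat.floor_le_floor h) d

lemma D3_NT_le_S3 {θ : ℝ} (hθ : θ ≤ 1) {T : ℝ} (hT : 1 ≤ T) (d : ℝ) : D3 (NT θ T) d ≤ S3 T d := by
  apply D3_mono
  apply Nat.floor_le_floor
  calc T ^ θ ≤ T ^ (1:ℝ) := Real.rpow_le_rpow_of_exponent_le hT hθ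
    _ = T := Real.rpow_one T

/-- Asymptotics of the diagonal on lines close to the critical line. -/
theorem D3_tendsto (σ : ℝ) {θ : ℝ} (hθ0 : 0 < θ) :
    Tendsto (fun T => D3 (NT θ T) (σ / Real.log T) / L3 T) atTop (𝓝 (Pint (9/4) σ θ)) := by
  have hA := Aconst_pos (κ := 3/2) (by norm_num)
  have e : ∀ (s : ℝ) (n : ℕ), tau (3/2) n ^ 2 * (n:ℝ)⁻¹ * (n:ℝ) ^ (-s) = tau (3/2) n ^ 2 * (n:ℝ) ^ (-(1+s)) := by
    intro s n
    rcases Nat.eq_zero_or_pos n with rfl | hn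
    · simp
    · have : (0:ℝ) < n := by exact_mod_cast hn
      rw [mul_assoc, ← Real.rpow_neg_one, ← Real.rpow_add this]
      congr 2; ring
  have hsum : ∀ s : ℝ, 0 < s → Summable fun n : ℕ => tau (3/2) n ^ 2 * (n:ℝ)⁻¹ * (n:ℝ) ^ (-s) := by
    intro s hs
    simp_rw [e]
    exact summable_tau_sq (by norm_num) (by linarith)
  have hlim : Tendsto (fun s : ℝ => s ^ (9/4:ℝ) * ∑' n : ℕ, tau (3/2) n ^ 2 * (n:ℝ)⁻¹ * (n:ℝ) ^ (-s)) (𝓝[>] 0) (𝓝 (Aconst (3/2))) := by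
    have h := tendsto_tau_sq (κ := 3/2) (by norm_num)
    simp_rw [e]
    have : ((3:ℝ)/2) ^ 2 = 9/4 := by norm_num
    rw [this] at h
    exact h
  have hDD : ∀ T : ℝ, 1 < T → D3 (NT θ T) (σ / Real.log T) =
      ∑ n ∈ Finset.Icc 1 ⌊T ^ θ⌋₊, (tau (3/2) n ^ 2 * (n:ℝ)⁻¹) * (n:ℝ) ^ (-(2 * σ / Real.log T)) := by
    intro T hT
    unfold D3 NT
    refine Finset.sum_congr rfl fun n hn => ?_
    rw [e]
    congr 2
    ring
  rw [tendsto_order]
  constructor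
  · intro c hc
    obtain ⟨c', hc1, hc2⟩ := exists_between hc
    have h := sum_exp_lower (w := fun n => tau (3/2) n ^ 2 * (n:ℝ)⁻¹) (fun n => by positivity) (by norm_num : (0:ℝ) < 9/4) hA hsum hlim σ hθ0
      (c := c' * Aconst (3/2)) (by rw [mul_comm]; exact mul_lt_mul_of_pos_left hc2 hA)
    filter_upwards [h, eventually_gt_atTop 1] with T h1 hT
    rw [← hDD T hT] at h1
    refine hc1.trans_le ?_
    rw [le_div_iff₀ (L3_pos hT)]
    unfold L3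
    linarith
  · intro c hc
    obtain ⟨c', hc1, hc2⟩ := exists_between hc
    have h := sum_exp_upper (w := fun n => tau (3/2) n ^ 2 * (n:ℝ)⁻¹) (fun n => by positivity) (by norm_num : (0:ℝ) < 9/4) hA hsum hlim σ hθ0
      (c := c' * Aconst (3/2)) (by rw [mul_comm c']; exact mul_lt_mul_of_pos_left hc1 hA)
    filter_upwards [h, eventually_gt_atTop 1] with T h1 hT
    rw [← hDD T hT] at h1
    refine lt_of_le_of_lt ?_ hc2
    rw [div_le_iff₀ (L3_pos hT)]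
    unfold L3
    linarith

/-- The part of the diagonal above a threshold decays in `d`. -/
lemma D3_sub_le {M N : ℕ} (h : M ≤ N) {X : ℝ} (hX : 0 < X) (hXM : ∀ n : ℕ, M < n → X ≤ n) {d : ℝ} (hd : 0 ≤ d) :
    D3 N d - D3 M d ≤ X ^ (-(2 * d)) * (D3 N 0 - D3 M 0) := by
  have hsub : Finset.Icc 1 M ⊆ Finset.Icc 1 N := Finset.Icc_subset_Icc_right h
  have hsd : ∀ d : ℝ, D3 N d - D3 M d = ∑ n ∈ Finset.Icc 1 N \ Finset.Icc 1 M, tau (3/2) n ^ 2 * (n:ℝ) ^ (-(1 + 2 * d)) := by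
    intro d
    have := Finset.sum_sdiff (f := fun n : ℕ => tau (3/2) n ^ 2 * (n:ℝ) ^ (-(1 + 2 * d))) hsub
    unfold D3
    linarith
  rw [hsd, hsd, Finset.mul_sum]
  refine Finset.sum_le_sum fun n hn => ?_
  rw [Finset.mem_sdiff, Finset.mem_Icc, Finset.mem_Icc] at hn
  have hn1 : 1 ≤ n := hn.1.1
  have hn0 : (0:ℝ) < n := by exact_mod_cast hn1
  have hn2 : M < n := by
    by_contra hcon
    push Not at hcon
    exact hn.2 ⟨hn1, hcon⟩
  have hn3 : X ≤ n := hXM n hn2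
  have h4 : (n:ℝ) ^ (-(1 + 2 * d)) = (n:ℝ) ^ (-(2 * d)) * (n:ℝ) ^ (-(1 + 2 * (0:ℝ))) := by
    rw [← Real.rpow_add hn0]; congr 1; ring
  rw [h4]
  have h5 : (n:ℝ) ^ (-(2 * d)) ≤ X ^ (-(2 * d)) :=
    Real.rpow_le_rpow_of_nonpos hX hn3 (by linarith)
  calc tau (3/2) n ^ 2 * ((n:ℝ) ^ (-(2 * d)) * (n:ℝ) ^ (-(1 + 2 * (0:ℝ))))
      = (n:ℝ) ^ (-(2 * d)) * (tau (3/2) n ^ 2 * (n:ℝ) ^ (-(1 + 2 * (0:ℝ)))) := by ring
    _ ≤ _ := by gcongr

/-- Comparison of the two truncations of the main term. -/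
theorem S3_le_D3 {η : ℝ} (hη : 0 < η) : ∀ᶠ θ : ℝ in 𝓝[<] (1:ℝ), ∀ᶠ T : ℝ in atTop, ∀ d : ℝ, 0 ≤ d →
    S3 T d ≤ D3 (NT θ T) d + η * (L3 T * Real.exp (-(2 * θ * d * Real.log T))) := by
  have hP : ContinuousAt (fun l : ℝ => Pint (9/4) 0 l) 1 := by
    have h := continuousAt_Pint (α := 9/4) (by norm_num) 0 (θ := 1)
    simpa using h
  have hc : ∀ᶠ θ : ℝ in 𝓝[<] (1:ℝ), Pint (9/4) 0 1 - η / 4 < Pint (9/4) 0 θ := by
    apply Filter.Eventually.filter_mono nhdsWithin_le_nhds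
    exact hP.eventually_const_lt (by linarith)
  have hpos : ∀ᶠ θ : ℝ in 𝓝[<] (1:ℝ), 0 < θ := by
    apply Filter.Eventually.filter_mono nhdsWithin_le_nhds
    exact lt_mem_nhds one_pos
  filter_upwards [hc, hpos, self_mem_nhdsWithin] with θ h1 h2 hθ
  rw [mem_Iio] at hθ
  have t1 := (D3_tendsto 0 (θ := 1) one_pos).eventually_lt_const (u := Pint (9/4) 0 1 + η / 4) (by linarith)
  have t2 := (D3_tendsto 0 (θ := θ) h2).eventually_const_lt (u := Pint (9/4) 0 θ - η / 4) (by linarith)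
  filter_upwards [t1, t2, eventually_gt_atTop 1] with T a1 a2 hT d hd
  have hL := L3_pos hT
  have hT0 : 0 < T := by linarith
  rw [zero_div, div_lt_iff₀ hL] at a1
  rw [zero_div, lt_div_iff₀ hL] at a2
  have hN1 : NT 1 T = ⌊T⌋₊ := by unfold NT; rw [Real.rpow_one]
  rw [hN1] at a1
  have hdiff0 : D3 ⌊T⌋₊ 0 - D3 (NT θ T) 0 ≤ η * L3 T := by nlinarith
  have hle : NT θ T ≤ ⌊T⌋₊ := by
    apply Nat.floor_le_floor
    calc T ^ θ ≤ T ^ (1:ℝ) := Real.rpow_le_rpow_of_exponent_le hT.le hθ.le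
      _ = T := Real.rpow_one T
  have hE : Real.exp (-(2 * θ * d * Real.log T)) = (T ^ θ) ^ (-(2 * d)) := by
    rw [← Real.rpow_mul hT0.le, Real.rpow_def_of_pos hT0]
    congr 1; ring
  have hkey := D3_sub_le hle (X := T ^ θ) (by positivity) (fun n hn => ((Nat.floor_lt (by positivity)).mp hn).le) hd
  rw [hE]
  have h6 : 0 ≤ (T ^ θ) ^ (-(2 * d)) := by positivity
  have h8 := mul_le_mul_of_nonneg_left hdiff0 h6
  have e1 : S3 T d = D3 ⌊T⌋₊ d := rfl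
  rw [e1]
  linarith

lemma L3_ratio_tendsto {δ : ℝ} (hδ : 0 < δ) : Tendsto (fun T : ℝ => L3 ((1 + δ) * T) / L3 T) atTop (𝓝 1) := by
  have h1 : Tendsto (fun T : ℝ => 1 + Real.log (1 + δ) * (Real.log T)⁻¹) atTop (𝓝 (1 + Real.log (1 + δ) * 0)) :=
    ((tendsto_inv_atTop_zero.comp Real.tendsto_log_atTop).const_mul _).const_add 1
  rw [mul_zero, add_zero] at h1
  have h2 : Tendsto (fun T : ℝ => (1 + Real.log (1 + δ) * (Real.log T)⁻¹) ^ (9/4:ℝ)) atTop (𝓝 ((1:ℝ) ^ (9/4:ℝ))) :=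
    h1.rpow_const (Or.inl one_ne_zero)
  rw [Real.one_rpow] at h2
  refine h2.congr' ?_
  filter_upwards [eventually_gt_atTop 1] with T hT
  have hl := Real.log_pos hT
  have hA := Aconst_pos (κ := 3/2) (by norm_num)
  have h3 : 0 < Real.log (1 + δ) := Real.log_pos (by linarith)
  have h4 : Real.log ((1 + δ) * T) = (1 + Real.log (1 + δ) * (Real.log T)⁻¹) * Real.log T := by
    rw [Real.log_mul (by linarith) (by linarith)]
    field_simp
    ring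
  unfold L3
  rw [h4, Real.mul_rpow (by positivity) hl.le]
  have h5 : 0 < Real.log T ^ (9/4:ℝ) := by positivity
  field_simp

/-- Dilation of the main term. -/
theorem S3_dilate {δ η : ℝ} (hδ : 0 < δ) (hδ1 : δ ≤ 1) (hη : 0 < η) : ∀ᶠ T : ℝ in atTop, ∀ d : ℝ, 0 ≤ d →
    S3 ((1 + δ) * T) d ≤ S3 T d + η * (L3 T * Real.exp (-(2 * d * Real.log T))) := by
  have hN1 : ∀ T : ℝ, NT 1 T = ⌊T⌋₊ := by
    intro T; unfold NT; rw [Real.rpow_one]
  have hbase : Tendsto (fun T : ℝ => S3 T 0 / L3 T) atTop (𝓝 (Pint (9/4) 0 1)) := by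
    have := D3_tendsto 0 (θ := 1) one_pos
    refine this.congr fun T => ?_
    rw [hN1, zero_div]
    rfl
  have hmul : Tendsto (fun T : ℝ => (1 + δ) * T) atTop atTop :=
    tendsto_id.const_mul_atTop (by linarith)
  have h1 : Tendsto (fun T : ℝ => S3 ((1 + δ) * T) 0 / L3 ((1 + δ) * T) * (L3 ((1 + δ) * T) / L3 T)) atTop
      (𝓝 (Pint (9/4) 0 1 * 1)) := (hbase.comp hmul).mul (L3_ratio_tendsto hδ)
  have h2 := (h1.sub hbase)
  rw [mul_one, sub_self] at h2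
  filter_upwards [h2.eventually_lt_const hη, eventually_gt_atTop 1] with T h3 hT d hd
  have hT0 : 0 < T := by linarith
  have hL := L3_pos hT
  have hL2 : 0 < L3 ((1 + δ) * T) := L3_pos (by nlinarith)
  have h4 : S3 ((1 + δ) * T) 0 / L3 ((1 + δ) * T) * (L3 ((1 + δ) * T) / L3 T) = S3 ((1 + δ) * T) 0 / L3 T := by
    field_simp
  rw [h4, ← sub_div, div_lt_iff₀ hL] at h3
  have hle : ⌊T⌋₊ ≤ ⌊(1 + δ) * T⌋₊ := Nat.floor_le_floor (by nlinarith)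
  have hkey := D3_sub_le hle (X := T) hT0 (fun n hn => ((Nat.floor_lt hT0.le).mp hn).le) hd
  have hE : Real.exp (-(2 * d * Real.log T)) = T ^ (-(2 * d)) := by
    rw [Real.rpow_def_of_pos hT0]
    congr 1; ring
  rw [hE]
  have h6 : 0 ≤ T ^ (-(2 * d)) := by positivity
  have h7 : D3 ⌊(1 + δ) * T⌋₊ 0 - D3 ⌊T⌋₊ 0 ≤ η * L3 T := h3.le
  have h8 := mul_le_mul_of_nonneg_left h7 h6
  have e1 : S3 T d = D3 ⌊T⌋₊ d := rfl
  have e2 : S3 ((1 + δ) * T) d = D3 ⌊(1 + δ) * T⌋₊ d := rfl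
  rw [e1, e2]
  linarith

end Pool.Agent.LibNL3
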