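import Pool.Agent.LibNL3.Defs

/-! Third moment near the critical line: tails of the Gaussian windows. -/

set_option autoImplicit false

namespace Pool.Agent.LibNL3

open MeasureTheory Set Filter Topology Complex ProbabilityTheory
open scoped NNReal
open Pool.Agent.LibZM Pool.Agent.LibM3

/-- Pointwise bound of a polynomial weight by an exponential centred at `u`, with scale `H`. -/
lemma pow_weight_le (m : ℕ) (u : ℝ) {H : ℝ} (hH : 0 < H) (t : ℝ) : 
    (1 + |t|) ^ m ≤ (1 + |u|) ^ m * (1 + H) ^ m * ((m.factorial : ℝ) * Real.exp 1) * Real.exp (1 / H * |t - u|) := by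
  have h1 : |t| ≤ |u| + |t - u| := by
    have := abs_add_le u (t - u)
    rwa [add_sub_cancel] at this
  have h0 : 0 ≤ |t - u| / H := by positivity
  have h2 : 1 + |t| ≤ (1 + |u|) * ((1 + H) * (1 + |t - u| / H)) := by
    have e1 : |t - u| = H * (|t - u| / H) := by field_simp
    have hu := abs_nonneg u
    have h3 : 1 + |t - u| ≤ (1 + H) * (1 + |t - u| / H) := by nlinarith
    have h4 : 1 + |t| ≤ (1 + |u|) * (1 + |t - u|) := by
      have := abs_nonneg (t - u)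
      nlinarith
    refine h4.trans ?_
    gcongr
  have h3 : (1 + |t - u| / H) ^ m ≤ (m.factorial : ℝ) * Real.exp 1 * Real.exp (1 / H * |t - u|) := by
    have := pow_le_fact_exp (x := 1 + |t - u| / H) (by linarith) m
    rw [Real.exp_add] at this
    have e : |t - u| / H = 1 / H * |t - u| := by ring
    rw [← mul_assoc] at this
    rw [← e]
    exact this
  calc (1 + |t|) ^ m ≤ ((1 + |u|) * ((1 + H) * (1 + |t - u| / H))) ^ m := by gcongr
    _ = (1 + |u|) ^ m * (1 + H) ^ m * (1 + |t - u| / H) ^ m := by rw [mul_pow, mul_pow]; ring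
    _ ≤ (1 + |u|) ^ m * (1 + H) ^ m * ((m.factorial : ℝ) * Real.exp 1 * Real.exp (1 / H * |t - u|)) := by gcongr
    _ = _ := by ring

lemma integrable_pow_gauss (m : ℕ) (u : ℝ) (v : ℝ≥0) :
    Integrable (fun t : ℝ => (1 + |t|) ^ m) (gaussianReal u v) := by
  have hi := ((gauss_exp_abs u (v := v) (1 / 1)).1).const_mul ((1 + |u|) ^ m * (1 + 1) ^ m * ((m.factorial : ℝ) * Real.exp 1))
  refine Integrable.mono' hi ?_ (Eventually.of_forall fun t => ?_)
  · exact Continuous.aestronglyMeasurable (by fun_prop)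
  · rw [Real.norm_eq_abs, abs_of_nonneg (by positivity)]
    exact pow_weight_le m u one_pos t

lemma Hw_le3 {T : ℝ} (hT : Real.exp 1 ≤ T) : Hw T ≤ T := by
  have he := Real.exp_pos 1
  have hT0 : 0 < T := by linarith
  have hl : 1 ≤ Real.log T := by
    have := Real.log_le_log he hT
    rwa [Real.log_exp] at this
  unfold Hw
  apply div_le_self hT0.le
  exact Real.one_le_rpow hl (by norm_num)

lemma tail_bound (m : ℕ) {u : ℝ} (hu : 0 ≤ u) {v : ℝ≥0} {H : ℝ} (hH : 0 < H) (hv : (v:ℝ) = H ^ 2) (δ μ : ℝ) (hμ : 0 ≤ μ) : 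
    ∫ t in {t : ℝ | δ * u < |t - u|}, (1 + |t|) ^ m ∂(gaussianReal u v) ≤ 
      (1 + u) ^ m * (1 + H) ^ m * ((m.factorial : ℝ) * Real.exp 1) * (2 * Real.exp ((μ + 1) ^ 2 / 2 - μ * (δ * u / H))) := by
  obtain ⟨K, hK⟩ : ∃ K : ℝ, K = (1 + u) ^ m * (1 + H) ^ m * ((m.factorial : ℝ) * Real.exp 1) := ⟨_, rfl⟩
  have hK0 : 0 ≤ K := by rw [hK]; positivity
  have hms : MeasurableSet {t : ℝ | δ * u < |t - u|} := 
    (isOpen_lt continuous_const (by fun_prop)).measurableSet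
  obtain ⟨hi, hb⟩ := gauss_exp_abs u (v := v) ((μ + 1) / H)
  have hi2 := hi.const_mul (K * Real.exp (-(μ * (δ * u / H))))
  have hpt : ∀ t : ℝ, {t : ℝ | δ * u < |t - u|}.indicator (fun t => (1 + |t|) ^ m) t ≤ 
      K * Real.exp (-(μ * (δ * u / H))) * Real.exp ((μ + 1) / H * |t - u|) := by
    intro t
    by_cases ht : t ∈ {t : ℝ | δ * u < |t - u|}
    · rw [indicator_of_mem ht]
      have ht' : δ * u < |t - u| := ht
      have h1 := pow_weight_le m u hH t
      rw [abs_of_nonneg hu, ← hK] at h1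
      refine h1.trans ?_
      have h2 : Real.exp (1 / H * |t - u|) ≤ Real.exp (-(μ * (δ * u / H))) * Real.exp ((μ + 1) / H * |t - u|) := by
        rw [← Real.exp_add]
        apply Real.exp_le_exp.mpr
        have h3 : μ * (δ * u / H) ≤ μ * (|t - u| / H) := by gcongr
        have e : (μ + 1) / H * |t - u| = μ * (|t - u| / H) + 1 / H * |t - u| := by ring
        rw [e]; linarith
      calc K * Real.exp (1 / H * |t - u|) ≤ K * (Real.exp (-(μ * (δ * u / H))) * Real.exp ((μ + 1) / H * |t - u|)) := by gcongr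
        _ = _ := by ring
    · rw [indicator_of_notMem ht]; positivity
  rw [← integral_indicator hms]
  have h1 := integral_mono ((integrable_pow_gauss m u v).indicator hms) hi2 hpt
  rw [integral_const_mul] at h1
  refine h1.trans ?_
  have e1 : (v:ℝ) * ((μ + 1) / H) ^ 2 / 2 = (μ + 1) ^ 2 / 2 := by rw [hv]; field_simp
  rw [e1] at hb
  calc K * Real.exp (-(μ * (δ * u / H))) * ∫ t, Real.exp ((μ + 1) / H * |t - u|) ∂(gaussianReal u v) 
      ≤ K * Real.exp (-(μ * (δ * u / H))) * (2 * Real.exp ((μ + 1) ^ 2 / 2)) := by gcongr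
    _ = K * (2 * (Real.exp ((μ + 1) ^ 2 / 2) * Real.exp (-(μ * (δ * u / H))))) := by ring
    _ = _ := by rw [← Real.exp_add, hK, ← sub_eq_add_neg]

/-- Outside `|t - u| ≤ δ u` the window has less mass than any power of `T`, even with a polynomial weight. -/
theorem tail_small {ε δ : ℝ} (hε : 0 < ε) (hδ : 0 < δ) (m A : ℕ) : ∀ᶠ p : ℝ × ℝ in Fl ε,
    ∫ t in {t : ℝ | δ * p.2 < |t - p.2|}, (1 + |t|) ^ m ∂(gaussianReal p.2 (vw p.1)) ≤ (p.1 ^ A)⁻¹ := by
  obtain ⟨a, ha⟩ : ∃ a : ℝ, a = δ * ε := ⟨_, rfl⟩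
  have ha0 : 0 < a := by rw [ha]; positivity
  obtain ⟨B, hB⟩ : ∃ B : ℝ, B = 4 * m + A + 1 := ⟨_, rfl⟩
  have hB0 : 0 < B := by rw [hB]; positivity
  obtain ⟨K, hK⟩ : ∃ K : ℝ, K = 2 * ((m.factorial : ℝ) * Real.exp 1) := ⟨_, rfl⟩
  have hK0 : 0 < K := by rw [hK]; positivity
  have k1 : ∀ᶠ T : ℝ in atTop, 4 / a ≤ (Real.log T) ^ (3/4:ℝ) := 
    ((tendsto_rpow_atTop (by norm_num)).comp Real.tendsto_log_atTop).eventually_ge_atTop _
  have k2 : ∀ᶠ T : ℝ in atTop, 4 * B / a ^ 2 ≤ (Real.log T) ^ (1/2:ℝ) := 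
    ((tendsto_rpow_atTop (by norm_num)).comp Real.tendsto_log_atTop).eventually_ge_atTop _
  have k3 : ∀ᶠ T : ℝ in atTop, Real.log K + 1/2 ≤ Real.log T := Real.tendsto_log_atTop.eventually_ge_atTop _
  filter_upwards [(Fl_fst ε).eventually k1, (Fl_fst ε).eventually k2, (Fl_fst ε).eventually k3, 
    (Fl_fst ε).eventually (eventually_ge_atTop (Real.exp 1)), (Fl_fst ε).eventually (eventually_ge_atTop 2), Fl_pos hε, Fl_range ε] 
  rintro ⟨T, u⟩ h1 h2 h3 h4 h5 hp hr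
  dsimp only at h1 h2 h3 h4 h5 hp hr ⊢
  have hT1 : 1 < T := hp.1
  have hT0 : 0 < T := by linarith
  have hu0 : 0 < u := by linarith [hp.2]
  have hl := Real.log_pos hT1
  have hH := Hw_pos3 hT1
  have hHT := Hw_le3 h4
  obtain ⟨l, hl'⟩ : ∃ l : ℝ, l = (Real.log T) ^ (3/4:ℝ) := ⟨_, rfl⟩
  rw [← hl'] at h1
  have hl0 : 0 < l := by rw [hl']; positivity
  have hl2 : l ^ 2 = Real.log T * (Real.log T) ^ (1/2:ℝ) := by
    rw [hl', ← Real.rpow_natCast, ← Real.rpow_mul hl.le]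
    nth_rewrite 2 [← Real.rpow_one (Real.log T)]
    rw [← Real.rpow_add hl]
    norm_num
  have hTH : T / Hw T = l := by
    unfold Hw
    rw [hl']
    field_simp
  have hb := tail_bound m (u := u) hu0.le (v := vw T) hH (Real.coe_toNNReal _ (sq_nonneg _)) δ (a * l) (by positivity)
  refine hb.trans ?_
  -- the exponent
  have h6 : a * l ≤ δ * u / Hw T := by
    have : ε * l ≤ u / Hw T := by
      rw [← hTH, ← mul_div_assoc]
      exact div_le_div_of_nonneg_right hr.1 hH.le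
    calc a * l = δ * (ε * l) := by rw [ha]; ring
      _ ≤ δ * (u / Hw T) := by gcongr
      _ = _ := by ring
  have hal : 4 ≤ a * l := by
    rw [div_le_iff₀ ha0] at h1; linarith
  have h7 : (a * l + 1) ^ 2 / 2 - a * l * (δ * u / Hw T) ≤ -(B * Real.log T) + 1/2 := by
    have e1 : a * l * (a * l) ≤ a * l * (δ * u / Hw T) := by gcongr
    have e2 : B * Real.log T ≤ (a * l) ^ 2 / 4 := by
      rw [div_le_iff₀ (by positivity)] at h2
      have : (a * l) ^ 2 = a ^ 2 * (Real.log T) ^ (1/2:ℝ) * Real.log T := by rw [mul_pow, hl2]; ring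
      rw [this]
      nlinarith
    nlinarith
  have h8 : (1 + u) ^ m * (1 + Hw T) ^ m ≤ T ^ (4 * m) := by
    have e1 : 1 + u ≤ T ^ 2 := by nlinarith [hr.2]
    have e2 : 1 + Hw T ≤ T ^ 2 := by nlinarith
    calc (1 + u) ^ m * (1 + Hw T) ^ m ≤ (T ^ 2) ^ m * (T ^ 2) ^ m := by gcongr
      _ = T ^ (4 * m) := by rw [← pow_mul, ← pow_add]; congr 1; ring
  have hf : (0:ℝ) < (m.factorial : ℝ) * Real.exp 1 := by positivity
  calc (1 + u) ^ m * (1 + Hw T) ^ m * ((m.factorial : ℝ) * Real.exp 1) * (2 * Real.exp ((a * l + 1) ^ 2 / 2 - a * l * (δ * u / Hw T))) 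
      ≤ T ^ (4 * m) * ((m.factorial : ℝ) * Real.exp 1) * (2 * Real.exp (-(B * Real.log T) + 1/2)) := by
        have := Real.exp_le_exp.mpr h7
        gcongr
    _ = T ^ (4 * m) * (K * Real.exp (-(B * Real.log T) + 1/2)) := by rw [hK]; ring
    _ = T ^ (4 * m) * Real.exp (Real.log K + (-(B * Real.log T) + 1/2)) := by
        rw [Real.exp_add (Real.log K), Real.exp_log hK0]
    _ ≤ T ^ (4 * m) * Real.exp (-((4 * m + A : ℕ) * Real.log T)) := by
        apply mul_le_mul_of_nonneg_left _ (by positivity)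
        apply Real.exp_le_exp.mpr
        rw [hB]
        push_cast
        linarith
    _ = T ^ (4 * m) * (T ^ (4 * m + A))⁻¹ := by
        rw [Real.exp_neg, mul_comm ((4 * m + A : ℕ) : ℝ), ← Real.rpow_def_of_pos hT0, Real.rpow_natCast]
    _ = (T ^ A)⁻¹ := by
        rw [pow_add]
        field_simp

/-- The full mass of a polynomial weight. -/
theorem full_mass {ε : ℝ} (hε : 0 < ε) (m : ℕ) {c : ℝ} (hc : 1 < c) : ∀ᶠ p : ℝ × ℝ in Fl ε,
    ∫ t, (1 + |t|) ^ m ∂(gaussianReal p.2 (vw p.1)) ≤ c * p.2 ^ m := by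
  obtain ⟨δ, hδ0, hδ⟩ : ∃ δ : ℝ, 0 < δ ∧ (1 + 2 * δ) ^ m + δ < c := by
    have h1 : ContinuousAt (fun δ : ℝ => (1 + 2 * δ) ^ m + δ) 0 := by fun_prop
    have h2 : ∀ᶠ δ : ℝ in 𝓝 0, (1 + 2 * δ) ^ m + δ < c := h1.eventually_lt_const (by simpa using hc)
    have h3 : ∀ᶠ δ : ℝ in 𝓝[>] 0, (1 + 2 * δ) ^ m + δ < c := h2.filter_mono nhdsWithin_le_nhds
    obtain ⟨δ, a, b⟩ := (h3.and self_mem_nhdsWithin).exists
    exact ⟨δ, b, a⟩
  filter_upwards [tail_small hε hδ0 m 1, (one_div_u hε).eventually_lt_const hδ0, 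
    (Fl_fst ε).eventually (eventually_ge_atTop (1 / δ)), Fl_pos hε] with p h1 h2 h3 hp
  have hT0 : 0 < p.1 := by linarith [hp.1]
  have hu0 : 0 < p.2 := by linarith [hp.2]
  have hms : MeasurableSet {t : ℝ | δ * p.2 < |t - p.2|} := 
    (isOpen_lt continuous_const (by fun_prop)).measurableSet
  have hi := integrable_pow_gauss m p.2 (vw p.1)
  rw [← integral_add_compl hms hi]
  have h4 : ∫ t in {t : ℝ | δ * p.2 < |t - p.2|}ᶜ, (1 + |t|) ^ m ∂(gaussianReal p.2 (vw p.1)) ≤ (1 + 2 * δ) ^ m * p.2 ^ m := by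
    have e1 : ∫ t in {t : ℝ | δ * p.2 < |t - p.2|}ᶜ, (1 + |t|) ^ m ∂(gaussianReal p.2 (vw p.1)) ≤ 
        ∫ t in {t : ℝ | δ * p.2 < |t - p.2|}ᶜ, ((1 + 2 * δ) ^ m * p.2 ^ m) ∂(gaussianReal p.2 (vw p.1)) := by
      refine setIntegral_mono_on hi.integrableOn (integrable_const _).integrableOn hms.compl fun t ht => ?_
      have ht' : |t - p.2| ≤ δ * p.2 := by
        by_contra hcon
        push Not at hcon
        exact ht hcon
      rw [← mul_pow]
      have e2 : |t| ≤ p.2 + δ * p.2 := by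
        have := abs_add_le p.2 (t - p.2)
        rw [add_sub_cancel, abs_of_pos hu0] at this
        linarith
      have e3 : 1 ≤ δ * p.2 := by
        rw [div_lt_iff₀ hu0] at h2; exact h2.le
      have e4 : 1 + |t| ≤ (1 + 2 * δ) * p.2 := by linarith
      gcongr
    refine e1.trans ?_
    rw [setIntegral_const, smul_eq_mul]
    have e5 : (gaussianReal p.2 (vw p.1)).real {t : ℝ | δ * p.2 < |t - p.2|}ᶜ ≤ 1 := measureReal_le_one
    calc _ ≤ 1 * ((1 + 2 * δ) ^ m * p.2 ^ m) := by gcongr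
      _ = _ := one_mul _
  have h5 : (p.1 ^ 1)⁻¹ ≤ δ := by
    rw [pow_one, inv_le_comm₀ hT0 hδ0, ← one_div]
    exact h3
  have h6 : 1 ≤ p.2 ^ m := one_le_pow₀ hp.2.le
  calc _ ≤ δ + (1 + 2 * δ) ^ m * p.2 ^ m := add_le_add (h1.trans h5) h4
    _ ≤ δ * p.2 ^ m + (1 + 2 * δ) ^ m * p.2 ^ m := by nlinarith
    _ = ((1 + 2 * δ) ^ m + δ) * p.2 ^ m := by ring
    _ ≤ c * p.2 ^ m := by gcongr

end Pool.Agent.LibNL3
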