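import Pool.Agent.LibNL3.Poly
import Pool.Agent.LibNL3.Tail
import Pool.Agent.LibNL3.Sums

/-! Third moment near the critical line: the polynomial part on Gaussian windows (template: LibZM.NC1 nc_q). -/

set_option autoImplicit false

namespace Pool.Agent.LibNL3

open MeasureTheory Set Filter Topology Complex ProbabilityTheory
open scoped NNReal
open Pool.Agent.LibZM Pool.Agent.LibM3

private lemma qw_log {θ : ℝ} (hθ : θ < 1) : ∀ᶠ T : ℝ in atTop, Real.log T ^ (3/4 : ℝ) ≤ T ^ ((1 - θ) / 2) := by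
  have h1 : (0:ℝ) < (1 - θ) * (2/3) := by nlinarith
  have h := (isLittleO_log_rpow_atTop h1).bound (one_pos)
  filter_upwards [h, eventually_ge_atTop 1] with T hT hT1
  have hl := Real.log_nonneg hT1
  have hT0 : 0 < T := by linarith
  rw [Real.norm_of_nonneg hl, Real.norm_of_nonneg (by positivity), one_mul] at hT
  calc Real.log T ^ (3/4 : ℝ) ≤ (T ^ ((1 - θ) * (2/3))) ^ (3/4 : ℝ) := Real.rpow_le_rpow hl hT (by norm_num)
    _ = T ^ ((1 - θ) / 2) := by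
        rw [← Real.rpow_mul hT0.le]
        congr 1; ring

private lemma qw_vT_le {θ : ℝ} (hθ : θ < 1) : ∀ᶠ T : ℝ in atTop, vT θ T ≤ vw T := by
  filter_upwards [qw_log hθ, eventually_gt_atTop 1] with T hT hT1
  have hT0 : 0 < T := by linarith
  have hl := Real.log_pos hT1
  unfold vT vw
  apply Real.toNNReal_le_toNNReal
  have h1 : HT θ T ≤ Hw T := by
    unfold HT Hw
    rw [le_div_iff₀ (by positivity)]
    calc T ^ ((1 + θ) / 2) * Real.log T ^ (3/4 : ℝ) ≤ T ^ ((1 + θ) / 2) * T ^ ((1 - θ) / 2) := by gcongr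
      _ = T := by
          rw [← Real.rpow_add hT0]
          rw [show (1 + θ) / 2 + (1 - θ) / 2 = 1 by ring, Real.rpow_one]
  exact pow_le_pow_left₀ (HT_pos θ hT0).le h1 2

private noncomputable def qe (N : ℕ) (v : ℝ≥0) : ℝ := 3 * (N:ℝ) ^ 2 * Real.exp (-v / (16 * (N:ℝ) ^ 2)) * (N:ℝ) ^ 6

private lemma qe_nonneg (N : ℕ) (v : ℝ≥0) : 0 ≤ qe N v := by unfold qe; positivity

private lemma qe_tendsto {θ : ℝ} (hθ0 : 0 < θ) (hθ : θ < 1) : Tendsto (fun T => qe (NT θ T) (vw T)) atTop (𝓝 0) := by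
  have h := (lim_exp_nat (by norm_num : (0:ℝ) < 1/16) (by linarith : 0 < 1 - θ) 8).const_mul 3
  rw [mul_zero] at h
  refine squeeze_zero' (Eventually.of_forall fun T => qe_nonneg _ _) ?_ h
  filter_upwards [eventually_ge_atTop 1, qw_vT_le hθ] with T hT hv
  have hT0 : 0 < T := by linarith
  have hN1 : (1:ℝ) ≤ NT θ T := by exact_mod_cast one_le_NT hθ0.le hT
  have hN := NT_le hθ.le hT
  have hv' : (vT θ T : ℝ) ≤ vw T := by exact_mod_cast hv
  have hexp : Real.exp (-(vw T : ℝ) / (16 * (NT θ T : ℝ) ^ 2)) ≤ Real.exp (-(1/16 * T ^ (1 - θ))) := by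
    apply Real.exp_le_exp.mpr
    rw [neg_div, neg_le_neg_iff, le_div_iff₀ (by positivity)]
    refine le_trans ?_ hv'
    rw [vT_coe, HT_sq hT0]
    have h4 : (NT θ T : ℝ) ^ 2 ≤ (T ^ θ) ^ 2 := by
      have := NT_le_rpow θ hT0
      gcongr
    have h5 : 0 ≤ T ^ (1 - θ) := by positivity
    nlinarith
  unfold qe
  calc 3 * (NT θ T : ℝ) ^ 2 * Real.exp (-(vw T : ℝ) / (16 * (NT θ T : ℝ) ^ 2)) * (NT θ T : ℝ) ^ 6
      ≤ 3 * T ^ 2 * Real.exp (-(1/16 * T ^ (1 - θ))) * T ^ 6 := by gcongr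
    _ = 3 * (T ^ 8 * Real.exp (-(1/16 * T ^ (1 - θ)))) := by ring

private lemma q3_bounds {u : ℝ} (hu : 0 < u) {v : ℝ≥0} (hv : 4 ≤ v) (N : ℕ) {d : ℝ} (hd0 : 0 ≤ d) (hd1 : d ≤ 1/4)
    {δ : ℝ} (hδ0 : 0 < δ) (hδ1 : δ < 1) {τ : ℝ}
    (hτ : ∫ t in {t : ℝ | δ * u < |t - u|}, (1 + |t|) ^ 3 ∂(gaussianReal u v) ≤ τ) :
    En (Q3 N) u v (1/2 + d) ≤ (1 + u + δ * u) ^ 3 * (D3 N d + qe N v) + (N:ℝ) ^ 4 * τ ∧
    ((1 - δ) * u) ^ 3 * (D3 N d - qe N v - (N:ℝ) ^ 4 * τ) ≤ En (Q3 N) u v (1/2 + d) := by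
  obtain ⟨x, hx⟩ : ∃ x : ℝ, x = 1/2 + d := ⟨_, rfl⟩
  have hx0 : 1/4 ≤ x := by linarith
  have hx1 : x ≤ 7/4 := by linarith
  have hms := meanSq_P3 u hv N hd0
  rw [← hx] at hms ⊢
  change |_ - _| ≤ qe N v at hms
  obtain ⟨A, hA⟩ : ∃ A : Set ℝ, A = {t : ℝ | δ * u < |t - u|} := ⟨_, rfl⟩
  rw [← hA] at hτ
  have hAm : MeasurableSet A := by
    rw [hA]
    exact measurableSet_lt measurable_const ((measurable_id.sub_const u).norm)
  have hpw := integrable_pow_gauss 3 u v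
  have hPc : Continuous (fun t : ℝ => ‖P3 N (x + t * I)‖ ^ 2) := by
    have := (differentiable_P3 N).continuous
    fun_prop
  have hPb : ∀ t : ℝ, ‖P3 N (x + t * I)‖ ^ 2 ≤ (N:ℝ) ^ 4 := by
    intro t
    have h1 := norm_P3_line_le (N := N) (x := x) (by linarith) t
    calc ‖P3 N (x + t * I)‖ ^ 2 ≤ ((N:ℝ) ^ 2) ^ 2 := by gcongr
      _ = (N:ℝ) ^ 4 := by ring
  have hP0 : ∀ t : ℝ, 0 ≤ ‖P3 N (x + t * I)‖ ^ 2 := fun t => by positivity
  have hPi : Integrable (fun t : ℝ => ‖P3 N (x + t * I)‖ ^ 2) (gaussianReal u v) := by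
    refine Integrable.mono' (g := fun _ => (N:ℝ) ^ 4) (integrable_const _) hPc.aestronglyMeasurable
      (Eventually.of_forall fun t => ?_)
    rw [Real.norm_eq_abs, abs_of_nonneg (hP0 t)]
    exact hPb t
  have hQe : ∀ t : ℝ, ‖Q3 N (x + t * I)‖ = ‖(x:ℂ) + t * I - 1‖ ^ 3 * ‖P3 N (x + t * I)‖ ^ 2 := by
    intro t
    unfold Q3
    rw [norm_mul, norm_pow, norm_pow]
  have hQb : ∀ t : ℝ, ‖Q3 N (x + t * I)‖ ≤ (N:ℝ) ^ 4 * (1 + |t|) ^ 3 := by
    intro t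
    rw [hQe, mul_comm]
    have h3 := (norm_line_bounds hx0 hx1 t).2
    exact mul_le_mul (hPb t) (pow_le_pow_left₀ (norm_nonneg _) h3 3) (by positivity) (by positivity)
  have hQc : Continuous (fun t : ℝ => ‖Q3 N (x + t * I)‖) := by
    have := (differentiable_Q3 N).continuous
    fun_prop
  have hQi : Integrable (fun t : ℝ => ‖Q3 N (x + t * I)‖) (gaussianReal u v) := by
    refine Integrable.mono' (g := fun t => (N:ℝ) ^ 4 * (1 + |t|) ^ 3) (hpw.const_mul _) hQc.aestronglyMeasurable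
      (Eventually.of_forall fun t => ?_)
    rw [norm_norm]
    exact hQb t
  have htail : ∫ t in A, (N:ℝ) ^ 4 * (1 + |t|) ^ 3 ∂(gaussianReal u v) ≤ (N:ℝ) ^ 4 * τ := by
    rw [integral_const_mul]
    exact mul_le_mul_of_nonneg_left hτ (by positivity)
  have hsplit : En (Q3 N) u v x = (∫ t in A, ‖Q3 N (x + t * I)‖ ∂(gaussianReal u v)) +
      ∫ t in Aᶜ, ‖Q3 N (x + t * I)‖ ∂(gaussianReal u v) := by
    unfold En
    exact (integral_add_compl hAm hQi).symm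
  have hsplit2 : ∫ t, ‖P3 N (x + t * I)‖ ^ 2 ∂(gaussianReal u v) =
      (∫ t in A, ‖P3 N (x + t * I)‖ ^ 2 ∂(gaussianReal u v)) +
      ∫ t in Aᶜ, ‖P3 N (x + t * I)‖ ^ 2 ∂(gaussianReal u v) := (integral_add_compl hAm hPi).symm
  obtain ⟨hm1, hm2⟩ := abs_le.mp hms
  have hin : ∀ t ∈ Aᶜ, |t - u| ≤ δ * u := by
    intro t ht
    rw [hA] at ht
    simpa using ht
  have hδu : 0 < δ * u := by positivity
  constructor
  · have e1 : ∫ t in A, ‖Q3 N (x + t * I)‖ ∂(gaussianReal u v) ≤ (N:ℝ) ^ 4 * τ := by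
      refine le_trans ?_ htail
      exact setIntegral_mono_on hQi.integrableOn (hpw.const_mul _).integrableOn hAm fun t _ => hQb t
    have e2 : ∫ t in Aᶜ, ‖Q3 N (x + t * I)‖ ∂(gaussianReal u v) ≤
        ∫ t in Aᶜ, (1 + u + δ * u) ^ 3 * ‖P3 N (x + t * I)‖ ^ 2 ∂(gaussianReal u v) := by
      refine setIntegral_mono_on hQi.integrableOn (hPi.const_mul _).integrableOn hAm.compl fun t ht => ?_
      rw [hQe]
      apply mul_le_mul_of_nonneg_right _ (hP0 t)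
      apply pow_le_pow_left₀ (norm_nonneg _)
      have h3 := (norm_line_bounds hx0 hx1 t).2
      have h4 := abs_le.1 (hin t ht)
      have h5 : |t| ≤ u + δ * u := abs_le.2 ⟨by nlinarith, by linarith⟩
      linarith
    have e3 : ∫ t in Aᶜ, (1 + u + δ * u) ^ 3 * ‖P3 N (x + t * I)‖ ^ 2 ∂(gaussianReal u v) ≤
        (1 + u + δ * u) ^ 3 * (D3 N d + qe N v) := by
      rw [integral_const_mul]
      apply mul_le_mul_of_nonneg_left _ (by positivity)
      refine le_trans (setIntegral_le_integral hPi (Eventually.of_forall hP0)) ?_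
      linarith
    linarith
  · have e1 : 0 ≤ ∫ t in A, ‖Q3 N (x + t * I)‖ ∂(gaussianReal u v) :=
      integral_nonneg fun t => norm_nonneg _
    have e2 : ∫ t in Aᶜ, ((1 - δ) * u) ^ 3 * ‖P3 N (x + t * I)‖ ^ 2 ∂(gaussianReal u v) ≤
        ∫ t in Aᶜ, ‖Q3 N (x + t * I)‖ ∂(gaussianReal u v) := by
      refine setIntegral_mono_on (hPi.const_mul _).integrableOn hQi.integrableOn hAm.compl fun t ht => ?_
      rw [hQe]
      apply mul_le_mul_of_nonneg_right _ (hP0 t)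
      apply pow_le_pow_left₀
      · have : 0 < 1 - δ := by linarith
        positivity
      · have h3 := (norm_line_bounds hx0 hx1 t).1
        have h4 := abs_le.1 (hin t ht)
        have h5 : (1 - δ) * u ≤ t := by nlinarith [h4.1]
        exact h5.trans ((le_abs_self t).trans h3)
    have e3 : ∫ t in A, ‖P3 N (x + t * I)‖ ^ 2 ∂(gaussianReal u v) ≤ (N:ℝ) ^ 4 * τ := by
      refine le_trans ?_ htail
      refine setIntegral_mono_on hPi.integrableOn (hpw.const_mul _).integrableOn hAm fun t _ => ?_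
      refine (hPb t).trans ?_
      have h6 : (1:ℝ) ≤ (1 + |t|) ^ 3 := one_le_pow₀ (by linarith [abs_nonneg t])
      exact le_mul_of_one_le_right (by positivity) h6
    rw [integral_const_mul] at e2
    have e4 : D3 N d - qe N v - (N:ℝ) ^ 4 * τ ≤ ∫ t in Aᶜ, ‖P3 N (x + t * I)‖ ^ 2 ∂(gaussianReal u v) := by
      linarith
    have h7 : 0 ≤ ((1 - δ) * u) ^ 3 := by
      have : 0 < 1 - δ := by linarith
      positivity
    have e5 := mul_le_mul_of_nonneg_left e4 h7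
    linarith

/-- Uniform bounds for the polynomial part on all lines between 1/2 and 3/4. -/
theorem q3_window {ε θ : ℝ} (hε : 0 < ε) (hθ0 : 0 < θ) (hθ : θ < 1) {η : ℝ} (hη : 0 < η) (hη1 : η ≤ 1) :
    ∀ᶠ p : ℝ × ℝ in Fl ε, ∀ d : ℝ, 0 ≤ d → d ≤ 1/4 →
      En (Q3 (NT θ p.1)) p.2 (vw p.1) (1/2 + d) ≤ (1 + η) * (p.2 ^ 3 * D3 (NT θ p.1) d) ∧
      (1 - η) * (p.2 ^ 3 * D3 (NT θ p.1) d) ≤ En (Q3 (NT θ p.1)) p.2 (vw p.1) (1/2 + d) := by
  have hδ : 0 < η / 32 := by positivity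
  have g1 := (Fl_fst ε).eventually ((qe_tendsto hθ0 hθ).eventually_lt_const (u := η / 32) hδ)
  have g2 := (Fl_fst ε).eventually ((four_le_vT hθ0.le).and (qw_vT_le hθ))
  have g3 := (Fl_fst ε).eventually (eventually_ge_atTop (32 / (ε * η)))
  have g4 := (Fl_fst ε).eventually (eventually_ge_atTop (32 / η))
  filter_upwards [Fl_pos hε, Fl_range ε, g1, g2, g3, g4, tail_small hε hδ 3 5] with p hp hr h1 h2 h3 h4 ht
  intro d hd0 hd1
  have hT0 : 0 < p.1 := by linarith [hp.1]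
  have hu0 : 0 < p.2 := by linarith [hp.2]
  have hv : 4 ≤ vw p.1 := h2.1.trans h2.2
  obtain ⟨b1, b2⟩ := q3_bounds hu0 hv (NT θ p.1) hd0 hd1 hδ (by linarith) ht
  have hN := NT_le hθ.le hp.1.le
  have hN0 : (0:ℝ) ≤ NT θ p.1 := Nat.cast_nonneg _
  have hD := one_le_D3 (one_le_NT hθ0.le hp.1.le) d
  have hq0 := qe_nonneg (NT θ p.1) (vw p.1)
  have hτ : (NT θ p.1 : ℝ) ^ 4 * (p.1 ^ 5)⁻¹ ≤ η / 32 := by
    calc (NT θ p.1 : ℝ) ^ 4 * (p.1 ^ 5)⁻¹ ≤ p.1 ^ 4 * (p.1 ^ 5)⁻¹ := by gcongr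
      _ = 1 / p.1 := by field_simp
      _ ≤ η / 32 := by
          rw [div_le_iff₀ hη] at h4
          rw [div_le_div_iff₀ hT0 (by norm_num)]
          linarith
  have hτ0 : 0 ≤ (NT θ p.1 : ℝ) ^ 4 * (p.1 ^ 5)⁻¹ := by positivity
  have hu32 : 1 ≤ η / 32 * p.2 := by
    rw [div_le_iff₀ (by positivity)] at h3
    have h5 : ε * p.1 ≤ p.2 := hr.1
    have h6 : p.1 * (ε * η) ≤ p.2 * η := by nlinarith
    linarith
  obtain ⟨D, hDD⟩ : ∃ D : ℝ, D = D3 (NT θ p.1) d := ⟨_, rfl⟩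
  obtain ⟨q, hq⟩ : ∃ q : ℝ, q = qe (NT θ p.1) (vw p.1) := ⟨_, rfl⟩
  obtain ⟨w, hw⟩ : ∃ w : ℝ, w = (NT θ p.1 : ℝ) ^ 4 * (p.1 ^ 5)⁻¹ := ⟨_, rfl⟩
  obtain ⟨u, hu⟩ : ∃ u : ℝ, u = p.2 := ⟨_, rfl⟩
  have hu1 : 1 < u := by rw [hu]; exact hp.2
  rw [← hDD, ← hq, ← hw, ← hu] at b1 b2
  rw [← hDD] at hD ⊢
  rw [← hq] at h1 hq0
  rw [← hw] at hτ hτ0
  rw [← hu] at hu0 hu32 ⊢
  have hD0 : 0 < D := by linarith
  have hu3 : 1 ≤ u ^ 3 := one_le_pow₀ hu1.le
  have huD : 0 < u ^ 3 * D := by positivity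
  constructor
  · refine b1.trans ?_
    have c1 : (1 + u + η / 32 * u) ^ 3 ≤ (1 + η / 4) * u ^ 3 := by
      have c2 : 1 + u + η / 32 * u ≤ (1 + η / 16) * u := by linarith
      calc (1 + u + η / 32 * u) ^ 3 ≤ ((1 + η / 16) * u) ^ 3 :=
            pow_le_pow_left₀ (by positivity) c2 3
        _ = (1 + η / 16) ^ 3 * u ^ 3 := by ring
        _ ≤ (1 + η / 4) * u ^ 3 := by
            apply mul_le_mul_of_nonneg_right _ (by positivity)
            have : η ^ 2 ≤ η := by nlinarith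
            have : η ^ 3 ≤ η := by nlinarith
            nlinarith
    have c3 : D + q ≤ (1 + η / 32) * D := by nlinarith
    have c4 : (1 + u + η / 32 * u) ^ 3 * (D + q) ≤ ((1 + η / 4) * u ^ 3) * ((1 + η / 32) * D) :=
      mul_le_mul c1 c3 (by linarith) (by positivity)
    have c5 : w ≤ η / 32 * (u ^ 3 * D) := by
      have : 1 ≤ u ^ 3 * D := by nlinarith
      nlinarith
    have c6 : ((1 + η / 4) * u ^ 3) * ((1 + η / 32) * D) = (1 + η / 4) * (1 + η / 32) * (u ^ 3 * D) := by ring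
    have c7 : (1 + η / 4) * (1 + η / 32) + η / 32 ≤ 1 + η := by nlinarith
    have c8 := mul_le_mul_of_nonneg_right c7 huD.le
    nlinarith
  · refine le_trans ?_ b2
    have c1 : (1 - 3 * (η / 32)) * u ^ 3 ≤ ((1 - η / 32) * u) ^ 3 := by
      rw [mul_pow]
      apply mul_le_mul_of_nonneg_right _ (by positivity)
      nlinarith [sq_nonneg (η / 32), mul_nonneg (sq_nonneg (η / 32)) (by linarith : (0:ℝ) ≤ 3 - η / 32)]
    have c2 : (1 - 2 * (η / 32)) * D ≤ D - q - w := by nlinarith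
    have c3 : (1 - 3 * (η / 32)) * u ^ 3 * ((1 - 2 * (η / 32)) * D) ≤ ((1 - η / 32) * u) ^ 3 * (D - q - w) := by
      apply mul_le_mul c1 c2
      · have : 0 < 1 - 2 * (η / 32) := by linarith
        positivity
      · have : 0 < 1 - η / 32 := by linarith
        positivity
    have c5 : (1 - 3 * (η / 32)) * u ^ 3 * ((1 - 2 * (η / 32)) * D) = (1 - 3 * (η / 32)) * (1 - 2 * (η / 32)) * (u ^ 3 * D) := by ring
    have c6 : 1 - η ≤ (1 - 3 * (η / 32)) * (1 - 2 * (η / 32)) := by nlinarith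
    have c7 := mul_le_mul_of_nonneg_right c6 huD.le
    linarith

end Pool.Agent.LibNL3
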