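import Pool.Agent.LibNL3.Poly
import Pool.Agent.LibNL3.Tail
import Pool.Agent.LibNL3.Sums
import Pool.Agent.LibNL3.Qwin
import Pool.Agent.LibM3.F5
import Pool.Agent.LibM3.Z2

/-! Third moment near the critical line: the difference on the critical line. -/

set_option autoImplicit false

namespace Pool.Agent.LibNL3

open MeasureTheory Set Filter Topology Complex ProbabilityTheory
open scoped NNReal
open Pool.Agent.LibZM Pool.Agent.LibM3

private lemma crit_integrable {F : ℂ → ℂ} (hF : Continuous F) {x C : ℝ} (m : ℕ)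
    (hC : ∀ t : ℝ, ‖F (x + t * I)‖ ≤ C * (1 + |t|) ^ m) (u : ℝ) (v : ℝ≥0) :
    Integrable (fun t : ℝ => ‖F (x + t * I)‖) (gaussianReal u v) := by
  refine Integrable.mono' (g := fun t => C * (1 + |t|) ^ m) ((integrable_pow_gauss m u v).const_mul C) ?_
    (Eventually.of_forall fun t => ?_)
  · have h : Continuous (fun t : ℝ => ‖F (x + t * I)‖) := by fun_prop
    exact h.aestronglyMeasurable
  · rw [norm_norm]; exact hC t

private lemma crit_Z3_bound (t : ℝ) : ‖Z3 (((1/2 : ℝ) : ℂ) + t * I)‖ ≤ 216 * (1 + |t|) ^ 6 := by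
  have h := norm_Z3_line (b' := 1) (x := 1/2) le_rfl ⟨by norm_num, by norm_num⟩ t
  calc ‖Z3 (((1/2 : ℝ) : ℂ) + t * I)‖ ≤ (6 * (1:ℝ) ^ 2) ^ 3 * (1 + |t|) ^ 6 := h
    _ = 216 * (1 + |t|) ^ 6 := by norm_num

private lemma crit_Z3_eq (t : ℝ) : ‖Z3 (((1/2 : ℝ) : ℂ) + t * I)‖ =
    ‖((1/2 : ℝ) : ℂ) + t * I - 1‖ ^ 3 * ‖riemannZeta (crit t)‖ ^ 3 := by
  have e0 : ((1/2 : ℝ) : ℂ) + t * I = crit t := by
    unfold crit
    push_cast
    ring
  unfold Z3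
  rw [e0, zeta1_crit, norm_pow, norm_mul, mul_pow]

/-- The third moment on Gaussian windows, with the polynomial weight. -/
theorem z3_crit {c₀ c₁ : ℝ} (hc0 : 0 < c₀) (hc : c₀ < c₁)
    (h : ∀ η : ℝ, 0 < η → ∀ᶠ p : ℝ × ℝ in Fl η,
      ∫ t in win p.2, ‖riemannZeta (crit t)‖ ^ 3 ∂(gaussianReal p.2 (vw p.1)) ≤ c₀ * L3 p.1) {ε : ℝ} (hε : 0 < ε) :
    ∀ᶠ p : ℝ × ℝ in Fl ε, En Z3 p.2 (vw p.1) (1/2) ≤ c₁ * (p.2 ^ 3 * L3 p.1) := by
  -- choice of `δ`
  have hδex : ∃ δ : ℝ, 0 < δ ∧ δ < 1/2 ∧ (1 + 2 * δ) ^ 3 * c₀ + δ ≤ c₁ := by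
    have hcont : Tendsto (fun δ : ℝ => (1 + 2 * δ) ^ 3 * c₀ + δ) (𝓝[>] 0) (𝓝 ((1 + 2 * 0) ^ 3 * c₀ + 0)) := by
      have : Continuous (fun δ : ℝ => (1 + 2 * δ) ^ 3 * c₀ + δ) := by fun_prop
      exact (this.tendsto 0).mono_left nhdsWithin_le_nhds
    have e1 : (1 + 2 * (0:ℝ)) ^ 3 * c₀ + 0 < c₁ := by
      simpa using hc
    have ev2 : ∀ᶠ δ : ℝ in 𝓝[>] (0:ℝ), 0 < δ := self_mem_nhdsWithin
    have ev3 : ∀ᶠ δ : ℝ in 𝓝[>] (0:ℝ), δ < 1/2 :=
      mem_nhdsWithin_of_mem_nhds (Iio_mem_nhds (show (0:ℝ) < 1/2 by norm_num))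
    obtain ⟨δ, h1, h2, h3⟩ := ((hcont.eventually_lt_const e1).and (ev2.and ev3)).exists
    exact ⟨δ, h2, h3, h1.le⟩
  obtain ⟨δ, hδ0, hδ1, hδc⟩ := hδex
  have g1 := (Fl_fst ε).eventually (L3_tendsto.eventually_ge_atTop 1)
  have g3 := (Fl_fst ε).eventually (eventually_ge_atTop (1 / (ε * δ)))
  have g4 := (Fl_fst ε).eventually (eventually_ge_atTop (216 / δ))
  filter_upwards [h ε hε, Fl_pos hε, Fl_range ε, g1, g3, g4, tail_small hε hδ0 6 1] with p hw hp hr h1 h3 h4 ht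
  have hT0 : 0 < p.1 := by linarith [hp.1]
  have hu0 : 0 < p.2 := by linarith [hp.2]
  obtain ⟨u, hu⟩ : ∃ u : ℝ, u = p.2 := ⟨_, rfl⟩
  obtain ⟨v, hv⟩ : ∃ v : ℝ≥0, v = vw p.1 := ⟨_, rfl⟩
  have hu1 : 1 < u := by rw [hu]; exact hp.2
  have huδ : 1 ≤ δ * u := by
    rw [div_le_iff₀ (by positivity)] at h3
    have h5 : ε * p.1 ≤ p.2 := hr.1
    rw [hu]
    nlinarith
  rw [← hu, ← hv] at hw ht ⊢
  rw [← hu] at hu0
  obtain ⟨A, hA⟩ : ∃ A : Set ℝ, A = {t : ℝ | δ * u < |t - u|} := ⟨_, rfl⟩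
  rw [← hA, pow_one] at ht
  have hAm : MeasurableSet A := by
    rw [hA]
    exact measurableSet_lt measurable_const ((measurable_id.sub_const u).norm)
  have hin : ∀ t ∈ Aᶜ, |t - u| ≤ δ * u := by
    intro t ht
    rw [hA] at ht
    simpa using ht
  have hZi : Integrable (fun t : ℝ => ‖Z3 (((1/2 : ℝ) : ℂ) + t * I)‖) (gaussianReal u v) :=
    crit_integrable differentiable_Z3.continuous 6 crit_Z3_bound u v
  have hsplit : En Z3 u v (1/2) = (∫ t in A, ‖Z3 (((1/2 : ℝ) : ℂ) + t * I)‖ ∂(gaussianReal u v)) +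
      ∫ t in Aᶜ, ‖Z3 (((1/2 : ℝ) : ℂ) + t * I)‖ ∂(gaussianReal u v) := by
    unfold En
    exact (integral_add_compl hAm hZi).symm
  have e1 : ∫ t in A, ‖Z3 (((1/2 : ℝ) : ℂ) + t * I)‖ ∂(gaussianReal u v) ≤ δ := by
    calc ∫ t in A, ‖Z3 (((1/2 : ℝ) : ℂ) + t * I)‖ ∂(gaussianReal u v)
        ≤ ∫ t in A, 216 * (1 + |t|) ^ 6 ∂(gaussianReal u v) :=
          setIntegral_mono_on hZi.integrableOn ((integrable_pow_gauss 6 u v).const_mul _).integrableOn hAm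
            fun t _ => crit_Z3_bound t
      _ = 216 * ∫ t in A, (1 + |t|) ^ 6 ∂(gaussianReal u v) := integral_const_mul _ _
      _ ≤ 216 * (p.1)⁻¹ := by
          apply mul_le_mul_of_nonneg_left ht (by norm_num)
      _ ≤ δ := by
          rw [div_le_iff₀ hδ0] at h4
          rw [← div_eq_mul_inv, div_le_iff₀ hT0]
          linarith
  have hcz : Continuous (fun t : ℝ => ‖riemannZeta (crit t)‖ ^ 3) := by
    have hz : Continuous (fun t : ℝ => riemannZeta (crit t)) := by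
      rw [continuous_iff_continuousAt]
      intro t
      have hne : crit t ≠ 1 := by
        intro hh
        have := congrArg Complex.re hh
        rw [crit_re, one_re] at this
        norm_num at this
      have hd := (differentiableAt_riemannZeta hne).continuousAt
      have hcr : ContinuousAt crit t := by
        unfold crit
        fun_prop
      exact ContinuousAt.comp (f := crit) (g := riemannZeta) hd hcr
    fun_prop
  have hwin : IntegrableOn (fun t : ℝ => ‖riemannZeta (crit t)‖ ^ 3) (win u) (gaussianReal u v) := by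
    unfold win
    exact hcz.continuousOn.integrableOn_compact isCompact_Icc
  have hsub : Aᶜ ⊆ win u := by
    intro t ht
    have h5 := abs_le.1 (hin t ht)
    unfold win
    exact ⟨by nlinarith [h5.1], by nlinarith [h5.2]⟩
  have e2 : ∫ t in Aᶜ, ‖Z3 (((1/2 : ℝ) : ℂ) + t * I)‖ ∂(gaussianReal u v) ≤ (1 + u + δ * u) ^ 3 * (c₀ * L3 p.1) := by
    calc ∫ t in Aᶜ, ‖Z3 (((1/2 : ℝ) : ℂ) + t * I)‖ ∂(gaussianReal u v)
        ≤ ∫ t in Aᶜ, (1 + u + δ * u) ^ 3 * ‖riemannZeta (crit t)‖ ^ 3 ∂(gaussianReal u v) := by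
          refine setIntegral_mono_on hZi.integrableOn ((hwin.mono_set hsub).const_mul _) hAm.compl fun t ht => ?_
          rw [crit_Z3_eq]
          apply mul_le_mul_of_nonneg_right _ (by positivity)
          apply pow_le_pow_left₀ (norm_nonneg _)
          have h5 := (norm_line_bounds (x := 1/2) (by norm_num) (by norm_num) t).2
          have h6 := abs_le.1 (hin t ht)
          have h7 : |t| ≤ u + δ * u := abs_le.2 ⟨by nlinarith, by linarith⟩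
          linarith
      _ = (1 + u + δ * u) ^ 3 * ∫ t in Aᶜ, ‖riemannZeta (crit t)‖ ^ 3 ∂(gaussianReal u v) := integral_const_mul _ _
      _ ≤ (1 + u + δ * u) ^ 3 * ∫ t in win u, ‖riemannZeta (crit t)‖ ^ 3 ∂(gaussianReal u v) := by
          apply mul_le_mul_of_nonneg_left _ (by positivity)
          exact setIntegral_mono_set hwin (Eventually.of_forall fun t => by positivity) (Eventually.of_forall hsub)
      _ ≤ (1 + u + δ * u) ^ 3 * (c₀ * L3 p.1) := mul_le_mul_of_nonneg_left hw (by positivity)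
  have e3 : (1 + u + δ * u) ^ 3 ≤ (1 + 2 * δ) ^ 3 * u ^ 3 := by
    rw [← mul_pow]
    apply pow_le_pow_left₀ (by positivity)
    linarith
  have hL0 : 0 < L3 p.1 := by linarith
  have e4 : (1 + u + δ * u) ^ 3 * (c₀ * L3 p.1) ≤ (1 + 2 * δ) ^ 3 * u ^ 3 * (c₀ * L3 p.1) :=
    mul_le_mul_of_nonneg_right e3 (by positivity)
  have hu3 : 1 ≤ u ^ 3 := one_le_pow₀ hu1.le
  have e5 : δ ≤ δ * (u ^ 3 * L3 p.1) := by
    have : 1 ≤ u ^ 3 * L3 p.1 := by nlinarith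
    nlinarith
  have e6 : ((1 + 2 * δ) ^ 3 * c₀ + δ) * (u ^ 3 * L3 p.1) ≤ c₁ * (u ^ 3 * L3 p.1) :=
    mul_le_mul_of_nonneg_right hδc (by positivity)
  calc En Z3 u v (1/2) ≤ δ + (1 + 2 * δ) ^ 3 * u ^ 3 * (c₀ * L3 p.1) := by
        rw [hsplit]
        exact add_le_add e1 (e2.trans e4)
    _ ≤ ((1 + 2 * δ) ^ 3 * c₀ + δ) * (u ^ 3 * L3 p.1) := by
        have e7 : ((1 + 2 * δ) ^ 3 * c₀ + δ) * (u ^ 3 * L3 p.1) =
          (1 + 2 * δ) ^ 3 * u ^ 3 * (c₀ * L3 p.1) + δ * (u ^ 3 * L3 p.1) := by ring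
        rw [e7]
        linarith
    _ ≤ _ := e6

private lemma crit_Pint (θ : ℝ) (hθ0 : 0 ≤ θ) (hθ : θ ≤ 1) : Pint (9/4) 0 θ ≤ Pint (9/4) 0 1 := by
  unfold Pint
  have hG : 0 < Real.Gamma (9/4) := Real.Gamma_pos_of_pos (by norm_num)
  apply div_le_div_of_nonneg_right _ hG.le
  have h1 : IntervalIntegrable (fun t : ℝ => t ^ ((9/4 : ℝ) - 1) * Real.exp (-(2 * 0 * t))) volume 0 1 :=
    (intervalIntegral.intervalIntegrable_rpow' (by norm_num)).mul_continuousOn (by fun_prop)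
  apply intervalIntegral.integral_mono_interval le_rfl hθ0 hθ _ h1
  filter_upwards [self_mem_ae_restrict measurableSet_Ioc] with t ht
  have : 0 < t := ht.1
  show 0 ≤ t ^ ((9/4 : ℝ) - 1) * Real.exp (-(2 * 0 * t))
  positivity

private lemma crit_Pint_nonneg : 0 ≤ Pint (9/4) 0 1 := by
  have h := crit_Pint 0 le_rfl zero_le_one
  have h0 : Pint (9/4) 0 0 = 0 := by
    unfold Pint
    simp
  linarith

/-- The difference on the critical line. -/
theorem g3_crit {K : ℝ} (hK : 2 * CI + Pint (9/4) 0 1 < K) : ∀ᶠ θ : ℝ in 𝓝[<] (1:ℝ), ∀ ε : ℝ, 0 < ε →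
    ∀ᶠ p : ℝ × ℝ in Fl ε, En (G3 (NT θ p.1)) p.2 (vw p.1) (1/2) ≤ K * (p.2 ^ 3 * L3 p.1) := by
  have hCI := f3_CI_nonneg
  have hPi := crit_Pint_nonneg
  obtain ⟨κ, hκ⟩ : ∃ κ : ℝ, κ = (K - (2 * CI + Pint (9/4) 0 1)) / 4 := ⟨_, rfl⟩
  have hκ0 : 0 < κ := by rw [hκ]; linarith
  obtain ⟨η, hη⟩ : ∃ η : ℝ, η = κ / (κ + Pint (9/4) 0 1 + 1) := ⟨_, rfl⟩
  have hη0 : 0 < η := by rw [hη]; positivity
  have hη1 : η ≤ 1 := by rw [hη, div_le_one (by positivity)]; linarith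
  have hηP : η * (Pint (9/4) 0 1 + κ) ≤ κ := by
    rw [hη, div_mul_eq_mul_div, div_le_iff₀ (by positivity)]
    nlinarith
  have hev : ∀ᶠ θ : ℝ in 𝓝[<] (1:ℝ), 0 < θ ∧ θ < 1 := by
    have h1 : ∀ᶠ θ : ℝ in 𝓝[<] (1:ℝ), 0 < θ := mem_nhdsWithin_of_mem_nhds (Ioi_mem_nhds one_pos)
    exact h1.and self_mem_nhdsWithin
  filter_upwards [hev] with θ hθ ε hε
  obtain ⟨hθ0, hθ1⟩ := hθ
  have hz : ∀ᶠ p : ℝ × ℝ in Fl ε, En Z3 p.2 (vw p.1) (1/2) ≤ (2 * CI + 2 * κ) * (p.2 ^ 3 * L3 p.1) := by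
    apply z3_crit (c₀ := 2 * CI + κ) (by linarith) (by linarith) _ hε
    intro η' hη'
    filter_upwards [f5_window hη' (c := 2 * CI + κ) (by linarith)] with p hp
    refine hp.trans (le_of_eq ?_)
    unfold L3
    ring
  have hD : ∀ᶠ T : ℝ in atTop, D3 (NT θ T) 0 ≤ (Pint (9/4) 0 1 + κ) * L3 T := by
    have h1 := D3_tendsto 0 hθ0
    have h2 : Pint (9/4) 0 θ < Pint (9/4) 0 1 + κ := by
      have := crit_Pint θ hθ0.le hθ1.le
      linarith
    filter_upwards [h1.eventually_lt_const h2, eventually_gt_atTop 1] with T hT hT1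
    rw [zero_div, div_lt_iff₀ (L3_pos hT1)] at hT
    exact hT.le
  filter_upwards [hz, q3_window hε hθ0 hθ1 hη0 hη1, (Fl_fst ε).eventually hD, Fl_pos hε] with p h1 h2 h3 hp
  have h4 := (h2 0 le_rfl (by norm_num)).1
  rw [add_zero] at h4
  have hu0 : 0 < p.2 := by linarith [hp.2]
  have hL := L3_pos hp.1
  have hZi : Integrable (fun t : ℝ => ‖Z3 (((1/2 : ℝ) : ℂ) + t * I)‖) (gaussianReal p.2 (vw p.1)) :=
    crit_integrable differentiable_Z3.continuous 6 crit_Z3_bound _ _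
  have hQb : ∀ t : ℝ, ‖Q3 (NT θ p.1) (((1/2 : ℝ) : ℂ) + t * I)‖ ≤ (NT θ p.1 : ℝ) ^ 4 * (1 + |t|) ^ 3 := by
    intro t
    have h := norm_Q3_line (b' := 1) (x := 1/2) le_rfl ⟨by norm_num, by norm_num⟩ (NT θ p.1) t
    simpa using h
  have hQi : Integrable (fun t : ℝ => ‖Q3 (NT θ p.1) (((1/2 : ℝ) : ℂ) + t * I)‖) (gaussianReal p.2 (vw p.1)) :=
    crit_integrable (differentiable_Q3 _).continuous 3 hQb _ _
  have htri : En (G3 (NT θ p.1)) p.2 (vw p.1) (1/2) ≤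
      En Z3 p.2 (vw p.1) (1/2) + En (Q3 (NT θ p.1)) p.2 (vw p.1) (1/2) := by
    unfold En
    rw [← integral_add hZi hQi]
    apply integral_mono_of_nonneg (Eventually.of_forall fun t => norm_nonneg _) (hZi.add hQi)
    exact Eventually.of_forall fun t => norm_sub_le _ _
  have hu3 : 0 < p.2 ^ 3 := by positivity
  have e1 : (1 + η) * (p.2 ^ 3 * D3 (NT θ p.1) 0) ≤ (Pint (9/4) 0 1 + 2 * κ) * (p.2 ^ 3 * L3 p.1) := by
    calc (1 + η) * (p.2 ^ 3 * D3 (NT θ p.1) 0) ≤ (1 + η) * (p.2 ^ 3 * ((Pint (9/4) 0 1 + κ) * L3 p.1)) := by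
          gcongr
      _ = ((Pint (9/4) 0 1 + κ) + η * (Pint (9/4) 0 1 + κ)) * (p.2 ^ 3 * L3 p.1) := by ring
      _ ≤ _ := by
          apply mul_le_mul_of_nonneg_right _ (by positivity)
          linarith
  calc En (G3 (NT θ p.1)) p.2 (vw p.1) (1/2)
      ≤ (2 * CI + 2 * κ) * (p.2 ^ 3 * L3 p.1) + (Pint (9/4) 0 1 + 2 * κ) * (p.2 ^ 3 * L3 p.1) := by
        refine htri.trans (add_le_add h1 (h4.trans e1))
    _ = K * (p.2 ^ 3 * L3 p.1) := by
        rw [hκ]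
        ring

/-- Numerical value of the constant. -/
theorem const3_num : 2 * CI + Pint (9/4) 0 1 < 1042 / 1000 := by
  have h1 := CI_le
  have hG := z2b_Gamma_quarter
  have h2 : Pint (9/4) 0 1 = (64 / 45) / Real.Gamma (1/4) := by
    unfold Pint
    have e1 : (fun t : ℝ => t ^ ((9/4:ℝ) - 1) * Real.exp (-(2 * 0 * t))) = fun t : ℝ => t ^ (5/4:ℝ) := by
      ext t; norm_num
    rw [e1, integral_rpow (Or.inl (by norm_num))]
    have e2 : Real.Gamma (9/4) = 5/4 * (1/4 * Real.Gamma (1/4)) := by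
      rw [show (9/4 : ℝ) = 5/4 + 1 by norm_num, Real.Gamma_add_one (by norm_num),
        show (5/4 : ℝ) = 1/4 + 1 by norm_num, Real.Gamma_add_one (by norm_num)]
    rw [e2]
    have hG0 : Real.Gamma (1/4) ≠ 0 := by linarith
    rw [Real.one_rpow, Real.zero_rpow (by norm_num)]
    field_simp
    norm_num
  rw [h2]
  have hG0 : 0 < Real.Gamma (1/4) := by linarith
  have h3 : (64 / 45) / Real.Gamma (1/4) ≤ (64 / 45) / (361/100) := by
    gcongr
  have h4 : (64 / 45 : ℝ) / (361/100) < 3940 / 10000 := by norm_num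
  linarith

end Pool.Agent.LibNL3
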