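import Pool.Agent.LibNL3.Poly
import Pool.Agent.LibNL3.Tail

/-! Third moment near the critical line: decay of the difference (template: LibZM.NC1 nc_g). -/

set_option autoImplicit false

namespace Pool.Agent.LibNL3

open MeasureTheory Set Filter Topology Complex ProbabilityTheory
open scoped NNReal
open Pool.Agent.LibZM Pool.Agent.LibM3

lemma sqrt_le_Hw {T : ℝ} (hT : Real.exp 1 ≤ T) : √T / 2 ≤ Hw T := by
  have he := Real.exp_pos 1
  have hT0 : 0 < T := by linarith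
  have hl : 1 ≤ Real.log T := by
    have := Real.log_le_log he hT
    rwa [Real.log_exp] at this
  have hs : 0 < √T := Real.sqrt_pos.mpr hT0
  have h1 : Real.log T ≤ 2 * √T := by
    have h2 : Real.log (√T) ≤ √T - 1 := Real.log_le_sub_one_of_pos hs
    rw [Real.log_sqrt hT0.le] at h2
    linarith
  have h3 : (Real.log T) ^ (3/4:ℝ) ≤ 2 * √T := by
    refine le_trans ?_ h1
    calc (Real.log T) ^ (3/4:ℝ) ≤ (Real.log T) ^ (1:ℝ) := Real.rpow_le_rpow_of_exponent_le hl (by norm_num)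
      _ = Real.log T := Real.rpow_one _
  have hp : 0 < (Real.log T) ^ (3/4:ℝ) := by positivity
  unfold Hw
  rw [le_div_iff₀ hp]
  calc √T / 2 * (Real.log T) ^ (3/4:ℝ) ≤ √T / 2 * (2 * √T) := by gcongr
    _ = √T * √T := by ring
    _ = T := Real.mul_self_sqrt hT0.le

lemma Hw_tendsto3 : Tendsto Hw atTop atTop := by
  have h1 : Tendsto (fun T : ℝ => √T / 2) atTop atTop := Real.tendsto_sqrt_atTop.atTop_div_const (by norm_num)
  exact tendsto_atTop_mono' _ ((eventually_ge_atTop (Real.exp 1)).mono fun T hT => sqrt_le_Hw hT) h1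

lemma vw_coe3 (T : ℝ) : (vw T : ℝ) = Hw T ^ 2 := Real.coe_toNNReal _ (sq_nonneg _)

lemma four_le_vw3 : ∀ᶠ T : ℝ in atTop, 4 ≤ vw T := by
  filter_upwards [Hw_tendsto3.eventually_ge_atTop 2] with T hT
  rw [← NNReal.coe_le_coe, vw_coe3]
  push_cast
  nlinarith

lemma exp_vw3 (M : ℝ) : Tendsto (fun T => Real.exp (M / (2 * (vw T : ℝ)))) atTop (𝓝 1) := by
  have h1 : Tendsto (fun T => 2 * (vw T : ℝ)) atTop atTop := by
    simp_rw [vw_coe3]
    exact ((tendsto_pow_atTop (two_ne_zero)).comp Hw_tendsto3).const_mul_atTop (by norm_num)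
  have h2 : Tendsto (fun T => M / (2 * (vw T : ℝ))) atTop (𝓝 0) := tendsto_const_nhds.div_atTop h1
  have h3 := (Real.continuous_exp.tendsto 0).comp h2
  rwa [Real.exp_zero] at h3

lemma En_far3 {ε : ℝ} (hε : 0 < ε) {b : ℝ} (hb : 2 ≤ b) : ∀ᶠ p : ℝ × ℝ in Fl ε, ∀ N : ℕ, 1 ≤ N → 
    En (G3 N) p.2 (vw p.1) b ≤ (2 * b ^ 3 * Z2 ^ 3 * (N:ℝ) ^ (2 - b)) * p.2 ^ 3 := by
  filter_upwards [full_mass hε 3 (c := 2) (by norm_num)] with p hp N hN
  have hZ := Z2_pos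
  have hN0 : (0:ℝ) < N := by exact_mod_cast hN
  have hb0 : 0 < b := by linarith
  have hpt : ∀ t : ℝ, ‖G3 N (b + t * I)‖ ≤ (b ^ 3 * Z2 ^ 3 * (N:ℝ) ^ (2 - b)) * (1 + |t|) ^ 3 := by
    intro t
    refine (far_G3 hN hb t).trans ?_
    have h1 : ‖(b:ℂ) + t * I - 1‖ ≤ b * (1 + |t|) := by
      refine (norm_sub_one_le b t).trans ?_
      rw [abs_of_nonneg (by linarith)]
      have := abs_nonneg t
      nlinarith
    calc ‖(b:ℂ) + t * I - 1‖ ^ 3 * (Z2 ^ 3 * (N:ℝ) ^ (2 - b)) ≤ (b * (1 + |t|)) ^ 3 * (Z2 ^ 3 * (N:ℝ) ^ (2 - b)) := by gcongr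
      _ = _ := by ring
  have hi := (integrable_pow_gauss 3 p.2 (vw p.1)).const_mul (b ^ 3 * Z2 ^ 3 * (N:ℝ) ^ (2 - b))
  have hFi : Integrable (fun t : ℝ => ‖G3 N (b + t * I)‖) (gaussianReal p.2 (vw p.1)) := by
    refine Integrable.mono' hi ?_ (Eventually.of_forall fun t => ?_)
    · have hc := (differentiable_G3 N).continuous
      have h : Continuous (fun t : ℝ => ‖G3 N (b + t * I)‖) := by fun_prop
      exact h.aestronglyMeasurable
    · rw [norm_norm]; exact hpt t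
  have h2 := integral_mono hFi hi hpt
  rw [integral_const_mul] at h2
  unfold En
  refine h2.trans ?_
  calc (b ^ 3 * Z2 ^ 3 * (N:ℝ) ^ (2 - b)) * ∫ t, (1 + |t|) ^ 3 ∂(gaussianReal p.2 (vw p.1)) 
      ≤ (b ^ 3 * Z2 ^ 3 * (N:ℝ) ^ (2 - b)) * (2 * p.2 ^ 3) := by gcongr
    _ = _ := by ring

/-- Uniform decay of the difference on all lines between 1/2 and 3/4. -/
theorem g3_decay {ε θ : ℝ} (hε : 0 < ε) (hθ0 : 0 < θ) (hθ : θ < 1) {κ : ℝ} (hκ0 : 0 ≤ κ) (hκ : κ < θ) {K : ℝ}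
    (hK : 1 ≤ K)
    (hcrit : ∀ᶠ p : ℝ × ℝ in Fl ε, En (G3 (NT θ p.1)) p.2 (vw p.1) (1/2) ≤ K * (p.2 ^ 3 * L3 p.1))
    {c : ℝ} (hc : 1 < c) :
    ∀ᶠ p : ℝ × ℝ in Fl ε, ∀ d : ℝ, 0 ≤ d → d ≤ 1/4 →
      En (G3 (NT θ p.1)) p.2 (vw p.1) (1/2 + d) ≤
        c * (K * (p.2 ^ 3 * L3 p.1)) * Real.exp (-(κ * d * Real.log p.1)) := by
  obtain ⟨b, hb⟩ : ∃ b : ℝ, b = 2 + 1.5 * θ / (θ - κ) := ⟨_, rfl⟩
  have hθκ : 0 < θ - κ := by linarith
  have hb2 : 2 ≤ b := by rw [hb]; have : 0 ≤ 1.5 * θ / (θ - κ) := by positivity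
                         linarith
  have hbκ : κ * (b - 1/2) < (b - 2) * θ := by
    have h1 : (b - 2) * (θ - κ) = 1.5 * θ := by rw [hb]; field_simp; ring
    nlinarith
  -- the far line
  obtain ⟨C, hC⟩ : ∃ C : ℝ, C = 2 * b ^ 3 * Z2 ^ 3 := ⟨_, rfl⟩
  have hC0 : 0 < C := by rw [hC]; have := Z2_pos; positivity
  have hlogW : Tendsto (fun T : ℝ => (Real.log C + (2 - b) * Real.log (NT θ T)) / Real.log T) atTop (𝓝 (-((b - 2) * θ))) := by
    have h1 := (div_log_tendsto (Real.log C)).add ((log_NT_div hθ0.le).const_mul (2 - b))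
    have e : 0 + (2 - b) * θ = -((b - 2) * θ) := by ring
    rw [e] at h1
    refine h1.congr fun T => ?_
    ring
  have k1 : ∀ᶠ T : ℝ in atTop, (Real.log C + (2 - b) * Real.log (NT θ T)) / Real.log T < -(κ * (b - 1/2)) := 
    hlogW.eventually_lt_const (by linarith)
  have k2 : ∀ᶠ T : ℝ in atTop, 1 ≤ L3 T := L3_tendsto.eventually_ge_atTop 1
  have k3 : ∀ᶠ T : ℝ in atTop, Real.exp ((b+1) ^ 2 / (2 * (vw T : ℝ))) < c := 
    (exp_vw3 ((b+1) ^ 2)).eventually_lt_const hc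
  filter_upwards [(Fl_fst ε).eventually k1, (Fl_fst ε).eventually k2, (Fl_fst ε).eventually k3, hcrit, Fl_pos hε, 
    (Fl_fst ε).eventually four_le_vw3, En_far3 hε hb2] with p h1 h2 h3 h4 hp hv hfar d hd0 hd1
  have hT0 : 0 < p.1 := by linarith [hp.1]
  have hu0 : 0 < p.2 := by linarith [hp.2]
  have hl := Real.log_pos hp.1
  have hv0 : 0 < vw p.1 := lt_of_lt_of_le (by norm_num) hv
  have hN1 : 1 ≤ NT θ p.1 := one_le_NT hθ0.le hp.1.le
  have hN : (1:ℝ) ≤ NT θ p.1 := by exact_mod_cast hN1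
  have hN0 : (0:ℝ) < NT θ p.1 := by linarith
  have hZ := Z2_pos
  obtain ⟨Cg, hCg0, hCg⟩ := growth_G3 (b' := b + 1) (by linarith) (NT θ p.1)
  have hcv := convex_En (differentiable_G3 (NT θ p.1)) (a' := 1/4) (a := 1/2) (b := b) (b' := b + 1) 
    (C := Cg) (by norm_num) (by linarith) (by linarith) hCg0 hCg (u := p.2) hv0 (x := 1/2 + d) (M := (b+1) ^ 2) 
    ⟨by linarith, by linarith⟩ (by nlinarith) (by nlinarith)
  obtain ⟨Ea, hEa⟩ : ∃ Ea : ℝ, Ea = En (G3 (NT θ p.1)) p.2 (vw p.1) (1/2) := ⟨_, rfl⟩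
  obtain ⟨Eb, hEb⟩ : ∃ Eb : ℝ, Eb = En (G3 (NT θ p.1)) p.2 (vw p.1) b := ⟨_, rfl⟩
  obtain ⟨τ, hτ⟩ : ∃ τ : ℝ, τ = (1/2 + d - 1/2) / (b - 1/2) := ⟨_, rfl⟩
  rw [← hEa, ← hEb, ← hτ] at hcv
  have hb12 : 0 < b - 1/2 := by linarith
  have hτ0 : 0 ≤ τ := by rw [hτ]; apply div_nonneg _ hb12.le; linarith
  have hτ1 : τ ≤ 1 := by rw [hτ, div_le_one hb12]; linarith
  have hτb : τ * (b - 1/2) = d := by rw [hτ, div_mul_cancel₀ _ hb12.ne']; ring
  have hEa0 : 0 ≤ Ea := by rw [hEa]; exact En_nonneg _ _ _ _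
  have hEb0 : 0 ≤ Eb := by rw [hEb]; exact En_nonneg _ _ _ _
  have hL : 0 < L3 p.1 := by linarith
  have hUL : 0 < p.2 ^ 3 * L3 p.1 := by positivity
  have hEaK : Ea ≤ K * (p.2 ^ 3 * L3 p.1) := by rw [hEa]; exact h4
  obtain ⟨W, hW⟩ : ∃ W : ℝ, W = C * (NT θ p.1 : ℝ) ^ (2 - b) := ⟨_, rfl⟩
  have hW0 : 0 < W := by rw [hW]; positivity
  have hEbW : Eb ≤ W * p.2 ^ 3 := by
    rw [hEb, hW, hC]
    exact hfar _ hN1
  have hK0 : 0 < K := by linarith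
  have hX : Ea ^ (1 - τ) * Eb ^ τ ≤ (K * (p.2 ^ 3 * L3 p.1)) * W ^ τ := by
    calc Ea ^ (1 - τ) * Eb ^ τ ≤ (K * (p.2 ^ 3 * L3 p.1)) ^ (1 - τ) * (W * p.2 ^ 3) ^ τ := by
          apply mul_le_mul
          · exact Real.rpow_le_rpow hEa0 hEaK (by linarith)
          · exact Real.rpow_le_rpow hEb0 hEbW hτ0
          · positivity
          · positivity
      _ ≤ (K * (p.2 ^ 3 * L3 p.1)) ^ (1 - τ) * (W * (K * (p.2 ^ 3 * L3 p.1))) ^ τ := by
          apply mul_le_mul_of_nonneg_left _ (by positivity)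
          apply Real.rpow_le_rpow (by positivity) _ hτ0
          apply mul_le_mul_of_nonneg_left _ hW0.le
          have c0 : 0 ≤ p.2 ^ 3 := by positivity
          have c1 : p.2 ^ 3 ≤ p.2 ^ 3 * L3 p.1 := le_mul_of_one_le_right c0 h2
          have c2 : p.2 ^ 3 * L3 p.1 ≤ K * (p.2 ^ 3 * L3 p.1) := le_mul_of_one_le_left hUL.le hK
          linarith
      _ = ((K * (p.2 ^ 3 * L3 p.1)) ^ (1 - τ) * (K * (p.2 ^ 3 * L3 p.1)) ^ τ) * W ^ τ := by
          rw [Real.mul_rpow hW0.le (by positivity)]; ring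
      _ = _ := by
          rw [← Real.rpow_add (by positivity), sub_add_cancel, Real.rpow_one]
  have hWτ : W ^ τ ≤ Real.exp (-(κ * d * Real.log p.1)) := by
    rw [Real.rpow_def_of_pos hW0]
    apply Real.exp_le_exp.mpr
    have hlw : Real.log W = Real.log C + (2 - b) * Real.log (NT θ p.1) := by
      rw [hW, Real.log_mul hC0.ne' (by positivity), Real.log_rpow hN0]
    rw [hlw]
    rw [div_lt_iff₀ hl] at h1
    calc (Real.log C + (2 - b) * Real.log (NT θ p.1)) * τ ≤ (-(κ * (b - 1/2)) * Real.log p.1) * τ := by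
          apply mul_le_mul_of_nonneg_right h1.le hτ0
      _ = -(κ * (τ * (b - 1/2)) * Real.log p.1) := by ring
      _ = _ := by rw [hτb]
  have hexp := Real.exp_pos ((b+1) ^ 2 / (2 * (vw p.1 : ℝ)))
  calc En (G3 (NT θ p.1)) p.2 (vw p.1) (1/2 + d) ≤ Real.exp ((b+1) ^ 2 / (2 * (vw p.1 : ℝ))) * (Ea ^ (1 - τ) * Eb ^ τ) := hcv
    _ ≤ c * ((K * (p.2 ^ 3 * L3 p.1)) * Real.exp (-(κ * d * Real.log p.1))) := by
        apply mul_le_mul h3.le _ (by positivity) (by linarith)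
        refine hX.trans ?_
        apply mul_le_mul_of_nonneg_left hWτ (by positivity)
    _ = _ := by ring

end Pool.Agent.LibNL3
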