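import Pool.Agent.LibNL3.Base

/-! Third moment near the critical line: definitions. -/

set_option autoImplicit false

namespace Pool.Agent.LibNL3

open MeasureTheory Set Filter Topology Complex ProbabilityTheory
open scoped NNReal
open Pool.Agent.LibZM Pool.Agent.LibM3

/-- Truncation of `d_{3/2}`. -/
noncomputable def q3 (N : ℕ) : ArithmeticFunction ℝ := ⟨fun n => if n ≤ N then tau (3/2) n else 0, by simp⟩

lemma q3_apply (N n : ℕ) : q3 N n = if n ≤ N then tau (3/2) n else 0 := rfl

/-- The Dirichlet polynomial approximating `ζ^{3/2}`. -/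
noncomputable def P3 (N : ℕ) (s : ℂ) : ℂ := dp (q3 N) N s

/-- The polynomial part. -/
noncomputable def Q3 (N : ℕ) (s : ℂ) : ℂ := (s - 1) ^ 3 * P3 N s ^ 2

/-- The cube of `(s-1) ζ(s)`. -/
noncomputable def Z3 (s : ℂ) : ℂ := riemannZeta₁ s ^ 3

/-- The difference. -/
noncomputable def G3 (N : ℕ) (s : ℂ) : ℂ := Z3 s - Q3 N s

/-- Diagonal sum on the line at distance `d` from the critical line. -/
noncomputable def D3 (N : ℕ) (d : ℝ) : ℝ := ∑ n ∈ Finset.Icc 1 N, tau (3/2) n ^ 2 * (n:ℝ) ^ (-(1 + 2 * d))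

/-- Truncated main term at distance `d` from the critical line. -/
noncomputable def S3 (T d : ℝ) : ℝ := D3 ⌊T⌋₊ d

end Pool.Agent.LibNL3
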