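import Pool.Agent.LibNL3.Uniform
import Pool.Agent.LibNL3.Crit
import Pool.Agent.LibZM.NC6

/-! Third moment near the critical line: final form. -/

set_option autoImplicit false

namespace Pool.Agent.LibNL3

open MeasureTheory Set Filter Topology Complex ProbabilityTheory
open scoped NNReal
open Pool.Agent.LibZM Pool.Agent.LibM3

/-- The uniform formula with the numerical constant. -/
theorem third_final {η : ℝ} (hη : 0 < η) :
    ∀ᶠ T : ℝ in atTop, ∀ d : ℝ, 0 ≤ d → d ≤ 1/4 →
      |(∫ t in Icc 0 T, zl d t ^ 3) - T * S3 T d| ≤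
        η * (T * S3 T d) + 1045/1000 * (T * (L3 T * Real.exp (-(d * Real.log T)))) := by
  apply third_uniform (K₀ := 1042/1000) (by norm_num) (by norm_num) _ hη
  exact g3_crit const3_num

end Pool.Agent.LibNL3
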