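import Pool.Agent.LibNL3.Window
import Pool.Agent.LibNL3.Blocks

/-! Third moment near the critical line: bounds on `[0,T]`, uniform in the line (template: LibZM.NC4). -/

set_option autoImplicit false

namespace Pool.Agent.LibNL3

open MeasureTheory Set Filter Topology Complex ProbabilityTheory
open scoped NNReal
open Pool.Agent.LibZM Pool.Agent.LibM3

section lines

variable {d : ℝ}

lemma continuous_zl3 (hd1 : d ≤ 1/4) : Continuous (fun t => zl d t ^ 3) := (continuous_zl hd1).pow 3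

lemma zl3_nonneg (d t : ℝ) : 0 ≤ zl d t ^ 3 := pow_nonneg (zl_nonneg d t) 3

lemma zl3_le (hd0 : 0 ≤ d) (hd1 : d ≤ 1/4) (t : ℝ) : zl d t ^ 3 ≤ 24 ^ 3 * (1 + |t|) ^ 6 := by
  calc zl d t ^ 3 ≤ (24 * (1 + |t|) ^ 2) ^ 3 := pow_le_pow_left₀ (zl_nonneg d t) (zl_le hd0 hd1 t) 3
    _ = _ := by ring

lemma integrable_zl3 (hd0 : 0 ≤ d) (hd1 : d ≤ 1/4) (u : ℝ) (v : ℝ≥0) :
    Integrable (fun t => zl d t ^ 3) (gaussianReal u v) := by
  refine Integrable.mono' ((integrable_pow_gauss 6 u v).const_mul (24 ^ 3)) (continuous_zl3 hd1).aestronglyMeasurable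
    (Eventually.of_forall fun t => ?_)
  rw [Real.norm_eq_abs, abs_of_nonneg (zl3_nonneg d t)]
  exact zl3_le hd0 hd1 t

lemma Z3_line_eq (hd1 : d ≤ 1/4) (t : ℝ) :
    ‖Z3 (((1/2 + d : ℝ) : ℂ) + t * I)‖ = ‖(((1/2 + d : ℝ) : ℂ) + t * I) - 1‖ ^ 3 * zl d t ^ 3 := by
  unfold Z3
  rw [norm_pow, zeta1_line_eq hd1, mul_pow]

end lines

lemma inv_pow_tendsto : Tendsto (fun T : ℝ => (T ^ 1)⁻¹) atTop (𝓝 0) := by
  simp only [pow_one]
  exact tendsto_inv_atTop_zero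

/-- From the weighted window mean to the plain one, upper bound. -/
theorem line_up {ε ρ : ℝ} (hε : 0 < ε) (hρ : 0 < ρ) : ∀ᶠ p : ℝ × ℝ in Fl ε, ∀ d : ℝ, 0 ≤ d → d ≤ 1/4 →
    ∀ s : Set ℝ, MeasurableSet s →
    ∫ t in s, zl d t ^ 3 ∂(gaussianReal p.2 (vw p.1)) ≤ (1 + ρ) * (En Z3 p.2 (vw p.1) (1/2 + d) / p.2 ^ 3) + ρ := by
  obtain ⟨r, hr0, hr1, hr⟩ : ∃ r : ℝ, 0 < r ∧ r < 1/4 ∧ 1 < (1 + ρ) * (1 - r) ^ 3 := by
    apply exists_delta
    have c1 : ContinuousAt (fun r : ℝ => (1 + ρ) * (1 - r) ^ 3) 0 := by fun_prop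
    exact c1.eventually_const_lt (by norm_num; exact hρ)
  have t1 := tail_small hε hr0 6 1
  have t2 := (Fl_fst ε).eventually (inv_pow_tendsto.eventually_lt_const (u := ρ / 24 ^ 3) (by positivity))
  filter_upwards [t1, t2, Fl_pos hε] with p h1 h2 hp d hd0 hd1 s hs
  have hu0 : 0 < p.2 := by linarith [hp.2]
  obtain ⟨μ, hμ⟩ : ∃ μ : Measure ℝ, μ = gaussianReal p.2 (vw p.1) := ⟨_, rfl⟩
  have hi := integrable_zl3 hd0 hd1 p.2 (vw p.1)
  have hiZ := integrable_Z3 (x := 1/2 + d) (by linarith) (by linarith) p.2 (vw p.1)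
  have hiP := integrable_pow_gauss 6 p.2 (vw p.1)
  have hE : En Z3 p.2 (vw p.1) (1/2 + d) = ∫ t : ℝ, ‖Z3 (((1/2 + d : ℝ) : ℂ) + t * I)‖ ∂(gaussianReal p.2 (vw p.1)) := rfl
  rw [hE]
  rw [← hμ] at hi hiZ hiP h1 ⊢
  have hms : MeasurableSet {t : ℝ | r * p.2 < |t - p.2|} := by
    apply measurableSet_lt measurable_const
    fun_prop
  have hpt : ∀ t : ℝ, zl d t ^ 3 ≤ (1 + ρ) / p.2 ^ 3 * ‖Z3 (((1/2 + d : ℝ) : ℂ) + t * I)‖ +
      {t : ℝ | r * p.2 < |t - p.2|}.indicator (fun t => 24 ^ 3 * (1 + |t|) ^ 6) t := by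
    intro t
    by_cases ht : r * p.2 < |t - p.2|
    · rw [indicator_of_mem (show t ∈ {t : ℝ | r * p.2 < |t - p.2|} from ht)]
      have a1 := zl3_le hd0 hd1 t
      have a2 : 0 ≤ (1 + ρ) / p.2 ^ 3 * ‖Z3 (((1/2 + d : ℝ) : ℂ) + t * I)‖ := by positivity
      linarith
    · rw [indicator_of_notMem (show t ∉ {t : ℝ | r * p.2 < |t - p.2|} from ht), add_zero, Z3_line_eq hd1]
      push Not at ht
      rw [abs_le] at ht
      have a1 : (1 - r) * p.2 ≤ t := by linarith [ht.1]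
      have a2 : 0 < (1 - r) * p.2 := by
        have : 0 < 1 - r := by linarith
        positivity
      have a3 := (norm_line_bounds (x := 1/2 + d) (by linarith) (by linarith) t).1
      have a4 : (1 - r) * p.2 ≤ ‖(((1/2 + d : ℝ) : ℂ) + t * I) - 1‖ := by
        have : t ≤ |t| := le_abs_self t
        linarith
      have a5 : ((1 - r) * p.2) ^ 3 ≤ ‖(((1/2 + d : ℝ) : ℂ) + t * I) - 1‖ ^ 3 := pow_le_pow_left₀ a2.le a4 3
      have a6 := zl3_nonneg d t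
      calc zl d t ^ 3 = 1 * zl d t ^ 3 := (one_mul _).symm
        _ ≤ ((1 + ρ) * (1 - r) ^ 3) * zl d t ^ 3 := by gcongr
        _ = (1 + ρ) / p.2 ^ 3 * (((1 - r) * p.2) ^ 3 * zl d t ^ 3) := by field_simp
        _ ≤ _ := by gcongr
  have hii : Integrable (fun t => {t : ℝ | r * p.2 < |t - p.2|}.indicator (fun t => 24 ^ 3 * (1 + |t|) ^ 6) t) μ :=
    (hiP.const_mul _).indicator hms
  calc ∫ t in s, zl d t ^ 3 ∂μ ≤ ∫ t, zl d t ^ 3 ∂μ := 
        setIntegral_le_integral hi (Eventually.of_forall fun t => zl3_nonneg d t)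
    _ ≤ ∫ t, ((1 + ρ) / p.2 ^ 3 * ‖Z3 (((1/2 + d : ℝ) : ℂ) + t * I)‖ +
        {t : ℝ | r * p.2 < |t - p.2|}.indicator (fun t => 24 ^ 3 * (1 + |t|) ^ 6) t) ∂μ :=
        integral_mono hi ((hiZ.const_mul _).add hii) hpt
    _ = (1 + ρ) / p.2 ^ 3 * ∫ t, ‖Z3 (((1/2 + d : ℝ) : ℂ) + t * I)‖ ∂μ +
        24 ^ 3 * ∫ t in {t : ℝ | r * p.2 < |t - p.2|}, (1 + |t|) ^ 6 ∂μ := by
        rw [integral_add (hiZ.const_mul _) hii, integral_const_mul, integral_indicator hms, integral_const_mul]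
    _ ≤ _ := by
        have b1 : 24 ^ 3 * ∫ t in {t : ℝ | r * p.2 < |t - p.2|}, (1 + |t|) ^ 6 ∂μ ≤ ρ := by
          have b2 := h1.trans h2.le
          rw [le_div_iff₀ (by positivity)] at b2
          linarith
        have b3 : (1 + ρ) / p.2 ^ 3 * ∫ t, ‖Z3 (((1/2 + d : ℝ) : ℂ) + t * I)‖ ∂μ =
            (1 + ρ) * ((∫ t, ‖Z3 (((1/2 + d : ℝ) : ℂ) + t * I)‖ ∂μ) / p.2 ^ 3) := by ring
        rw [b3]
        linarith

/-- From the weighted window mean to the plain one, lower bound. -/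
theorem line_low {ε ρ : ℝ} (hε : 0 < ε) (hε1 : ε < 1) (hρ : 0 < ρ) (hρ1 : ρ < 1) : ∀ᶠ p : ℝ × ℝ in Fl ε,
    ∀ d : ℝ, 0 ≤ d → d ≤ 1/4 → p.2 ≤ (1 - ε) * p.1 →
    (1 - ρ) * (En Z3 p.2 (vw p.1) (1/2 + d) / p.2 ^ 3) - ρ ≤ ∫ t in Icc 0 p.1, zl d t ^ 3 ∂(gaussianReal p.2 (vw p.1)) := by
  obtain ⟨r, hr0, hr1, hr, hrε⟩ : ∃ r : ℝ, 0 < r ∧ r < 1/4 ∧ (1 - ρ) * (1 + 2 * r) ^ 3 < 1 ∧ r < ε := by
    apply exists_delta
    have c1 : ContinuousAt (fun r : ℝ => (1 - ρ) * (1 + 2 * r) ^ 3) 0 := by fun_prop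
    filter_upwards [c1.eventually_lt_const (u := 1) (by norm_num; exact hρ), gt_mem_nhds hε] with r h1 h2
    exact ⟨h1, h2⟩
  have t1 := tail_small hε hr0 6 1
  have t2 := (Fl_fst ε).eventually (inv_pow_tendsto.eventually_lt_const (u := ρ / 6 ^ 3) (by positivity))
  have t3 := (one_div_u hε).eventually_lt_const (u := r) hr0
  filter_upwards [t1, t2, t3, Fl_pos hε] with p h1 h2 h3 hp d hd0 hd1 hup
  have hT0 : 0 < p.1 := by linarith [hp.1]
  have hu0 : 0 < p.2 := by linarith [hp.2]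
  have hu1 : 1 ≤ p.2 := hp.2.le
  rw [div_lt_iff₀ hu0] at h3
  obtain ⟨μ, hμ⟩ : ∃ μ : Measure ℝ, μ = gaussianReal p.2 (vw p.1) := ⟨_, rfl⟩
  have hi := integrable_zl3 hd0 hd1 p.2 (vw p.1)
  have hiZ := integrable_Z3 (x := 1/2 + d) (by linarith) (by linarith) p.2 (vw p.1)
  have hiP := integrable_pow_gauss 6 p.2 (vw p.1)
  have hE : En Z3 p.2 (vw p.1) (1/2 + d) = ∫ t : ℝ, ‖Z3 (((1/2 + d : ℝ) : ℂ) + t * I)‖ ∂(gaussianReal p.2 (vw p.1)) := rfl
  rw [hE]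
  rw [← hμ] at hi hiZ hiP h1 ⊢
  have hms : MeasurableSet {t : ℝ | r * p.2 < |t - p.2|} := by
    apply measurableSet_lt measurable_const
    fun_prop
  have hpt : ∀ t : ℝ, ‖Z3 (((1/2 + d : ℝ) : ℂ) + t * I)‖ ≤ ((1 + 2 * r) * p.2) ^ 3 * (Icc 0 p.1).indicator (fun t => zl d t ^ 3) t +
      {t : ℝ | r * p.2 < |t - p.2|}.indicator (fun t => 6 ^ 3 * (1 + |t|) ^ 6) t := by
    intro t
    by_cases ht : r * p.2 < |t - p.2|
    · rw [indicator_of_mem (show t ∈ {t : ℝ | r * p.2 < |t - p.2|} from ht)]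
      have a1 := norm_Z3_line (b' := 1) le_rfl (x := 1/2 + d) ⟨by linarith, by linarith⟩ t
      have a2 : 0 ≤ ((1 + 2 * r) * p.2) ^ 3 * (Icc 0 p.1).indicator (fun t => zl d t ^ 3) t := by
        apply mul_nonneg (by positivity)
        exact indicator_nonneg (fun t _ => zl3_nonneg d t) t
      have a3 : (6 * (1:ℝ) ^ 2) ^ 3 = 6 ^ 3 := by norm_num
      rw [a3] at a1
      linarith
    · rw [indicator_of_notMem (show t ∉ {t : ℝ | r * p.2 < |t - p.2|} from ht), add_zero, Z3_line_eq hd1]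
      push Not at ht
      rw [abs_le] at ht
      have a1 : 0 ≤ t := by nlinarith [ht.1]
      have a2 : t ≤ (1 + r) * p.2 := by linarith [ht.2]
      have a3 : t ≤ p.1 := by
        have b1 : (1 + r) * p.2 ≤ (1 + ε) * ((1 - ε) * p.1) := by gcongr
        have b2 : (1 + ε) * ((1 - ε) * p.1) ≤ p.1 := by nlinarith [sq_nonneg ε]
        linarith
      rw [indicator_of_mem (show t ∈ Icc 0 p.1 from ⟨a1, a3⟩)]
      have a4 := (norm_line_bounds (x := 1/2 + d) (by linarith) (by linarith) t).2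
      rw [abs_of_nonneg a1] at a4
      have a5 : ‖(((1/2 + d : ℝ) : ℂ) + t * I) - 1‖ ≤ (1 + 2 * r) * p.2 := by linarith
      have a6 := zl3_nonneg d t
      gcongr
  have hii : Integrable (fun t => {t : ℝ | r * p.2 < |t - p.2|}.indicator (fun t => 6 ^ 3 * (1 + |t|) ^ 6) t) μ :=
    (hiP.const_mul _).indicator hms
  have hi0 : Integrable ((Icc 0 p.1).indicator (fun t => zl d t ^ 3)) μ := hi.indicator measurableSet_Icc
  obtain ⟨J, hJ⟩ : ∃ J : ℝ, J = ∫ t in Icc 0 p.1, zl d t ^ 3 ∂μ := ⟨_, rfl⟩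
  rw [← hJ]
  have hJ0 : 0 ≤ J := by rw [hJ]; exact integral_nonneg fun t => zl3_nonneg d t
  have hmain : ∫ t : ℝ, ‖Z3 (((1/2 + d : ℝ) : ℂ) + t * I)‖ ∂μ ≤ ((1 + 2 * r) * p.2) ^ 3 * J + ρ := by
    calc ∫ t : ℝ, ‖Z3 (((1/2 + d : ℝ) : ℂ) + t * I)‖ ∂μ ≤ 
        ∫ t, (((1 + 2 * r) * p.2) ^ 3 * (Icc 0 p.1).indicator (fun t => zl d t ^ 3) t +
        {t : ℝ | r * p.2 < |t - p.2|}.indicator (fun t => 6 ^ 3 * (1 + |t|) ^ 6) t) ∂μ :=
        integral_mono hiZ ((hi0.const_mul _).add hii) hpt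
      _ = ((1 + 2 * r) * p.2) ^ 3 * J + 6 ^ 3 * ∫ t in {t : ℝ | r * p.2 < |t - p.2|}, (1 + |t|) ^ 6 ∂μ := by
        rw [integral_add (hi0.const_mul _) hii, integral_const_mul, integral_indicator hms, integral_const_mul,
          integral_indicator measurableSet_Icc, hJ]
      _ ≤ _ := by
        have b1 : 6 ^ 3 * ∫ t in {t : ℝ | r * p.2 < |t - p.2|}, (1 + |t|) ^ 6 ∂μ ≤ ρ := by
          have b2 := h1.trans h2.le
          rw [le_div_iff₀ (by positivity)] at b2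
          linarith
        linarith
  obtain ⟨Z, hZ⟩ : ∃ Z : ℝ, Z = ∫ t : ℝ, ‖Z3 (((1/2 + d : ℝ) : ℂ) + t * I)‖ ∂μ := ⟨_, rfl⟩
  rw [← hZ] at hmain ⊢
  have hU : 1 ≤ p.2 ^ 3 := one_le_pow₀ hu1
  have hU0 : 0 < p.2 ^ 3 := by positivity
  have k1 : Z / p.2 ^ 3 ≤ (1 + 2 * r) ^ 3 * J + ρ := by
    rw [div_le_iff₀ hU0]
    have k2 : ρ ≤ ρ * p.2 ^ 3 := le_mul_of_one_le_right hρ.le hU
    calc Z ≤ ((1 + 2 * r) * p.2) ^ 3 * J + ρ := hmain
      _ ≤ (1 + 2 * r) ^ 3 * J * p.2 ^ 3 + ρ * p.2 ^ 3 := by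
          have : ((1 + 2 * r) * p.2) ^ 3 * J = (1 + 2 * r) ^ 3 * J * p.2 ^ 3 := by ring
          linarith
      _ = _ := by ring
  have k3 : (1 - ρ) * (Z / p.2 ^ 3) ≤ (1 - ρ) * ((1 + 2 * r) ^ 3 * J + ρ) := mul_le_mul_of_nonneg_left k1 (by linarith)
  have k4 : (1 - ρ) * (1 + 2 * r) ^ 3 * J ≤ 1 * J := mul_le_mul_of_nonneg_right hr.le hJ0
  have k5 : (1 - ρ) * ρ ≤ ρ := by nlinarith
  nlinarith

/-- Upper bound on `[0,T]`, uniform in the line. -/
theorem upper_line3 {K η κ : ℝ} (hK : 1 ≤ K) (hη : 0 < η) (hη1 : η ≤ 1) (hκ0 : 0 ≤ κ) (hκ : κ < 1)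
    (hcrit : ∀ᶠ θ : ℝ in 𝓝[<] (1:ℝ), ∀ ε : ℝ, 0 < ε → ∀ᶠ p : ℝ × ℝ in Fl ε,
      En (G3 (NT θ p.1)) p.2 (vw p.1) (1/2) ≤ K * (p.2 ^ 3 * L3 p.1)) :
    ∀ᶠ T : ℝ in atTop, ∀ d : ℝ, 0 ≤ d → d ≤ 1/4 →
      ∫ t in Icc 0 T, zl d t ^ 3 ≤ (1 + η) * (T * S3 T d) + (K + η) / (1 - κ * d) * (T * (L3 T * Real.exp (-(κ * d * Real.log T)))) := by
  have hK0 : 0 < K := by linarith
  obtain ⟨δ, hδ0, hδ1, hA, hB, hδη⟩ : ∃ δ : ℝ, 0 < δ ∧ δ < 1/4 ∧
      (1 + δ) * ((1 + δ) * (1 + δ) + δ) < (1 - δ) ^ 2 * (1 + η / 2) ∧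
      (1 + δ) * ((1 + δ) * ((1 + δ) * δ + (K + δ) * (1 + δ) ^ 3) + δ * δ) < (1 - δ) ^ 2 * (K + η / 2) ∧ δ < η := by
    apply exists_delta
    have c1 : ContinuousAt (fun δ : ℝ => (1 - δ) ^ 2 * (1 + η / 2) - (1 + δ) * ((1 + δ) * (1 + δ) + δ)) 0 := by fun_prop
    have c2 : ContinuousAt (fun δ : ℝ => (1 - δ) ^ 2 * (K + η / 2) - (1 + δ) * ((1 + δ) * ((1 + δ) * δ + (K + δ) * (1 + δ) ^ 3) + δ * δ)) 0 := by fun_prop
    have d1 := c1.eventually_const_lt (u := 0) (by norm_num; linarith)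
    have d2 := c2.eventually_const_lt (u := 0) (by norm_num; linarith)
    filter_upwards [d1, d2, gt_mem_nhds hη] with x h1 h2 h3
    exact ⟨by linarith, by linarith, h3⟩
  have hwin := window3 hK hδ0 (by linarith) hκ0 hκ hcrit
  have hscale : Tendsto (fun T : ℝ => (1 + δ) * T) atTop atTop := tendsto_id.const_mul_atTop (by linarith)
  have w1 := hscale.eventually (Fl_iff.mp (hwin (δ / 4) (by positivity)))
  have w2 := block_up3 hδ0 hδ1
  have w3 := hscale.eventually (Fl_iff.mp (line_up (ε := δ / 4) (ρ := δ) (by positivity) hδ0))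
  have w4 := S3_dilate hδ0 (by linarith : δ ≤ 1) hδ0
  have hblk : ∀ᶠ T : ℝ in atTop, ∀ d : ℝ, 0 ≤ d → d ≤ 1/4 → ∫ t in Icc (δ * T) T, zl d t ^ 3 ≤
      (1 - δ) * ((1 + η / 2) * (T * S3 T d) + (K + η / 2) * (T ^ (1 - κ * d) * L3 T)) := by
    filter_upwards [w1, w2, w3, w4, L3_dilate hδ0 (by linarith), eventually_gt_atTop 1] with T h1 h2 h3 h4 h5 hT d hd0 hd1
    have hT0 : 0 < T := by linarith
    have hl := Real.log_pos hT
    have hS1 : 1 < (1 + δ) * T := by nlinarith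
    have hLT := L3_pos hT
    have hLS := L3_pos hS1
    obtain ⟨E, hE⟩ : ∃ E : ℝ, E = Real.exp (-(κ * d * Real.log T)) := ⟨_, rfl⟩
    have hE0 : 0 < E := by rw [hE]; exact Real.exp_pos _
    obtain ⟨w, hw⟩ : ∃ w : ℝ, w = (1 + δ) * S3 ((1 + δ) * T) d + (K + δ) * (L3 ((1 + δ) * T) * Real.exp (-(κ * d * Real.log ((1 + δ) * T)))) := ⟨_, rfl⟩
    have hSN1 := one_le_S3 hS1.le d
    have hw0 : 0 ≤ w := by
      rw [hw]
      have : 0 ≤ S3 ((1 + δ) * T) d := by linarith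
      positivity
    have hm := h2 (fun t => zl d t ^ 3) (continuous_zl3 hd1) (zl3_nonneg d) ((1 + δ) * w + δ) (by positivity)
      (fun u hu1 hu2 => by
        have hu0 : 0 < u := lt_of_lt_of_le (by positivity) hu1
        have e1 := h3 u hu1 hu2 d hd0 hd1 (Icc (δ * T) T) measurableSet_Icc
        have e2 := (h1 u hu1 hu2 d hd0 hd1).1
        refine e1.trans ?_
        have e3 : En Z3 u (vw ((1 + δ) * T)) (1/2 + d) / u ^ 3 ≤ w := by
          rw [div_le_iff₀ (by positivity), hw]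
          exact e2
        show (1 + δ) * (En Z3 u (vw ((1 + δ) * T)) (1/2 + d) / u ^ 3) + δ ≤ (1 + δ) * w + δ
        gcongr)
    have hexp2 : Real.exp (-(2 * d * Real.log T)) ≤ E := by
      rw [hE]
      apply Real.exp_le_exp.mpr
      rw [neg_le_neg_iff]
      apply mul_le_mul_of_nonneg_right _ hl.le
      apply mul_le_mul_of_nonneg_right _ hd0
      linarith
    have hSdil : S3 ((1 + δ) * T) d ≤ S3 T d + δ * (L3 T * E) := by
      refine (h4 d hd0).trans ?_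
      gcongr
    have hEdil : Real.exp (-(κ * d * Real.log ((1 + δ) * T))) ≤ E := by
      rw [hE]
      apply Real.exp_le_exp.mpr
      rw [neg_le_neg_iff]
      have := Real.log_le_log hT0 (show T ≤ (1 + δ) * T by nlinarith)
      gcongr
    have hS0 : 0 ≤ S3 T d := by linarith [one_le_S3 hT.le d]
    have hcle : (1 + δ) * w + δ ≤ ((1 + δ) * (1 + δ) + δ) * S3 T d + ((1 + δ) * ((1 + δ) * δ + (K + δ) * (1 + δ) ^ 3) + δ * δ) * (L3 T * E) := by
      have b1 : w ≤ (1 + δ) * (S3 T d + δ * (L3 T * E)) + (K + δ) * (((1 + δ) ^ 3 * L3 T) * E) := by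
        rw [hw]; gcongr
      have b2 : δ ≤ δ * S3 T d := le_mul_of_one_le_right hδ0.le (one_le_S3 hT.le d)
      have b3 : 0 ≤ δ * δ * (L3 T * E) := by positivity
      calc (1 + δ) * w + δ ≤ (1 + δ) * ((1 + δ) * (S3 T d + δ * (L3 T * E)) + (K + δ) * (((1 + δ) ^ 3 * L3 T) * E)) + δ * S3 T d := by gcongr
        _ ≤ (1 + δ) * ((1 + δ) * (S3 T d + δ * (L3 T * E)) + (K + δ) * (((1 + δ) ^ 3 * L3 T) * E)) + δ * S3 T d + δ * δ * (L3 T * E) := by linarith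
        _ = _ := by ring
    have hTa : T ^ (1 - κ * d) = T * E := by
      rw [hE, Real.rpow_sub hT0, Real.rpow_one, Real.rpow_def_of_pos hT0, div_eq_mul_inv, ← Real.exp_neg]
      congr 2; ring
    rw [hTa]
    obtain ⟨J, hJ⟩ : ∃ J : ℝ, J = ∫ t in Icc (δ * T) T, zl d t ^ 3 := ⟨_, rfl⟩
    rw [← hJ] at hm ⊢
    have hm3 : ((1 + δ) * w + δ) * ((1 + δ) * T) ≤ (1 - δ) ^ 2 * ((1 + η / 2) * (T * S3 T d) + (K + η / 2) * (T * E * L3 T)) := by
      have a1 : ((1 + δ) * w + δ) * ((1 + δ) * T) ≤ (((1 + δ) * (1 + δ) + δ) * S3 T d + ((1 + δ) * ((1 + δ) * δ + (K + δ) * (1 + δ) ^ 3) + δ * δ) * (L3 T * E)) * ((1 + δ) * T) := by gcongr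
      have a2 : (1 + δ) * ((1 + δ) * (1 + δ) + δ) * (T * S3 T d) ≤ (1 - δ) ^ 2 * (1 + η / 2) * (T * S3 T d) := by
        apply mul_le_mul_of_nonneg_right hA.le
        positivity
      have a3 : (1 + δ) * ((1 + δ) * ((1 + δ) * δ + (K + δ) * (1 + δ) ^ 3) + δ * δ) * (T * E * L3 T) ≤ (1 - δ) ^ 2 * (K + η / 2) * (T * E * L3 T) := by
        apply mul_le_mul_of_nonneg_right hB.le
        positivity
      calc _ ≤ _ := a1
        _ = (1 + δ) * ((1 + δ) * (1 + δ) + δ) * (T * S3 T d) + (1 + δ) * ((1 + δ) * ((1 + δ) * δ + (K + δ) * (1 + δ) ^ 3) + δ * δ) * (T * E * L3 T) := by ring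
        _ ≤ (1 - δ) ^ 2 * (1 + η / 2) * (T * S3 T d) + (1 - δ) ^ 2 * (K + η / 2) * (T * E * L3 T) := add_le_add a2 a3
        _ = _ := by ring
    have hδpos : 0 < 1 - δ := by linarith
    have hfin : (1 - δ) * J ≤ (1 - δ) * ((1 - δ) * ((1 + η / 2) * (T * S3 T d) + (K + η / 2) * (T * E * L3 T))) := by
      calc (1 - δ) * J ≤ _ := hm
        _ ≤ _ := hm3
        _ = _ := by ring
    exact le_of_mul_le_mul_left hfin hδpos
  obtain ⟨T0, hT0⟩ := eventually_atTop.mp (hblk.and (eventually_ge_atTop 1))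
  have hT01 : 1 ≤ T0 := (hT0 T0 le_rfl).2
  obtain ⟨C0, hC0⟩ : ∃ C0 : ℝ, C0 = 24 ^ 3 * (1 + T0) ^ 6 * T0 := ⟨_, rfl⟩
  filter_upwards [eventually_ge_atTop T0, eventually_ge_atTop (C0 / (η / 2))] with T hT hTC d hd0 hd1
  have hT1 : 1 ≤ T := by linarith
  have hTpos : 0 < T := by linarith
  have hκd : κ * d ≤ 1/4 := by nlinarith
  have hκd0 : 0 ≤ κ * d := by positivity
  have hC0b : ∫ t in Icc 0 T0, zl d t ^ 3 ≤ C0 := by
    have h1 : ∫ t in Icc 0 T0, zl d t ^ 3 ≤ ∫ t in Icc 0 T0, 24 ^ 3 * (1 + T0) ^ 6 := by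
      refine setIntegral_mono_on ((continuous_zl3 hd1).continuousOn.integrableOn_compact isCompact_Icc) (continuous_const.continuousOn.integrableOn_compact isCompact_Icc) measurableSet_Icc fun t ht => ?_
      refine (zl3_le hd0 hd1 t).trans ?_
      rw [abs_of_nonneg ht.1]
      have := ht.1
      have := ht.2
      gcongr
    refine h1.trans (le_of_eq ?_)
    rw [setIntegral_const, smul_eq_mul, measureReal_def, Real.volume_Icc, ENNReal.toReal_ofReal (by linarith), hC0]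
    ring
  have hsum := block_sum (f := fun t => zl d t ^ 3) (A := fun T => S3 T d) (Λ := L3) (continuous_zl3 hd1) (zl3_nonneg d) hδ0 (by linarith : δ < 1)
    (a := 1 - κ * d) (by linarith) (by linarith) (c1 := 1 + η / 2) (c2 := K + η / 2) (C0 := C0) (T0 := T0) (by positivity) (by positivity) hT01
    (fun T hT => by have := one_le_S3 hT d; linarith) (fun S T _ hST => S3_mono hST d)
    (fun T hT => L3_nonneg hT) (fun S T hS hST => L3_mono hS hST)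
    hC0b (fun T hT => (hT0 T hT).1 d hd0 hd1) T hT
  have hTa : T ^ (1 - κ * d) = T * Real.exp (-(κ * d * Real.log T)) := by
    rw [Real.rpow_sub hTpos, Real.rpow_one, Real.rpow_def_of_pos hTpos, div_eq_mul_inv, ← Real.exp_neg]
    congr 2; ring
  rw [hTa] at hsum
  have hC0' : C0 ≤ η / 2 * (T * S3 T d) := by
    rw [div_le_iff₀ (by positivity)] at hTC
    have h1 := one_le_S3 hT1 d
    have h2 : T ≤ T * S3 T d := le_mul_of_one_le_right hTpos.le h1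
    nlinarith
  have hLT : 0 ≤ L3 T := L3_nonneg hT1
  have hlast : (K + η / 2) / (1 - κ * d) * (T * Real.exp (-(κ * d * Real.log T)) * L3 T) ≤
      (K + η) / (1 - κ * d) * (T * (L3 T * Real.exp (-(κ * d * Real.log T)))) := by
    have e : T * Real.exp (-(κ * d * Real.log T)) * L3 T = T * (L3 T * Real.exp (-(κ * d * Real.log T))) := by ring
    rw [e]
    apply mul_le_mul_of_nonneg_right
    · apply div_le_div_of_nonneg_right _ (by linarith)
      linarith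
    · positivity
  linarith

/-- Lower bound on `[0,T]`, uniform in the line. -/
theorem lower_line3 {K η κ : ℝ} (hK : 1 ≤ K) (hη : 0 < η) (hη1 : η ≤ 1) (hκ0 : 0 ≤ κ) (hκ : κ < 1)
    (hcrit : ∀ᶠ θ : ℝ in 𝓝[<] (1:ℝ), ∀ ε : ℝ, 0 < ε → ∀ᶠ p : ℝ × ℝ in Fl ε,
      En (G3 (NT θ p.1)) p.2 (vw p.1) (1/2) ≤ K * (p.2 ^ 3 * L3 p.1)) :
    ∀ᶠ T : ℝ in atTop, ∀ d : ℝ, 0 ≤ d → d ≤ 1/4 →
      (1 - η) * (T * S3 T d) - (K + η) * (T * (L3 T * Real.exp (-(κ * d * Real.log T)))) ≤ ∫ t in Icc 0 T, zl d t ^ 3 := by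
  have hK0 : 0 < K := by linarith
  obtain ⟨ε, hε⟩ : ∃ x : ℝ, x = η / 8 := ⟨_, rfl⟩
  have hε0 : 0 < ε := by rw [hε]; positivity
  have hε1 : ε < 1/4 := by rw [hε]; linarith
  have hwin := window3 hK hε0 (by linarith) hκ0 hκ hcrit
  filter_upwards [Fl_iff.mp (hwin ε hε0), block_low3 hε0 hε1, Fl_iff.mp (line_low hε0 (by linarith) hε0 (by linarith)),
    eventually_gt_atTop 1] with T h1 h2 h3 hT d hd0 hd1
  have hT0 : 0 < T := by linarith
  have hL := L3_pos hT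
  have hSN := one_le_S3 hT.le d
  obtain ⟨X, hX⟩ : ∃ X : ℝ, X = L3 T * Real.exp (-(κ * d * Real.log T)) := ⟨_, rfl⟩
  have hX0 : 0 < X := by rw [hX]; positivity
  obtain ⟨c, hc⟩ : ∃ c : ℝ, c = (1 - ε) * S3 T d - (K + ε) * X := ⟨_, rfl⟩
  rw [← hX]
  have hint0 : 0 ≤ ∫ t in Icc 0 T, zl d t ^ 3 := integral_nonneg fun t => zl3_nonneg d t
  rcases le_or_gt c 0 with hc0 | hc0
  · have e1 : (1 - η) * (T * S3 T d) - (K + η) * (T * X) ≤ T * c := by
      have b1 : (1 - η) * (T * S3 T d) ≤ (1 - ε) * (T * S3 T d) := by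
        apply mul_le_mul_of_nonneg_right (by rw [hε]; linarith)
        have : 0 ≤ S3 T d := by linarith
        positivity
      have b2 : (K + ε) * (T * X) ≤ (K + η) * (T * X) := by
        apply mul_le_mul_of_nonneg_right (by rw [hε]; linarith)
        positivity
      have e : T * c = (1 - ε) * (T * S3 T d) - (K + ε) * (T * X) := by rw [hc]; ring
      rw [e]; linarith
    have e2 : T * c ≤ 0 := mul_nonpos_of_nonneg_of_nonpos hT0.le hc0
    linarith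
  · have hm := h2 (fun t => zl d t ^ 3) (continuous_zl3 hd1) (zl3_nonneg d) ((1 - ε) * c - ε)
      (fun u hu1 hu2 => by
        have huT : u ≤ T := by nlinarith
        have hu0 : 0 < u := lt_of_lt_of_le (by positivity) hu1
        have e1 := h3 u hu1 huT d hd0 hd1 hu2
        have e2 := (h1 u hu1 huT d hd0 hd1).2
        refine le_trans ?_ e1
        have e3 : c ≤ En Z3 u (vw T) (1/2 + d) / u ^ 3 := by
          rw [le_div_iff₀ (by positivity), hc, hX]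
          exact e2
        show (1 - ε) * c - ε ≤ (1 - ε) * (En Z3 u (vw T) (1/2 + d) / u ^ 3) - ε
        have e4 : (1 - ε) * c ≤ (1 - ε) * (En Z3 u (vw T) (1/2 + d) / u ^ 3) := mul_le_mul_of_nonneg_left e3 (by linarith)
        linarith)
    refine le_trans ?_ hm
    have hcS : c ≤ S3 T d := by
      rw [hc]
      have : 0 ≤ (K + ε) * X := by positivity
      nlinarith
    have hA : c - 3 * ε * c - ε ≤ (1 - 2 * ε) * ((1 - ε) * c - ε) := by
      have e : (1 - 2 * ε) * ((1 - ε) * c - ε) - (c - 3 * ε * c - ε) = 2 * ε ^ 2 * c + 2 * ε ^ 2 := by ring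
      have : 0 ≤ 2 * ε ^ 2 * c + 2 * ε ^ 2 := by positivity
      linarith
    have hB : (1 - η) * S3 T d - (K + η) * X ≤ c - 3 * ε * c - ε := by
      have b1 : (K + ε) * X ≤ (K + η) * X := by
        apply mul_le_mul_of_nonneg_right (by rw [hε]; linarith) hX0.le
      have b2 : 3 * ε * c ≤ 3 * ε * S3 T d := by gcongr
      have b3 : ε ≤ ε * S3 T d := le_mul_of_one_le_right hε0.le hSN
      have b4 : (1 - η) * S3 T d ≤ (1 - ε) * S3 T d - 3 * ε * S3 T d - ε * S3 T d := by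
        rw [hε]
        have : 0 ≤ η * S3 T d := by
          have : 0 ≤ S3 T d := by linarith
          positivity
        nlinarith
      rw [hc] at b2 ⊢
      linarith
    calc (1 - η) * (T * S3 T d) - (K + η) * (T * X) = T * ((1 - η) * S3 T d - (K + η) * X) := by ring
      _ ≤ T * ((1 - 2 * ε) * ((1 - ε) * c - ε)) := by
          apply mul_le_mul_of_nonneg_left (hB.trans hA) hT0.le
      _ = _ := by ring

end Pool.Agent.LibNL3
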