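import Pool.Agent.LibNL3.Sums

/-! Third moment near the critical line: size of the main term (templates: LibZM.NC5). -/

set_option autoImplicit false

namespace Pool.Agent.LibNL3

open MeasureTheory Set Filter Topology Complex ProbabilityTheory
open scoped NNReal
open Pool.Agent.LibZM Pool.Agent.LibM3

lemma Pint3_pos : 0 < Pint (9/4) 0 1 := by
  unfold Pint
  apply div_pos _ (Real.Gamma_pos_of_pos (by norm_num))
  apply intervalIntegral.intervalIntegral_pos_of_pos_on (intervalIntegrable_Pint (by norm_num) 0 0 1) _ one_pos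
  intro x hx
  have := hx.1
  positivity

lemma d3_crit_lower : ∃ c₀ : ℝ, 0 < c₀ ∧ ∀ X : ℝ, Real.exp 1 ≤ X → c₀ * (Real.log X) ^ (9/4:ℝ) ≤ D3 ⌊X⌋₊ 0 := by
  have hP := Pint3_pos
  have hA := Aconst_pos (κ := 3/2) (by norm_num)
  have t1 := (D3_tendsto 0 (θ := 1) one_pos).eventually_const_lt (u := Pint (9/4) 0 1 / 2) (by linarith)
  obtain ⟨X0, hX0⟩ := eventually_atTop.mp (t1.and (eventually_ge_atTop (Real.exp 1)))
  have hX0e : Real.exp 1 ≤ X0 := (hX0 X0 le_rfl).2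
  have he1 : 1 < Real.exp 1 := by rw [Real.one_lt_exp_iff]; norm_num
  have hlX0 : 1 ≤ Real.log X0 := by
    have := Real.log_le_log (by positivity) hX0e
    rwa [Real.log_exp] at this
  refine ⟨min (Pint (9/4) 0 1 / 2 * Aconst (3/2)) ((Real.log X0) ^ (9/4:ℝ))⁻¹, lt_min (by positivity) (by positivity), fun X hX => ?_⟩
  have hX1 : 1 < X := by linarith
  have hlX : 0 < Real.log X := Real.log_pos hX1
  rcases le_or_gt X0 X with h | h
  · have h1 := (hX0 X h).1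
    have e0 : (0 / Real.log X : ℝ) = 0 := by rw [zero_div]
    have hN1 : NT 1 X = ⌊X⌋₊ := by unfold NT; rw [Real.rpow_one]
    rw [e0, hN1, lt_div_iff₀ (L3_pos hX1)] at h1
    refine le_trans ?_ h1.le
    unfold L3
    calc _ ≤ (Pint (9/4) 0 1 / 2 * Aconst (3/2)) * (Real.log X) ^ (9/4:ℝ) := by
          apply mul_le_mul_of_nonneg_right (min_le_left _ _) (by positivity)
      _ = _ := by ring
  · have h1 := one_le_D3 (N := ⌊X⌋₊) (Nat.le_floor (by simpa using hX1.le)) 0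
    refine le_trans ?_ h1
    calc _ ≤ ((Real.log X0) ^ (9/4:ℝ))⁻¹ * (Real.log X) ^ (9/4:ℝ) := by
          apply mul_le_mul_of_nonneg_right (min_le_right _ _) (by positivity)
      _ ≤ ((Real.log X0) ^ (9/4:ℝ))⁻¹ * (Real.log X0) ^ (9/4:ℝ) := by
          have := Real.log_le_log (by linarith) h.le
          gcongr
      _ = 1 := inv_mul_cancel₀ (by positivity)

/-- Away from the critical line the convexity term is negligible. -/
theorem far_small3 {η : ℝ} (hη : 0 < η) : ∃ Λ : ℝ, 0 < Λ ∧ ∀ T d : ℝ, 1 < T → 0 ≤ d → d ≤ 1/4 → Λ ≤ d * Real.log T →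
    L3 T * Real.exp (-(d * Real.log T) / 2) ≤ η * S3 T d := by
  obtain ⟨c₀, hc0, hc⟩ := d3_crit_lower
  have hA := Aconst_pos (κ := 3/2) (by norm_num)
  have hlim := lim_exp (a := 1/2) (ε := 1) (by norm_num) one_pos (9/4)
  have hev := hlim.eventually_lt_const (u := η * c₀ * Real.exp (-2) / Aconst (3/2)) (by positivity)
  obtain ⟨Λ, hΛ⟩ := eventually_atTop.mp (hev.and (eventually_ge_atTop 1))
  have hΛ1 : 1 ≤ Λ := (hΛ Λ le_rfl).2
  refine ⟨Λ, by linarith, fun T d hT hd0 hd1 hx => ?_⟩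
  have hT0 : 0 < T := by linarith
  have hl := Real.log_pos hT
  have hdpos : 0 < d := by
    rcases hd0.eq_or_lt with h | h
    · rw [← h, zero_mul] at hx; linarith
    · exact h
  obtain ⟨x, hxd⟩ : ∃ x : ℝ, x = d * Real.log T := ⟨_, rfl⟩
  have hx1 : 1 ≤ x := by rw [hxd]; linarith
  have h1 := (hΛ x (by rw [hxd]; exact hx)).1
  rw [Real.rpow_one, lt_div_iff₀ hA] at h1
  -- lower bound for the sum
  obtain ⟨X, hX⟩ : ∃ X : ℝ, X = Real.exp (1/d) := ⟨_, rfl⟩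
  have hXT : X ≤ T := by
    rw [hX, ← Real.le_log_iff_exp_le hT0, div_le_iff₀ hdpos]
    rw [hxd] at hx1; linarith
  have hXe : Real.exp 1 ≤ X := by
    rw [hX]
    apply Real.exp_le_exp.mpr
    rw [le_div_iff₀ hdpos]; linarith
  have hlogX : Real.log X = 1/d := by rw [hX, Real.log_exp]
  have h2 := hc X hXe
  rw [hlogX] at h2
  have h3 : Real.exp (-2) * D3 ⌊X⌋₊ 0 ≤ S3 T d := by
    unfold S3
    refine le_trans ?_ (D3_mono (Nat.floor_le_floor hXT) d)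
    unfold D3
    rw [Finset.mul_sum]
    refine Finset.sum_le_sum fun n hn => ?_
    obtain ⟨hn1, hn2⟩ := Finset.mem_Icc.mp hn
    have hn0 : (0:ℝ) < n := by exact_mod_cast hn1
    have hnX : (n:ℝ) ≤ X := (Nat.le_floor_iff (by rw [hX]; positivity)).mp hn2
    have h4 : Real.exp (-2) ≤ (n:ℝ) ^ (-(2 * d)) := by
      rw [Real.rpow_def_of_pos hn0]
      apply Real.exp_le_exp.mpr
      have h5 := Real.log_le_log hn0 hnX
      rw [hlogX] at h5
      have h6 : Real.log n * d ≤ 1 := by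
        calc Real.log n * d ≤ 1/d * d := by gcongr
          _ = 1 := by field_simp
      nlinarith
    have e1 : (n:ℝ) ^ (-(1 + 2 * d)) = (n:ℝ) ^ (-(2 * d)) * (n:ℝ) ^ (-(1 + 2 * (0:ℝ))) := by
      rw [← Real.rpow_add hn0]; congr 1; ring
    rw [e1]
    calc Real.exp (-2) * (tau (3/2) n ^ 2 * (n:ℝ) ^ (-(1 + 2 * (0:ℝ)))) ≤ (n:ℝ) ^ (-(2 * d)) * (tau (3/2) n ^ 2 * (n:ℝ) ^ (-(1 + 2 * (0:ℝ)))) := by
          gcongr
      _ = _ := by ring
  have hLam : L3 T = Aconst (3/2) * (x ^ (9/4:ℝ) * (1/d) ^ (9/4:ℝ)) := by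
    unfold L3
    rw [← Real.mul_rpow (by linarith) (by positivity)]
    congr 2
    rw [hxd]; field_simp
  have e2 : Real.exp (-(d * Real.log T) / 2) = Real.exp (-(1/2 * x)) := by rw [hxd]; congr 1; ring
  rw [e2, hLam]
  have h4 : 0 < (1/d) ^ (9/4:ℝ) := by positivity
  calc Aconst (3/2) * (x ^ (9/4:ℝ) * (1/d) ^ (9/4:ℝ)) * Real.exp (-(1/2 * x)) 
      = (x ^ (9/4:ℝ) * Real.exp (-(1/2 * x)) * Aconst (3/2)) * (1/d) ^ (9/4:ℝ) := by ring
    _ ≤ (η * c₀ * Real.exp (-2)) * (1/d) ^ (9/4:ℝ) := by gcongr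
    _ = η * (Real.exp (-2) * (c₀ * (1/d) ^ (9/4:ℝ))) := by ring
    _ ≤ η * (Real.exp (-2) * D3 ⌊X⌋₊ 0) := by gcongr
    _ ≤ η * S3 T d := by gcongr

/-- The truncated sum near the critical line. -/
theorem S3_near {δ : ℝ → ℝ} (hδ : Tendsto δ atTop (𝓝 0)) (hδL : Tendsto (fun T => δ T * Real.log T) atTop atTop) :
    Tendsto (fun T => S3 T (δ T) * (2 * δ T) ^ (9/4:ℝ)) atTop (𝓝 (Aconst (3/2))) := by
  have hpos : ∀ᶠ T : ℝ in atTop, 0 < δ T := by
    filter_upwards [hδL.eventually_gt_atTop 0, eventually_gt_atTop 1] with T h1 h2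
    exact (mul_pos_iff_of_pos_right (Real.log_pos h2)).mp h1
  have hF := tendsto_tau_sq (κ := 3/2) (by norm_num)
  have e4 : ((3:ℝ)/2) ^ 2 = 9/4 := by norm_num
  rw [e4] at hF
  have w1 : Tendsto δ atTop (𝓝[>] 0) := tendsto_nhdsWithin_of_tendsto_nhds_of_eventually_within _ hδ hpos
  have w2 : Tendsto (fun T => 2 * δ T) atTop (𝓝[>] 0) := by
    apply tendsto_nhdsWithin_of_tendsto_nhds_of_eventually_within
    · have := hδ.const_mul 2
      rwa [mul_zero] at this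
    · filter_upwards [hpos] with T hT
      rw [mem_Ioi]; positivity
  have g1 := hF.comp w1
  have g2 := hF.comp w2
  have g3 : Tendsto (fun T => Real.exp (-(δ T * Real.log T))) atTop (𝓝 0) := Real.tendsto_exp_neg_atTop_nhds_zero.comp hδL
  have g4 := (g3.mul g1).const_mul ((2:ℝ) ^ (9/4:ℝ))
  rw [zero_mul, mul_zero] at g4
  have g5 := g2.sub g4
  rw [sub_zero] at g5
  have key : ∀ᶠ T : ℝ in atTop, 
      (2 * δ T) ^ (9/4:ℝ) * (∑' n : ℕ, tau (3/2) n ^ 2 * (n:ℝ) ^ (-(1 + 2 * δ T))) - 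
        (2:ℝ) ^ (9/4:ℝ) * (Real.exp (-(δ T * Real.log T)) * ((δ T) ^ (9/4:ℝ) * ∑' n : ℕ, tau (3/2) n ^ 2 * (n:ℝ) ^ (-(1 + δ T)))) ≤ 
      S3 T (δ T) * (2 * δ T) ^ (9/4:ℝ) ∧ 
      S3 T (δ T) * (2 * δ T) ^ (9/4:ℝ) ≤ (2 * δ T) ^ (9/4:ℝ) * (∑' n : ℕ, tau (3/2) n ^ 2 * (n:ℝ) ^ (-(1 + 2 * δ T))) := by
    filter_upwards [hpos, eventually_gt_atTop 1] with T hd hT
    have hT0 : 0 < T := by linarith
    have s1 := summable_tau_sq (κ := 3/2) (by norm_num) (show 1 < 1 + 2 * δ T by linarith)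
    have s2 := summable_tau_sq (κ := 3/2) (by norm_num) (show 1 < 1 + δ T by linarith)
    have hle : S3 T (δ T) ≤ ∑' n : ℕ, tau (3/2) n ^ 2 * (n:ℝ) ^ (-(1 + 2 * δ T)) := by
      unfold S3 D3
      exact s1.sum_le_tsum _ fun n _ => by positivity
    have hge : (∑' n : ℕ, tau (3/2) n ^ 2 * (n:ℝ) ^ (-(1 + 2 * δ T))) ≤ 
        S3 T (δ T) + Real.exp (-(δ T * Real.log T)) * ∑' n : ℕ, tau (3/2) n ^ 2 * (n:ℝ) ^ (-(1 + δ T)) := by
      have hsplit := s1.sum_add_tsum_compl (s := Finset.Icc 1 ⌊T⌋₊)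
      rw [← hsplit]
      have e1 : S3 T (δ T) = ∑ n ∈ Finset.Icc 1 ⌊T⌋₊, tau (3/2) n ^ 2 * (n:ℝ) ^ (-(1 + 2 * δ T)) := rfl
      rw [e1, ← tsum_mul_left]
      apply add_le_add le_rfl
      have s3 : Summable fun n : ℕ => Real.exp (-(δ T * Real.log T)) * (tau (3/2) n ^ 2 * (n:ℝ) ^ (-(1 + δ T))) := s2.mul_left _
      have hsub : ∑' x : ↑((↑(Finset.Icc 1 ⌊T⌋₊) : Set ℕ)ᶜ), tau (3/2) (x:ℕ) ^ 2 * ((x:ℕ):ℝ) ^ (-(1 + 2 * δ T)) ≤ 
          ∑' x : ↑((↑(Finset.Icc 1 ⌊T⌋₊) : Set ℕ)ᶜ), Real.exp (-(δ T * Real.log T)) * (tau (3/2) (x:ℕ) ^ 2 * ((x:ℕ):ℝ) ^ (-(1 + δ T))) := by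
        apply Summable.tsum_le_tsum _ (s1.subtype _) (s3.subtype _)
        rintro ⟨n, hn⟩
        simp only [Set.mem_compl_iff, Finset.coe_Icc, Set.mem_Icc, not_and_or, not_le] at hn
        rcases hn with hn | hn
        · have : n = 0 := by omega
          subst this
          simp
        · have hn1 : 1 ≤ n := by omega
          have hn0 : (0:ℝ) < n := by exact_mod_cast hn1
          have hn3 : T < n := (Nat.floor_lt hT0.le).mp hn
          have h5 : (n:ℝ) ^ (-(δ T)) ≤ Real.exp (-(δ T * Real.log T)) := by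
            have e6 : Real.exp (-(δ T * Real.log T)) = T ^ (-(δ T)) := by
              rw [Real.rpow_def_of_pos hT0]; congr 1; ring
            rw [e6]
            exact Real.rpow_le_rpow_of_nonpos hT0 hn3.le (by linarith)
          have h6 : (n:ℝ) ^ (-(1 + 2 * δ T)) = (n:ℝ) ^ (-(δ T)) * (n:ℝ) ^ (-(1 + δ T)) := by
            rw [← Real.rpow_add hn0]; congr 1; ring
          show tau (3/2) n ^ 2 * (n:ℝ) ^ (-(1 + 2 * δ T)) ≤ Real.exp (-(δ T * Real.log T)) * (tau (3/2) n ^ 2 * (n:ℝ) ^ (-(1 + δ T)))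
          rw [h6]
          calc tau (3/2) n ^ 2 * ((n:ℝ) ^ (-(δ T)) * (n:ℝ) ^ (-(1 + δ T))) = (n:ℝ) ^ (-(δ T)) * (tau (3/2) n ^ 2 * (n:ℝ) ^ (-(1 + δ T))) := by ring
            _ ≤ _ := by gcongr
      refine hsub.trans ?_
      exact Summable.tsum_subtype_le (f := fun n : ℕ => Real.exp (-(δ T * Real.log T)) * (tau (3/2) n ^ 2 * (n:ℝ) ^ (-(1 + δ T)))) _ (fun n => by positivity) s3
    have hp0 : 0 ≤ (2 * δ T) ^ (9/4:ℝ) := by positivity
    constructor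
    · have e2 : (2:ℝ) ^ (9/4:ℝ) * (Real.exp (-(δ T * Real.log T)) * ((δ T) ^ (9/4:ℝ) * ∑' n : ℕ, tau (3/2) n ^ 2 * (n:ℝ) ^ (-(1 + δ T)))) = 
          (2 * δ T) ^ (9/4:ℝ) * (Real.exp (-(δ T * Real.log T)) * ∑' n : ℕ, tau (3/2) n ^ 2 * (n:ℝ) ^ (-(1 + δ T))) := by
        rw [Real.mul_rpow (by norm_num) hd.le]; ring
      rw [e2, ← mul_sub, mul_comm (S3 T (δ T))]
      apply mul_le_mul_of_nonneg_left _ hp0
      linarith
    · rw [mul_comm]
      exact mul_le_mul_of_nonneg_left hle hp0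
  exact tendsto_of_tendsto_of_tendsto_of_le_of_le' g5 g2 (key.mono fun T h => h.1) (key.mono fun T h => h.2)

/-- The truncated sum at a fixed multiple of the mean spacing. -/
theorem S3_fixed (l : ℝ) : Tendsto (fun T => S3 T (l / Real.log T) / L3 T) atTop (𝓝 (Pint (9/4) l 1)) := by
  refine (D3_tendsto l (θ := 1) one_pos).congr fun T => ?_
  have hN1 : NT 1 T = ⌊T⌋₊ := by unfold NT; rw [Real.rpow_one]
  rw [hN1]
  rfl

end Pool.Agent.LibNL3
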