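import Pool.Agent.LibNL3.Defs

/-! Third moment near the critical line: the polynomial part (templates: LibZM.HB5). -/

set_option autoImplicit false

namespace Pool.Agent.LibNL3

open MeasureTheory Set Filter Topology Complex ProbabilityTheory
open scoped NNReal
open Pool.Agent.LibZM Pool.Agent.LibM3

private lemma q3_supp (N : ℕ) : SuppLe (q3 N) N := by
  intro n hn; rw [q3_apply, if_neg (by omega)]

private lemma q3_nonneg (N n : ℕ) : 0 ≤ q3 N n := by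
  rw [q3_apply]; split_ifs
  · exact tau_nonneg (by norm_num) n
  · exact le_rfl

private lemma q3_le (N n : ℕ) : q3 N n ≤ tau (3/2) n := by
  rw [q3_apply]; split_ifs
  · exact le_rfl
  · exact tau_nonneg (by norm_num) n

private lemma tau2_le (n : ℕ) : tau 2 n ≤ n := by
  rcases eq_or_ne n 0 with rfl | hn
  · simp
  have h : tau 2 n = ∑ p ∈ n.divisorsAntidiagonal, (1:ℝ) := by
    rw [show (2:ℝ) = 1 + 1 by norm_num, ← tau_mul, ArithmeticFunction.mul_apply]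
    refine Finset.sum_congr rfl fun p hp => ?_
    obtain ⟨h1, h2⟩ := Nat.mem_divisorsAntidiagonal.1 hp
    have hp1 : p.1 ≠ 0 := by rintro h0; rw [h0, zero_mul] at h1; exact h2 h1.symm
    have hp2 : p.2 ≠ 0 := by rintro h0; rw [h0, mul_zero] at h1; exact h2 h1.symm
    rw [tau_one_apply hp1, tau_one_apply hp2, one_mul]
  rw [h, Finset.sum_const, nsmul_eq_mul, mul_one]
  have h3 : n.divisorsAntidiagonal.card = n.divisors.card := by
    rw [← Nat.map_div_right_divisors, Finset.card_map]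
  rw [h3]
  exact_mod_cast Nat.card_divisors_le_self n

private lemma q3_le_self (N n : ℕ) : q3 N n ≤ n :=
  ((q3_le N n).trans (tau_mono (by norm_num) (by norm_num) n)).trans (tau2_le n)

private lemma q3_sq {N n : ℕ} (hn : n ≤ N) : (q3 N ^ 2) n = tau 3 n := by
  rw [pow_two, show (3:ℝ) = 3/2 + 3/2 by norm_num, ← tau_mul, ArithmeticFunction.mul_apply,
    ArithmeticFunction.mul_apply]
  refine Finset.sum_congr rfl fun p hp => ?_
  obtain ⟨h1, h2⟩ := Nat.mem_divisorsAntidiagonal.1 hp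
  have hp1 : p.1 ≤ n := Nat.le_of_dvd (Nat.pos_of_ne_zero h2) ⟨p.2, h1.symm⟩
  have hp2 : p.2 ≤ n := Nat.le_of_dvd (Nat.pos_of_ne_zero h2) ⟨p.1, by rw [mul_comm]; exact h1.symm⟩
  rw [q3_apply, q3_apply, if_pos (hp1.trans hn), if_pos (hp2.trans hn)]

private lemma q3_sq_nonneg (N n : ℕ) : 0 ≤ (q3 N ^ 2) n := by
  rw [pow_two, ArithmeticFunction.mul_apply]
  exact Finset.sum_nonneg fun p _ => mul_nonneg (q3_nonneg _ _) (q3_nonneg _ _)

private lemma q3_sq_le (N n : ℕ) : (q3 N ^ 2) n ≤ tau 3 n := by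
  rw [pow_two, show (3:ℝ) = 3/2 + 3/2 by norm_num, ← tau_mul, ArithmeticFunction.mul_apply,
    ArithmeticFunction.mul_apply]
  refine Finset.sum_le_sum fun p _ => ?_
  have h1 := q3_le N p.1
  have h2 := q3_le N p.2
  have h3 := q3_nonneg N p.1
  have h4 := q3_nonneg N p.2
  exact mul_le_mul h1 h2 h4 (h3.trans h1)

lemma differentiable_P3 (N : ℕ) : Differentiable ℂ (P3 N) := by
  have : P3 N = fun s => ∑ n ∈ Finset.Icc 1 N, ((q3 N n : ℝ) : ℂ) * cexp (-((Real.log n : ℝ) : ℂ) * s) := by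
    funext s; exact dp_eq_exp _ _ _
  rw [this]
  fun_prop

lemma differentiable_Q3 (N : ℕ) : Differentiable ℂ (Q3 N) := by
  have := differentiable_P3 N
  unfold Q3; fun_prop

lemma differentiable_Z3 : Differentiable ℂ Z3 := by
  have h2 := differentiable_riemannZeta₁
  unfold Z3; fun_prop

lemma differentiable_G3 (N : ℕ) : Differentiable ℂ (G3 N) := by
  have h1 := differentiable_Q3 N
  have h2 := differentiable_Z3
  unfold G3; fun_prop

lemma norm_P3_line_le {N : ℕ} {x : ℝ} (hx : 0 ≤ x) (y : ℝ) : ‖P3 N (x + y * I)‖ ≤ (N:ℝ) ^ 2 := by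
  unfold P3
  rw [dp_eq_exp]
  refine (norm_sum_le _ _).trans ?_
  calc ∑ n ∈ Finset.Icc 1 N, ‖((q3 N n : ℝ) : ℂ) * cexp (-((Real.log n : ℝ) : ℂ) * (x + y * I))‖ 
      ≤ ∑ n ∈ Finset.Icc 1 N, (N:ℝ) := by
        refine Finset.sum_le_sum fun n hn => ?_
        have hn1 := (Finset.mem_Icc.mp hn).1
        have hnN : (n:ℝ) ≤ N := by exact_mod_cast (Finset.mem_Icc.mp hn).2
        rw [norm_mul, norm_term_line hn1, norm_real, Real.norm_eq_abs, abs_of_nonneg (q3_nonneg N n)]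
        have h1 : (n:ℝ) ^ (-x) ≤ 1 := Real.rpow_le_one_of_one_le_of_nonpos (by exact_mod_cast hn1) (by linarith)
        have h2 := q3_le_self N n
        have h3 := q3_nonneg N n
        calc q3 N n * (n:ℝ) ^ (-x) ≤ N * 1 := by
              apply mul_le_mul (h2.trans hnN) h1 (by positivity) (by positivity)
          _ = N := mul_one _
    _ = (N:ℝ) ^ 2 := by simp; ring

lemma norm_Z3_line {b' x : ℝ} (hb : 1 ≤ b') (hx : x ∈ Icc (1/4:ℝ) b') (y : ℝ) :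
    ‖Z3 (x + y * I)‖ ≤ (6 * b' ^ 2) ^ 3 * (1 + |y|) ^ 6 := by
  unfold Z3
  rw [norm_pow]
  have h := norm_zeta1_line hb hx y
  calc ‖riemannZeta₁ (x + y * I)‖ ^ 3 ≤ (6 * b' ^ 2 * (1 + |y|) ^ 2) ^ 3 := by gcongr
    _ = _ := by ring

lemma norm_Q3_line {b' x : ℝ} (hb : 1 ≤ b') (hx : x ∈ Icc (1/4:ℝ) b') (N : ℕ) (y : ℝ) :
    ‖Q3 N (x + y * I)‖ ≤ b' ^ 3 * (N:ℝ) ^ 4 * (1 + |y|) ^ 3 := by
  unfold Q3
  rw [norm_mul, norm_pow, norm_pow]
  obtain ⟨h2, _⟩ := norm_line_sub_one_le hb hx y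
  have h3 := norm_P3_line_le (N := N) (x := x) (by linarith [hx.1]) y
  calc ‖(x:ℂ) + y * I - 1‖ ^ 3 * ‖P3 N (x + y * I)‖ ^ 2 ≤ (b' * (1 + |y|)) ^ 3 * ((N:ℝ) ^ 2) ^ 2 := by gcongr
    _ = _ := by ring

private lemma pow_abs_le (y : ℝ) (k : ℕ) : (1 + |y|) ^ k ≤ k.factorial * Real.exp 1 * Real.exp |y| := by
  have h := pow_le_fact_exp (x := 1 + |y|) (by positivity) k
  rw [Real.exp_add] at h
  linarith

lemma growth_G3 {b' : ℝ} (hb : 1 ≤ b') (N : ℕ) : ∃ C : ℝ, 0 ≤ C ∧ ∀ x ∈ Icc (1/4:ℝ) b', ∀ y : ℝ,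
    ‖G3 N (x + y * I)‖ ≤ C * Real.exp |y| := by
  refine ⟨(6 * b' ^ 2) ^ 3 * ((6:ℕ).factorial * Real.exp 1) +
    b' ^ 3 * (N:ℝ) ^ 4 * ((3:ℕ).factorial * Real.exp 1), by positivity, ?_⟩
  intro x hx y
  unfold G3
  refine (norm_sub_le _ _).trans ?_
  have h1 := norm_Z3_line hb hx y
  have h2 := norm_Q3_line hb hx N y
  have h3 : (6 * b' ^ 2) ^ 3 * (1 + |y|) ^ 6 ≤
      (6 * b' ^ 2) ^ 3 * ((6:ℕ).factorial * Real.exp 1 * Real.exp |y|) :=
    mul_le_mul_of_nonneg_left (pow_abs_le y 6) (by positivity)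
  have h4 : b' ^ 3 * (N:ℝ) ^ 4 * (1 + |y|) ^ 3 ≤
      b' ^ 3 * (N:ℝ) ^ 4 * ((3:ℕ).factorial * Real.exp 1 * Real.exp |y|) :=
    mul_le_mul_of_nonneg_left (pow_abs_le y 3) (by positivity)
  calc ‖Z3 (x + y * I)‖ + ‖Q3 N (x + y * I)‖ ≤
      (6 * b' ^ 2) ^ 3 * ((6:ℕ).factorial * Real.exp 1 * Real.exp |y|) +
      b' ^ 3 * (N:ℝ) ^ 4 * ((3:ℕ).factorial * Real.exp 1 * Real.exp |y|) :=
        add_le_add (h1.trans h3) (h2.trans h4)
    _ = _ := by ring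

/-- Mean square of `P3` on the line at distance `d` from the critical line. -/
lemma meanSq_P3 (u : ℝ) {v : ℝ≥0} (hv : 4 ≤ v) (N : ℕ) {d : ℝ} (hd : 0 ≤ d) :
    |(∫ t : ℝ, ‖P3 N (((1/2 + d : ℝ) : ℂ) + t * I)‖ ^ 2 ∂(gaussianReal u v)) - D3 N d| ≤
      3 * (N:ℝ) ^ 2 * Real.exp (-v / (16 * (N:ℝ) ^ 2)) * (N:ℝ) ^ 6 := by
  set c : ArithmeticFunction ℝ := ⟨fun n => q3 N n * (n:ℝ) ^ (-d), by simp⟩ with hc
  have hcn : ∀ n, c n = q3 N n * (n:ℝ) ^ (-d) := fun n => rfl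
  have hc0 : ∀ n, 0 ≤ c n := fun n => by
    rw [hcn]; have := q3_nonneg N n; positivity
  have h := mean_square u hv hc0 N
  have e1 : ∀ t : ℝ, dp c N (crit t) = P3 N (((1/2 + d : ℝ) : ℂ) + t * I) := by
    intro t
    unfold P3
    rw [dp_eq_exp, dp_eq_exp]
    refine Finset.sum_congr rfl fun n hn => ?_
    have hn1 := (Finset.mem_Icc.mp hn).1
    have hn0 : (0:ℝ) < n := by exact_mod_cast hn1
    rw [hcn]
    have : (((n:ℝ) ^ (-d) : ℝ) : ℂ) = cexp (((Real.log n : ℝ) : ℂ) * ((-d : ℝ) : ℂ)) := by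
      rw [Real.rpow_def_of_pos hn0]; push_cast; rfl
    rw [ofReal_mul, this, mul_assoc, ← Complex.exp_add]
    congr 2
    unfold crit; push_cast; ring
  have e2 : ∑ q ∈ Finset.Icc 1 N, (c q) ^ 2 * (q:ℝ)⁻¹ = D3 N d := by
    unfold D3
    refine Finset.sum_congr rfl fun n hn => ?_
    have hn1 := (Finset.mem_Icc.mp hn).1
    have hnN := (Finset.mem_Icc.mp hn).2
    have hn0 : (0:ℝ) < n := by exact_mod_cast hn1
    rw [hcn, q3_apply, if_pos hnN, mul_pow, mul_assoc]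
    congr 1
    rw [← Real.rpow_natCast, ← Real.rpow_mul hn0.le, ← Real.rpow_neg_one, ← Real.rpow_add hn0]
    congr 1; push_cast; ring
  simp_rw [e1] at h
  rw [e2] at h
  refine h.trans ?_
  have e3 : ∑ q ∈ Finset.Icc 1 N, c q ≤ (N:ℝ) ^ 3 := by
    calc ∑ q ∈ Finset.Icc 1 N, c q ≤ ∑ q ∈ Finset.Icc 1 N, (N:ℝ) ^ 2 := by
          refine Finset.sum_le_sum fun n hn => ?_
          obtain ⟨hn1, hnN⟩ := Finset.mem_Icc.mp hn
          have hn1' : (1:ℝ) ≤ n := by exact_mod_cast hn1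
          have hnN' : (n:ℝ) ≤ N := by exact_mod_cast hnN
          have h1 : (n:ℝ) ^ (-d) ≤ 1 := Real.rpow_le_one_of_one_le_of_nonpos hn1' (by linarith)
          rw [hcn]
          have h2 := q3_le_self N n
          have h3 := q3_nonneg N n
          calc q3 N n * (n:ℝ) ^ (-d) ≤ N * 1 := by
                apply mul_le_mul (h2.trans hnN') h1 (by positivity) (by positivity)
            _ ≤ (N:ℝ) ^ 2 := by nlinarith
      _ = (N:ℝ) ^ 3 := by simp; ring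
  have e4 : 0 ≤ ∑ q ∈ Finset.Icc 1 N, c q := Finset.sum_nonneg fun n _ => hc0 n
  have e5 : (∑ q ∈ Finset.Icc 1 N, c q) ^ 2 ≤ (N:ℝ) ^ 6 := by
    calc (∑ q ∈ Finset.Icc 1 N, c q) ^ 2 ≤ ((N:ℝ) ^ 3) ^ 2 := by gcongr
      _ = _ := by ring
  gcongr

private lemma term_two (n : ℕ) :
    cexp (-((Real.log n : ℝ) : ℂ) * 2) * (((if n = 0 then 0 else 1 : ℝ)) : ℂ) = (((n:ℝ) ^ (-(2:ℝ)) : ℝ) : ℂ) := by
  rcases Nat.eq_zero_or_pos n with rfl | hn
  · simp
  · have hn0 : (0:ℝ) < n := by exact_mod_cast hn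
    rw [if_neg (by omega), Real.rpow_def_of_pos hn0]
    push_cast
    ring_nf

private lemma hasSum_tau3 : HasSum (fun n : ℕ => tau 3 n * (n:ℝ) ^ (-(2:ℝ))) (Z2 ^ 3) := by
  have hre : (1:ℝ) < (2:ℂ).re := by simp
  have h1 := hasSum_zeta_pow 1 hre
  have h3 := hasSum_zeta_pow 3 hre
  have e1 : (fun n : ℕ => ((tau ((1:ℕ):ℝ) n : ℝ) : ℂ) * cexp (-((Real.log n : ℝ) : ℂ) * 2)) =
      fun n : ℕ => (((n:ℝ) ^ (-(2:ℝ)) : ℝ) : ℂ) := by
    funext n
    rw [← term_two, mul_comm]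
    rcases Nat.eq_zero_or_pos n with rfl | hn
    · simp
    · rw [if_neg (by omega), Nat.cast_one, tau_one_apply (by omega)]
  have e3 : (fun n : ℕ => ((tau ((3:ℕ):ℝ) n : ℝ) : ℂ) * cexp (-((Real.log n : ℝ) : ℂ) * 2)) =
      fun n : ℕ => ((tau 3 n * (n:ℝ) ^ (-(2:ℝ)) : ℝ) : ℂ) := by
    funext n
    rw [ofReal_mul, ← term_two]
    rcases Nat.eq_zero_or_pos n with rfl | hn
    · simp
    · rw [if_neg (by omega)]; push_cast; ring
  rw [e1, pow_one] at h1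
  rw [e3] at h3
  have h2 : HasSum (fun n : ℕ => (((n:ℝ) ^ (-(2:ℝ)) : ℝ) : ℂ)) ((Z2 : ℝ) : ℂ) :=
    Complex.hasSum_ofReal.2 Z2_summable.hasSum
  have hz : riemannZeta 2 = ((Z2 : ℝ) : ℂ) := h1.unique h2
  rw [hz, ← ofReal_pow] at h3
  exact Complex.hasSum_ofReal.1 h3

/-- Far to the right the cube of zeta is close to the square of `P3`. -/
lemma far_G3 {N : ℕ} (hN : 1 ≤ N) {b : ℝ} (hb : 2 ≤ b) (t : ℝ) :
    ‖G3 N (b + t * I)‖ ≤ ‖(b:ℂ) + t * I - 1‖ ^ 3 * (Z2 ^ 3 * (N:ℝ) ^ (2 - b)) := by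
  set s : ℂ := (b:ℂ) + t * I with hs
  have hre : s.re = b := by simp [hs]
  have hre1 : 1 < s.re := by rw [hre]; linarith
  have hs1 : s ≠ 1 := by rintro h; rw [h] at hre1; simp at hre1
  have hs1' : s - 1 ≠ 0 := sub_ne_zero.mpr hs1
  have hs0 : s ≠ 0 := by rintro h; rw [h] at hre1; simp at hre1; linarith
  have hN0 : (0:ℝ) < N := by exact_mod_cast hN
  have h1 := hasSum_zeta_pow 3 hre1
  -- the square of P3 as a sum
  have hsq : P3 N s ^ 2 = dp (q3 N ^ 2) (N ^ 2) s := (dp_pow (q3_supp N) hs0 2).symm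
  have h2 : HasSum (fun n : ℕ => (((q3 N ^ 2) n : ℝ) : ℂ) * cexp (-((Real.log n : ℝ) : ℂ) * s)) (P3 N s ^ 2) := by
    rw [hsq, dp_eq_exp]
    apply hasSum_sum_of_ne_finset_zero
    intro n hn
    rw [Finset.mem_Icc, not_and_or, not_le, not_le] at hn
    rcases hn with h | h
    · have : n = 0 := by omega
      subst this; simp
    · rw [(q3_supp N).pow 2 n h]; simp
  have h3 := h1.sub h2
  have hbd : ∀ n : ℕ, ‖((tau ((3:ℕ):ℝ) n : ℝ) : ℂ) * cexp (-((Real.log n : ℝ) : ℂ) * s) - (((q3 N ^ 2) n : ℝ) : ℂ) * cexp (-((Real.log n : ℝ) : ℂ) * s)‖ ≤ 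
      (N:ℝ) ^ (2 - b) * (tau 3 n * (n:ℝ) ^ (-(2:ℝ))) := by
    intro n
    rw [Nat.cast_ofNat]
    rcases Nat.eq_zero_or_pos n with rfl | hn
    · simp
    · have hn0 : (0:ℝ) < n := by exact_mod_cast hn
      have ht0 := tau_nonneg (α := 3) (by norm_num) n
      rw [← sub_mul, norm_mul]
      rw [hs, norm_term_line hn, ← ofReal_sub, norm_real, Real.norm_eq_abs]
      by_cases hnN : n ≤ N
      · rw [q3_sq hnN, sub_self, abs_zero, zero_mul]; positivity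
      · push Not at hnN
        have hnN' : (N:ℝ) ≤ n := by exact_mod_cast hnN.le
        have e2 := q3_sq_nonneg N n
        have e3 := q3_sq_le N n
        have e4 : |tau 3 n - (q3 N ^ 2) n| ≤ tau 3 n := by
          rw [abs_le]; constructor <;> linarith
        calc |tau 3 n - (q3 N ^ 2) n| * (n:ℝ) ^ (-b) ≤ tau 3 n * (n:ℝ) ^ (-b) := by gcongr
          _ = (n:ℝ) ^ (2 - b) * (tau 3 n * (n:ℝ) ^ (-(2:ℝ))) := by
              rw [mul_left_comm, ← Real.rpow_add hn0]; congr 2; ring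
          _ ≤ (N:ℝ) ^ (2 - b) * (tau 3 n * (n:ℝ) ^ (-(2:ℝ))) := by
              apply mul_le_mul_of_nonneg_right _ (by positivity)
              exact Real.rpow_le_rpow_of_nonpos hN0 hnN' (by linarith)
  have h4 := tsum_of_norm_bounded (hasSum_tau3.mul_left ((N:ℝ) ^ (2 - b))) hbd
  rw [h3.tsum_eq] at h4
  have h5 : G3 N s = (s - 1) ^ 3 * (riemannZeta s ^ 3 - P3 N s ^ 2) := by
    unfold G3 Q3 Z3
    rw [riemannZeta_eq_inv_sub_mul hs1]
    field_simp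
  rw [h5, norm_mul, norm_pow]
  refine mul_le_mul_of_nonneg_left ?_ (by positivity)
  rw [mul_comm (Z2 ^ 3)]
  exact h4

end Pool.Agent.LibNL3
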