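import Pool.Agent.LibNL3.Lines
import Pool.Agent.LibNL3.Near

/-! Third moment near the critical line: the uniform formula (template: LibZM.NC5 first_uniform). -/

set_option autoImplicit false

namespace Pool.Agent.LibNL3

open MeasureTheory Set Filter Topology Complex ProbabilityTheory
open scoped NNReal
open Pool.Agent.LibZM Pool.Agent.LibM3

/-- Uniform approximate formula for the third moment on lines near the critical line. -/
theorem third_uniform {K₀ K : ℝ} (hK0 : 1 ≤ K₀) (hKK : K₀ < K)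
    (hcrit : ∀ᶠ θ : ℝ in 𝓝[<] (1:ℝ), ∀ ε : ℝ, 0 < ε → ∀ᶠ p : ℝ × ℝ in Fl ε,
      En (G3 (NT θ p.1)) p.2 (vw p.1) (1/2) ≤ K₀ * (p.2 ^ 3 * L3 p.1)) {η : ℝ} (hη : 0 < η) :
    ∀ᶠ T : ℝ in atTop, ∀ d : ℝ, 0 ≤ d → d ≤ 1/4 →
      |(∫ t in Icc 0 T, zl d t ^ 3) - T * S3 T d| ≤ η * (T * S3 T d) + K * (T * (L3 T * Real.exp (-(d * Real.log T)))) := by
  -- parameters
  obtain ⟨ρ, hρ0, hρ1, hρK, hρη⟩ : ∃ ρ : ℝ, 0 < ρ ∧ ρ < 1/4 ∧ (K₀ + ρ) * (1 + ρ) ^ 2 < K ∧ ρ < η / 2 := by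
    apply exists_delta
    have c1 : ContinuousAt (fun ρ : ℝ => (K₀ + ρ) * (1 + ρ) ^ 2) 0 := by fun_prop
    have d1 := c1.eventually_lt_const (u := K) (by norm_num; exact hKK)
    have d2 : ∀ᶠ ρ : ℝ in 𝓝 0, ρ < η / 2 := gt_mem_nhds (by positivity)
    filter_upwards [d1, d2] with x h1 h2
    exact ⟨h1, h2⟩
  obtain ⟨Λ, hΛ0, hΛ⟩ := far_small3 (η := η / (4 * (K₀ + ρ))) (by positivity)
  obtain ⟨κ, hκh, hκ1, hκΛ⟩ : ∃ κ : ℝ, 1/2 ≤ κ ∧ κ < 1 ∧ Real.exp ((1 - κ) * Λ) ≤ 1 + ρ := by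
    have c1 : ContinuousAt (fun κ : ℝ => Real.exp ((1 - κ) * Λ)) 1 := by fun_prop
    have d1 := c1.eventually_lt_const (u := 1 + ρ) (by norm_num; exact hρ0)
    have d2 : ∀ᶠ κ : ℝ in 𝓝 (1:ℝ), 1/2 < κ := lt_mem_nhds (by norm_num)
    obtain ⟨κ, ⟨h1, h2⟩, h3⟩ := (((d1.and d2).filter_mono nhdsWithin_le_nhds : ∀ᶠ κ in 𝓝[<] (1:ℝ), _).and self_mem_nhdsWithin).exists
    exact ⟨κ, h2.le, h3, h1.le⟩
  have u1 := upper_line3 hK0 hρ0 (by linarith) (by linarith) hκ1 hcrit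
  have u2 := lower_line3 hK0 hρ0 (by linarith) (by linarith) hκ1 hcrit
  have u3 : ∀ᶠ T : ℝ in atTop, Λ / Real.log T < ρ / 2 := (div_log_tendsto Λ).eventually_lt_const (by positivity)
  filter_upwards [u1, u2, u3, eventually_gt_atTop 1] with T h1 h2 h3 hT d hd0 hd1
  have hT0 : 0 < T := by linarith
  have hl := Real.log_pos hT
  have hL := L3_pos hT
  have b1 := h1 d hd0 hd1
  have b2 := h2 d hd0 hd1
  have hSN := one_le_S3 hT.le d
  have hTS : 0 < T * S3 T d := by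
    have : 0 < S3 T d := by linarith
    positivity
  obtain ⟨x, hx⟩ : ∃ x : ℝ, x = d * Real.log T := ⟨_, rfl⟩
  have hx0 : 0 ≤ x := by rw [hx]; positivity
  have eκ : κ * d * Real.log T = κ * x := by rw [hx]; ring
  rw [eκ] at b1 b2
  rw [← hx]
  have hκd : κ * d ≤ 1/4 := by nlinarith
  have hκd0 : 0 ≤ κ * d := mul_nonneg (by linarith) hd0
  obtain ⟨J, hJ⟩ : ∃ J : ℝ, J = ∫ t in Icc 0 T, zl d t ^ 3 := ⟨_, rfl⟩
  rw [← hJ] at b1 b2 ⊢
  rcases le_or_gt x Λ with hxΛ | hxΛ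
  · -- close to the critical line
    have hdρ : d ≤ ρ / 2 := by
      have : d ≤ Λ / Real.log T := by
        rw [le_div_iff₀ hl, ← hx]; exact hxΛ
      linarith
    have e1 : Real.exp (-(κ * x)) ≤ (1 + ρ) * Real.exp (-x) := by
      have : Real.exp (-(κ * x)) = Real.exp ((1 - κ) * x) * Real.exp (-x) := by
        rw [← Real.exp_add]; congr 1; ring
      rw [this]
      apply mul_le_mul_of_nonneg_right _ (Real.exp_pos _).le
      refine le_trans ?_ hκΛ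
      apply Real.exp_le_exp.mpr
      apply mul_le_mul_of_nonneg_left hxΛ
      linarith
    have e2 : (K₀ + ρ) / (1 - κ * d) ≤ (K₀ + ρ) * (1 + ρ) := by
      rw [div_le_iff₀ (by linarith)]
      have : 1 ≤ (1 + ρ) * (1 - κ * d) := by nlinarith
      nlinarith
    have hY : 0 < T * (L3 T * Real.exp (-x)) := by positivity
    have e3 : T * (L3 T * Real.exp (-(κ * x))) ≤ (1 + ρ) * (T * (L3 T * Real.exp (-x))) := by
      calc T * (L3 T * Real.exp (-(κ * x))) ≤ T * (L3 T * ((1 + ρ) * Real.exp (-x))) := by gcongr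
        _ = _ := by ring
    have e4 : (K₀ + ρ) * (1 + ρ) * ((1 + ρ) * (T * (L3 T * Real.exp (-x)))) ≤ K * (T * (L3 T * Real.exp (-x))) := by
      calc _ = ((K₀ + ρ) * (1 + ρ) ^ 2) * (T * (L3 T * Real.exp (-x))) := by ring
        _ ≤ _ := by gcongr
    have hX0 : 0 ≤ T * (L3 T * Real.exp (-(κ * x))) := by positivity
    rw [abs_le]
    constructor
    · have c1 : (K₀ + ρ) * (T * (L3 T * Real.exp (-(κ * x)))) ≤ K * (T * (L3 T * Real.exp (-x))) := by
        calc (K₀ + ρ) * (T * (L3 T * Real.exp (-(κ * x)))) ≤ (K₀ + ρ) * (1 + ρ) * ((1 + ρ) * (T * (L3 T * Real.exp (-x)))) := by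
              apply mul_le_mul _ e3 hX0 (by positivity)
              nlinarith
          _ ≤ _ := e4
      nlinarith
    · have c1 : (K₀ + ρ) / (1 - κ * d) * (T * (L3 T * Real.exp (-(κ * x)))) ≤ K * (T * (L3 T * Real.exp (-x))) := by
        calc _ ≤ (K₀ + ρ) * (1 + ρ) * ((1 + ρ) * (T * (L3 T * Real.exp (-x)))) := mul_le_mul e2 e3 hX0 (by positivity)
          _ ≤ _ := e4
      nlinarith
  · -- away from the critical line
    have f1 := hΛ T d hT hd0 hd1 (by rw [← hx]; exact hxΛ.le)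
    rw [← hx] at f1
    have f2 : Real.exp (-(κ * x)) ≤ Real.exp (-x / 2) := by
      apply Real.exp_le_exp.mpr; nlinarith
    have e2 : (K₀ + ρ) / (1 - κ * d) ≤ 2 * (K₀ + ρ) := by
      rw [div_le_iff₀ (by linarith)]
      nlinarith
    have f3 : 2 * (K₀ + ρ) * (T * (L3 T * Real.exp (-(κ * x)))) ≤ η / 2 * (T * S3 T d) := by
      calc 2 * (K₀ + ρ) * (T * (L3 T * Real.exp (-(κ * x)))) ≤ 2 * (K₀ + ρ) * (T * (L3 T * Real.exp (-x / 2))) := by gcongr
        _ ≤ 2 * (K₀ + ρ) * (T * (η / (4 * (K₀ + ρ)) * S3 T d)) := by gcongr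
        _ = _ := by field_simp; ring
    have hX0 : 0 ≤ T * (L3 T * Real.exp (-(κ * x))) := by positivity
    have hY : 0 ≤ K * (T * (L3 T * Real.exp (-x))) := by
      have : 0 < K := by linarith
      positivity
    rw [abs_le]
    constructor
    · have c1 : (K₀ + ρ) * (T * (L3 T * Real.exp (-(κ * x)))) ≤ 2 * (K₀ + ρ) * (T * (L3 T * Real.exp (-(κ * x)))) := by
        apply mul_le_mul_of_nonneg_right _ hX0
        linarith
      nlinarith
    · have c1 : (K₀ + ρ) / (1 - κ * d) * (T * (L3 T * Real.exp (-(κ * x)))) ≤ 2 * (K₀ + ρ) * (T * (L3 T * Real.exp (-(κ * x)))) := by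
        apply mul_le_mul_of_nonneg_right e2 hX0
      nlinarith

end Pool.Agent.LibNL3
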