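import Pool.Agent.LibNL3.Qwin
import Pool.Agent.LibNL3.Decay

/-! Third moment near the critical line: the full inequality on Gaussian windows. -/

set_option autoImplicit false

namespace Pool.Agent.LibNL3

open MeasureTheory Set Filter Topology Complex ProbabilityTheory
open scoped NNReal
open Pool.Agent.LibZM Pool.Agent.LibM3

lemma abs_poly_exp (m : ℕ) (y : ℝ) : (1 + |y|) ^ m ≤ m.factorial * Real.exp 1 * Real.exp |y| := by
  have h := pow_le_fact_exp (x := 1 + |y|) (by positivity) m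
  rw [Real.exp_add] at h
  linarith

lemma integrable_Z3 {x : ℝ} (hx : 1/4 ≤ x) (hx1 : x ≤ 1) (u : ℝ) (v : ℝ≥0) :
    Integrable (fun t : ℝ => ‖Z3 (x + t * I)‖) (gaussianReal u v) := by
  apply integrable_growth (C := (6 * 1 ^ 2) ^ 3 * ((6:ℕ).factorial * Real.exp 1)) differentiable_Z3.continuous
  intro t
  have h1 := norm_Z3_line (b' := 1) le_rfl (x := x) ⟨hx, hx1⟩ t
  have h2 := abs_poly_exp 6 t
  calc ‖Z3 (x + t * I)‖ ≤ (6 * 1 ^ 2) ^ 3 * (1 + |t|) ^ 6 := h1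
    _ ≤ (6 * 1 ^ 2) ^ 3 * ((6:ℕ).factorial * Real.exp 1 * Real.exp |t|) := by gcongr
    _ = _ := by ring

lemma integrable_Q3 (N : ℕ) {x : ℝ} (hx : 1/4 ≤ x) (hx1 : x ≤ 1) (u : ℝ) (v : ℝ≥0) :
    Integrable (fun t : ℝ => ‖Q3 N (x + t * I)‖) (gaussianReal u v) := by
  apply integrable_growth (C := 1 ^ 3 * (N:ℝ) ^ 4 * ((3:ℕ).factorial * Real.exp 1)) (differentiable_Q3 N).continuous
  intro t
  have h1 := norm_Q3_line (b' := 1) le_rfl (x := x) ⟨hx, hx1⟩ N t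
  have h2 := abs_poly_exp 3 t
  calc ‖Q3 N (x + t * I)‖ ≤ 1 ^ 3 * (N:ℝ) ^ 4 * (1 + |t|) ^ 3 := h1
    _ ≤ 1 ^ 3 * (N:ℝ) ^ 4 * ((3:ℕ).factorial * Real.exp 1 * Real.exp |t|) := by gcongr
    _ = _ := by ring

lemma integrable_G3 (N : ℕ) {x : ℝ} (hx : 1/4 ≤ x) (hx1 : x ≤ 1) (u : ℝ) (v : ℝ≥0) :
    Integrable (fun t : ℝ => ‖G3 N (x + t * I)‖) (gaussianReal u v) := by
  obtain ⟨C, -, hC⟩ := growth_G3 (b' := 1) le_rfl N
  exact integrable_growth (differentiable_G3 N).continuous (fun t => hC x ⟨hx, hx1⟩ t) u v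

lemma triangle_z3 (N : ℕ) {x : ℝ} (hx : 1/4 ≤ x) (hx1 : x ≤ 1) (u : ℝ) (v : ℝ≥0) :
    En Z3 u v x ≤ En (G3 N) u v x + En (Q3 N) u v x := by
  unfold En
  rw [← integral_add (integrable_G3 N hx hx1 u v) (integrable_Q3 N hx hx1 u v)]
  apply integral_mono (integrable_Z3 hx hx1 u v) ((integrable_G3 N hx hx1 u v).add (integrable_Q3 N hx hx1 u v))
  intro t
  show ‖Z3 (x + t * I)‖ ≤ ‖G3 N (x + t * I)‖ + ‖Q3 N (x + t * I)‖
  have e : Z3 (x + t * I) = G3 N (x + t * I) + Q3 N (x + t * I) := by unfold G3; ring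
  rw [e]
  exact norm_add_le _ _

lemma triangle_q3 (N : ℕ) {x : ℝ} (hx : 1/4 ≤ x) (hx1 : x ≤ 1) (u : ℝ) (v : ℝ≥0) :
    En (Q3 N) u v x ≤ En Z3 u v x + En (G3 N) u v x := by
  unfold En
  rw [← integral_add (integrable_Z3 hx hx1 u v) (integrable_G3 N hx hx1 u v)]
  apply integral_mono (integrable_Q3 N hx hx1 u v) ((integrable_Z3 hx hx1 u v).add (integrable_G3 N hx hx1 u v))
  intro t
  show ‖Q3 N (x + t * I)‖ ≤ ‖Z3 (x + t * I)‖ + ‖G3 N (x + t * I)‖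
  have e : Q3 N (x + t * I) = Z3 (x + t * I) - G3 N (x + t * I) := by unfold G3; ring
  rw [e]
  exact norm_sub_le _ _

lemma triangle_g3 (N : ℕ) {x : ℝ} (hx : 1/4 ≤ x) (hx1 : x ≤ 1) (u : ℝ) (v : ℝ≥0) :
    En (G3 N) u v x ≤ En Z3 u v x + En (Q3 N) u v x := by
  unfold En
  rw [← integral_add (integrable_Z3 hx hx1 u v) (integrable_Q3 N hx hx1 u v)]
  apply integral_mono (integrable_G3 N hx hx1 u v) ((integrable_Z3 hx hx1 u v).add (integrable_Q3 N hx hx1 u v))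
  intro t
  exact norm_sub_le _ _

/-- The full inequality on Gaussian windows. -/
theorem window3 {K η κ : ℝ} (hK : 1 ≤ K) (hη : 0 < η) (hη1 : η ≤ 1) (hκ0 : 0 ≤ κ) (hκ : κ < 1)
    (hcrit : ∀ᶠ θ : ℝ in 𝓝[<] (1:ℝ), ∀ ε : ℝ, 0 < ε → ∀ᶠ p : ℝ × ℝ in Fl ε,
      En (G3 (NT θ p.1)) p.2 (vw p.1) (1/2) ≤ K * (p.2 ^ 3 * L3 p.1)) :
    ∀ ε : ℝ, 0 < ε → ∀ᶠ p : ℝ × ℝ in Fl ε, ∀ d : ℝ, 0 ≤ d → d ≤ 1/4 →
      En Z3 p.2 (vw p.1) (1/2 + d) ≤
        ((1 + η) * S3 p.1 d + (K + η) * (L3 p.1 * Real.exp (-(κ * d * Real.log p.1)))) * p.2 ^ 3 ∧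
      ((1 - η) * S3 p.1 d - (K + η) * (L3 p.1 * Real.exp (-(κ * d * Real.log p.1)))) * p.2 ^ 3 ≤
        En Z3 p.2 (vw p.1) (1/2 + d) := by
  have hK0 : 0 < K := by linarith
  have hpos : ∀ᶠ θ : ℝ in 𝓝[<] (1:ℝ), 0 < θ := by
    apply Filter.Eventually.filter_mono nhdsWithin_le_nhds
    exact lt_mem_nhds one_pos
  have hgt : ∀ᶠ θ : ℝ in 𝓝[<] (1:ℝ), κ < θ := by
    apply Filter.Eventually.filter_mono nhdsWithin_le_nhds
    exact lt_mem_nhds hκ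
  obtain ⟨θ, ⟨⟨⟨h1, h2⟩, h3⟩, h4⟩, h5⟩ := ((((hcrit.and (S3_le_D3 (η := η / 2) (by positivity))).and hpos).and hgt).and self_mem_nhdsWithin).exists
  intro ε hε
  have hc : 1 < 1 + η / (2 * K) := by
    have : 0 < η / (2 * K) := by positivity
    linarith
  filter_upwards [q3_window hε h3 h5 hη hη1, g3_decay hε h3 h5 hκ0 h4 hK (h1 ε hε) hc, (Fl_fst ε).eventually h2, Fl_pos hε] with p q1 q2 q3 hp d hd0 hd1
  have hT0 : 0 < p.1 := by linarith [hp.1]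
  have hu0 : 0 < p.2 := by linarith [hp.2]
  have hl := Real.log_pos hp.1
  have hL := L3_pos hp.1
  obtain ⟨a1, a2⟩ := q1 d hd0 hd1
  have a3 := q2 d hd0 hd1
  have a4 := q3 d hd0
  have t1 := triangle_z3 (NT θ p.1) (x := 1/2 + d) (by linarith) (by linarith) p.2 (vw p.1)
  have t2 := triangle_q3 (NT θ p.1) (x := 1/2 + d) (by linarith) (by linarith) p.2 (vw p.1)
  obtain ⟨E, hE⟩ : ∃ E : ℝ, E = Real.exp (-(κ * d * Real.log p.1)) := ⟨_, rfl⟩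
  obtain ⟨D, hD⟩ : ∃ D : ℝ, D = D3 (NT θ p.1) d := ⟨_, rfl⟩
  obtain ⟨U, hU⟩ : ∃ U : ℝ, U = p.2 ^ 3 := ⟨_, rfl⟩
  have hU0 : 0 < U := by rw [hU]; positivity
  have hE0 : 0 < E := by rw [hE]; exact Real.exp_pos _
  have hE2 : Real.exp (-(2 * θ * d * Real.log p.1)) ≤ E := by
    rw [hE]
    apply Real.exp_le_exp.mpr
    rw [neg_le_neg_iff]
    apply mul_le_mul_of_nonneg_right _ hl.le
    apply mul_le_mul_of_nonneg_right _ hd0
    linarith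
  rw [← hE] at a3 ⊢
  rw [← hD] at a1 a2 a4
  rw [← hU] at a1 a2 a3 ⊢
  have hDS : D ≤ S3 p.1 d := by rw [hD]; exact D3_NT_le_S3 h5.le hp.1.le d
  have hc2 : (1 + η / (2 * K)) * (K * (U * L3 p.1)) * E = (K + η / 2) * (L3 p.1 * E) * U := by
    field_simp
  rw [hc2] at a3
  have hLE : 0 < L3 p.1 * E := mul_pos hL hE0
  have a5 : S3 p.1 d ≤ D + η / 2 * (L3 p.1 * E) := by
    refine a4.trans ?_
    gcongr
  obtain ⟨X, hX⟩ : ∃ X : ℝ, X = L3 p.1 * E := ⟨_, rfl⟩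
  rw [← hX] at a3 a5 hLE ⊢
  constructor
  · refine t1.trans ?_
    have b1 : (1 + η) * (U * D) ≤ (1 + η) * (U * S3 p.1 d) := by gcongr
    have b2 : (K + η / 2) * X * U ≤ (K + η) * X * U := by gcongr; linarith
    calc _ ≤ (K + η / 2) * X * U + (1 + η) * (U * D) := add_le_add a3 a1
      _ ≤ (K + η) * X * U + (1 + η) * (U * S3 p.1 d) := add_le_add b2 b1
      _ = _ := by ring
  · have b1 : (1 - η) * (U * D) ≤ En Z3 p.2 (vw p.1) (1/2 + d) + (K + η / 2) * X * U := by linarith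
    have b3 : (1 - η) * S3 p.1 d ≤ (1 - η) * D + η / 2 * X := by
      have c1 : (1 - η) * S3 p.1 d ≤ (1 - η) * (D + η / 2 * X) := mul_le_mul_of_nonneg_left a5 (by linarith)
      have c2 : 0 ≤ η * (η / 2 * X) := by positivity
      nlinarith
    have b4 : (1 - η) * S3 p.1 d * U ≤ ((1 - η) * D + η / 2 * X) * U := mul_le_mul_of_nonneg_right b3 hU0.le
    nlinarith

end Pool.Agent.LibNL3
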